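import Pool.Agent.W_7d29a1_SP.DefsSP2
import Pool.Agent.W_7d29a1_SD.DefsSD

/-!
Theorem W: in two transversal dimensions the polymer spreads faster than `√n` times every power of
`log n`, in almost every direction, in the sense of fourth moments. Definitions and frozen
statements of the leaves. Paper proof: `/team-store/h83_W.md`.
-/

namespace Pool.Agent.W_7d29a1_SW

open MeasureTheory ProbabilityTheory Filter Topology Pool.Agent.W_MP_7d29a1_pr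
  Pool.Agent.W_7d29a1_h46 Pool.Agent.W_7d29a1_h46u Pool.Agent.W_7d29a1_D2.B35
  Pool.Agent.W_7d29a1_Q29 Pool.Agent.W_7d29a1_R34 Pool.Agent.W_7d29a1_SP Pool.Agent.W_7d29a1_SD

/-- The variance given the rows `≤ p`: the bulk variance. -/
noncomputable def Vb {d : ℕ} (ρ : Measure ℝ) (β : ℝ) (h : Vec d) (n p : ℕ) : ℝ :=
  ∫ η, (X β h η n - cE ρ (Pa d p) (fun ζ => X β h ζ n) η) ^ 2 ∂(law d ρ)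

open Classical in
/-- The sites `y` at the time `t` with `‖y - t v‖ ≤ w`. -/
noncomputable def bal {d : ℕ} (v : Vec d) (t : ℕ) (w : ℝ) : Finset (Site d) :=
  (boxF d t).filter fun y => ‖emb y - (t : ℝ) • v‖ ≤ w

/-- The hypothesis to be contradicted: the maximum of `‖S_i - i v‖` has a fourth moment (in the weak
sense) of order `n ^ 2 exp (c √(log n))`. -/
def HW {d : ℕ} (ρ : Measure ℝ) (β : ℝ) (h v : Vec d) (c : ℝ) (n₀ : ℕ) : Prop :=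
  ∀ n : ℕ, n₀ ≤ n → ∀ r : ℝ, 0 < r → r ^ 4 * ∫ η, (1 - PolT β h η (tube d n v r)) ∂(law d ρ) ≤
    (n : ℝ) ^ 2 * Real.exp (c * Real.sqrt (Real.log n))

/-- The data of a good point, total variance (`d = 2`). -/
structure Pw (ρ : Measure ℝ) (β : ℝ) (h v : Vec 2) (g Q c R : ℝ) : Prop where
  gap : lam ρ β h + g ≤ Real.log (Phi h) + Real.log (∫ t, Real.exp (β * t) ∂ρ)
  loc : ∀ n t : ℕ, t ≤ n →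
    ∫ η, (1 - ∑ y ∈ bal v t (kap Q c n * Real.sqrt n), Qt β h n t y η) ∂(law 2 ρ) ≤ 1 / 8
  var : ∀ t : ℕ, Va ρ β h t ≤ kap Q c t
  rate : ∀ n : ℕ, En ρ β h n ≤ R * (n : ℝ) ^ (49 / 100 : ℝ)

/-- The data of a good point, bulk variance (`d = 2`). -/
structure Pb (ρ : Measure ℝ) (β : ℝ) (h v : Vec 2) (g θ Q c R : ℝ) : Prop where
  gap : lam ρ β h + g ≤ Real.log (Phi h) + Real.log (∫ t, Real.exp (β * t) ∂ρ)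
  loc : ∀ n t : ℕ, t ≤ n →
    ∫ η, (1 - ∑ y ∈ bal v t (kap Q c n * Real.sqrt n), Qt β h n t y η) ∂(law 2 ρ) ≤ 1 / 8
  bulk : ∀ n : ℕ, Vb ρ β h n ⌊θ * n⌋₊ ≤ kap Q c n
  rate : ∀ n : ℕ, En ρ β h n ≤ R * (n : ℝ) ^ (49 / 100 : ℝ)

/-! ### Part A: every dimension, every law -/

section All

variable (d : ℕ) (ρ : Measure ℝ) (β : ℝ)

/-- Leaf A1: luck, with the window as a hypothesis (second half of `luck93`). -/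
def LuD : Prop := ∀ (g : ℝ) (h : Vec d) (n t : ℕ) (R : Finset (Site d)), t ≤ n → R ⊆ boxF d t →
  ∫ η, (1 - ∑ y ∈ R, Qt β h n t y η) ∂(law d ρ) ≤ 1 / 8 → 12 ≤ g →
  g ≤ A ρ β h n - A ρ β h t - A ρ β h (n - t) → Fn ρ β h n + Fn ρ β h t ≤ g / 32 →
    1 / 4 ≤ R.card * St ρ β h n t *
      (law d ρ).real {η | A ρ β h (n - t) + g / 4 < X β h η (n - t)}

/-- Leaf A2: the bulk variance is at most the variance. -/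
def VbV : Prop := ∀ (h : Vec d) (n p : ℕ), 0 ≤ Vb ρ β h n p ∧ Vb ρ β h n p ≤ Va ρ β h n

/-- Leaf A3: Newman-Piza backward with the bulk variance. -/
def NpW : Prop := ∃ C : ℝ, 0 ≤ C ∧ ∀ (h : Vec d) (L p : ℕ),
  ∑ t ∈ Finset.Icc (p + 1) L, St ρ β h L t ≤ C * Vb ρ β h L p

/-- Leaf A4: counting at the same scale. -/
def SaW : Prop := ∀ c₀ : ℝ, 0 < c₀ → ∃ C : ℝ, 1 ≤ C ∧ ∀ h : Vec d, Loc1 ρ β h c₀ →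
  ∀ θ : ℝ, 0 < θ → θ ≤ c₀ / 4 → ∀ (m : ℕ) (x q K Φ : ℝ), 1 ≤ m → 0 < q → 0 ≤ K →
    (∀ L : ℕ, L ≤ 2 * m → Vb ρ β h L ⌊θ * L⌋₊ ≤ K) → (∀ i : ℕ, i ≤ 2 * m → En ρ β h i ≤ Φ) →
    q ≤ (law d ρ).real {η | A ρ β h m + x ≤ X β h η m} → x ≤ C * (Φ + 1 + Real.sqrt (K / q))

/-- Leaf A5: the lower side. -/
def NgW : Prop := ∀ θ : ℝ, 0 < θ → θ ≤ 1 / 2 → ∀ (h : Vec d) (n : ℕ) (K Φ : ℝ), 1 ≤ n → 0 ≤ K →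
  (∀ L : ℕ, L ≤ n → Vb ρ β h L ⌊θ * L⌋₊ ≤ K) → (∀ i : ℕ, i ≤ n → En ρ β h i ≤ Φ) →
    ∫ η, max 0 (A ρ β h n - X β h η n) ^ 2 ∂(law d ρ) ≤
      (4 * (1 + Real.log n) * (Real.sqrt K + Φ)) ^ 2

/-- Leaf A6 (from `SaW`, `NgW`): the variance from the bulk variance. -/
def VaW : Prop := ∀ c₀ : ℝ, 0 < c₀ → ∃ C : ℝ, 1 ≤ C ∧ ∀ h : Vec d, Loc1 ρ β h c₀ →
  ∀ θ : ℝ, 0 < θ → θ ≤ c₀ / 4 → ∀ (m : ℕ) (K Φ : ℝ), 1 ≤ m → 0 ≤ K →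
    (∀ L : ℕ, L ≤ 2 * m → Vb ρ β h L ⌊θ * L⌋₊ ≤ K) → (∀ i : ℕ, i ≤ 2 * m → En ρ β h i ≤ Φ) →
    Va ρ β h m ≤ C * (1 + Real.log m) ^ 2 * (1 + K + Φ ^ 2)

/-! ### Part C: from the hypothesis to a good point -/

/-- Leaf C1: the velocity is a slope. -/
def SlW : Prop := ∀ (h v : Vec d) (c : ℝ) (n₀ : ℕ), HW ρ β h v c n₀ →
  ∀ k : Vec d, lam ρ β h + inner ℝ v k ≤ lam ρ β (h + k)

/-- Leaf C2: the resampling bound at all levels. -/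
def RsW : Prop := ∀ (h v : Vec d) (c θ C s₀ : ℝ) (n₀ : ℕ), 0 < θ → θ ≤ 1 / 2 → 0 < C → 0 < s₀ →
  HW ρ β h v c n₀ → (∀ s : ℝ, 0 < s → s ≤ s₀ → ∃ v' h' : Vec d, s / 2 ≤ ‖v' - v‖ ∧
    ‖v' - v‖ ≤ s ∧ ‖h' - h‖ ≤ C * ‖v' - v‖ ∧ HW ρ β h' v' c n₀) →
  ∃ C₁ κ : ℝ, ∃ n₁ : ℕ, 1 ≤ C₁ ∧ 0 < κ ∧ ∀ n : ℕ, n₁ ≤ n → ∀ R : ℝ, 1 ≤ R →
    R ≤ κ * Real.sqrt n →
    RS ρ β h n ⌊θ * n⌋₊ (C₁ * R ^ 2) (10 * (Real.exp (c * Real.sqrt (Real.log n)) / R ^ 4))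

/-- Leaf C3: from the tails to the bulk variance. -/
def BkW : Prop := ∀ (h : Vec d) (c θ C₁ κ : ℝ) (n₁ : ℕ), 0 < c → 1 ≤ C₁ → 0 < κ →
  (∀ n : ℕ, n₁ ≤ n → ∀ R : ℝ, 1 ≤ R → R ≤ κ * Real.sqrt n →
    RS ρ β h n ⌊θ * n⌋₊ (C₁ * R ^ 2) (10 * (Real.exp (c * Real.sqrt (Real.log n)) / R ^ 4))) →
  ∃ C : ℝ, 0 ≤ C ∧ ∀ n : ℕ, Vb ρ β h n ⌊θ * n⌋₊ ≤
    C * Real.exp (c * Real.sqrt (Real.log n)) * (1 + Real.log n)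

/-- Leaf C4: the rate. -/
def RtW : Prop := ∀ (h v : Vec d) (c : ℝ) (n₀ : ℕ), HW ρ β h v c n₀ → ∃ R : ℝ, ∀ n : ℕ,
  En ρ β h n ≤ R * (n : ℝ) ^ (49 / 100 : ℝ)

/-- Leaf C5: the window. -/
def LcW : Prop := ∀ (h v : Vec d) (c : ℝ) (n₀ : ℕ), 0 < c → HW ρ β h v c n₀ →
  ∃ Q : ℝ, 1 ≤ Q ∧ ∀ n t : ℕ, t ≤ n →
    ∫ η, (1 - ∑ y ∈ bal v t (kap Q c n * Real.sqrt n), Qt β h n t y η) ∂(law d ρ) ≤ 1 / 8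

end All

/-! ### Part B: dimension two -/

section Two

variable (ρ : Measure ℝ) (β : ℝ)

/-- Leaf B1 (from `LuD`, `NpW`): luck from the bulk variance. -/
def LkB : Prop := ∀ θ : ℝ, 0 < θ → θ ≤ 1 / 4000 → ∃ c₂ : ℝ, 0 < c₂ ∧ c₂ ≤ 1 / 2 ∧
  ∀ (h v : Vec 2) (N L : ℕ) (e K : ℝ) (S : Finset ℕ), 1000 ≤ N → 240 ≤ e → 1 ≤ K →
    (L ≤ 2 * N → Vb ρ β h L ⌊θ * L⌋₊ ≤ K) →
    (L ≤ 2 * N → ∀ t : ℕ, t ≤ L →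
      ∫ η, (1 - ∑ y ∈ bal v t (K * Real.sqrt L), Qt β h L t y η) ∂(law 2 ρ) ≤ 1 / 8) →
    (∀ k : ℕ, k ≤ 2 * N → Fn ρ β h k ≤ e / 1280) → (N : ℝ) / 200 ≤ S.card →
    (∀ t ∈ S, t ≤ L ∧ (N : ℝ) / 1000 ≤ t ∧ t ≤ N ∧ (N : ℝ) / 1000 ≤ (L - t : ℕ) ∧ L - t ≤ N ∧
      e / 20 ≤ En ρ β h t + En ρ β h (L - t) - En ρ β h L) →
    ∃ m : ℕ, 1 ≤ m ∧ m ≤ N ∧ c₂ / K ^ 3 ≤ (law 2 ρ).real {η | A ρ β h m + e / 80 < X β h η m}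

/-- Leaf B2 (from `SeqP`, `AmpP`, `SaW`, `VaW`, `LkB`): the nonrandom fluctuation from the bulk
variance. -/
def BeB : Prop := ∀ c₀ θ : ℝ, 0 < c₀ → 0 < θ → θ ≤ c₀ / 4 → θ ≤ 1 / 4000 →
  ∃ C : ℝ, 1 ≤ C ∧ ∀ (h v : Vec 2) (g Q c R : ℝ), Loc1 ρ β h c₀ → 1 ≤ Q → 0 < c →
    Pb ρ β h v g θ Q c R → ∀ n k : ℕ, k ≤ n → 1 ≤ En ρ β h k → ∃ (N : ℕ) (e : ℝ), 1 ≤ N ∧ 0 < e ∧
      En ρ β h k ≤ 2 * e ∧ (N : ℝ) ≤ 4 * n * e ^ 2 ∧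
      e ≤ C * (1 + |R|) * kap Q c (4 * N) ^ C * (1 + Real.log N) ^ C

/-- Leaf B4 (from `BeB`, `NuW`, `VaW`, `LocE`): the variance at a good point. -/
def PbP : Prop := ∀ g : ℝ, 0 < g → ∃ θ C : ℝ, 0 < θ ∧ θ ≤ 1 / 4000 ∧ 1 ≤ C ∧
  ∀ (h v : Vec 2) (Q c R : ℝ), 1 ≤ Q → 0 < c → c ≤ 1 → Pb ρ β h v g θ Q c R →
    ∃ Q' : ℝ, 1 ≤ Q' ∧ Pw ρ β h v g Q' (C * c) R

/-- Leaf G1 (from `LkB`, `VbV`): luck at a good point. -/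
def LkG : Prop := ∃ c₂ : ℝ, 0 < c₂ ∧ c₂ ≤ 1 / 2 ∧
  ∀ (h v : Vec 2) (g Q c R : ℝ), 1 ≤ Q → 0 < c → c ≤ 1 → Pw ρ β h v g Q c R →
    ∀ (N L : ℕ) (e : ℝ) (S : Finset ℕ), 1000 ≤ N → 240 ≤ e →
      (∀ t : ℕ, t ≤ N → En ρ β h t ≤ 2 * e) → (∃ t : ℕ, t ≤ N ∧ e ≤ En ρ β h t) →
      (∀ k : ℕ, k ≤ 2 * N → Fn ρ β h k ≤ e / 1280) → (N : ℝ) / 200 ≤ S.card →
      (∀ t ∈ S, t ≤ L ∧ (N : ℝ) / 1000 ≤ t ∧ t ≤ N ∧ (N : ℝ) / 1000 ≤ (L - t : ℕ) ∧ L - t ≤ N ∧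
        e / 20 ≤ En ρ β h t + En ρ β h (L - t) - En ρ β h L) →
      ∃ m : ℕ, 1 ≤ m ∧ m ≤ N ∧ c₂ / (kap Q c (2 * N) * (kap Q c (2 * N) ^ 2 + e)) ≤
        (law 2 ρ).real {η | A ρ β h m + e / 80 < X β h η m}

/-- Leaf G2: doubling of the fluctuation (`step15` with `Pw`, `LkG`). -/
def StepG : Prop := ∀ g : ℝ, 0 < g → ∃ Ca Cb : ℝ, 1 ≤ Ca ∧ 1 ≤ Cb ∧
  ∀ (h v : Vec 2) (Q c R : ℝ), 1 ≤ Q → 0 < c → c ≤ 1 → Pw ρ β h v g Q c R →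
    ∃ Cs : ℝ, ∀ (n k : ℕ) (Ψ : ℝ), 1 ≤ n → k ≤ n → Cs ≤ Ψ →
      (En ρ β h k = Ψ ∨ Fn ρ β h k = Ψ) → ∃ (T j : ℕ), n ≤ T ∧ j ≤ T ∧
        (2 * Ψ ≤ En ρ β h j ∨ 2 * Ψ ≤ Fn ρ β h j) ∧
        ∀ Φ : ℝ, (∀ i : ℕ, i ≤ T → En ρ β h i ≤ Φ ∧ Fn ρ β h i ≤ Φ) →
          (T : ℝ) ≤ Ca * n * (kap Q c (128 * T) * Φ) ^ Cb

/-- Leaf G3: the upper bound of the nonrandom fluctuation (`beta48` with `Pw`, `LkG`). -/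
def BetaG : Prop := ∀ (h v : Vec 2) (g Q c R : ℝ), 1 ≤ Q → 0 < c → c ≤ 1 →
  Pw ρ β h v g Q c R → ∃ n₀ : ℕ, ∀ n k : ℕ, n₀ ≤ n → k ≤ n →
    En ρ β h k ≤ Real.exp (5 * c * Real.sqrt (Real.log n))

/-- Leaf G4: there is no good point (`point15` with `Pw`). -/
def PointG : Prop := ∀ g : ℝ, 0 < g → ∃ c : ℝ, 0 < c ∧ c ≤ 1 ∧ ∀ (h v : Vec 2) (Q R : ℝ), 1 ≤ Q →
  ¬ Pw ρ β h v g Q c R

/-- The theorem (`d = 2`). -/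
def MainW : Prop := ∀ᵐ v : Vec 2, ∀ h : Vec 2, VSD ρ β h → ∃ c : ℝ, 0 < c ∧ ∃ᶠ n : ℕ in atTop,
  ∃ r : ℝ, 0 < r ∧ (n : ℝ) ^ 2 * Real.exp (c * Real.sqrt (Real.log n)) <
    r ^ 4 * ∫ η, (1 - PolT β h η (tube 2 n v r)) ∂(law 2 ρ)

end Two

/-- Leaf B3: numbers. -/
def NuW : Prop := ∀ C : ℝ, 1 ≤ C → ∃ C' : ℝ, 1 ≤ C' ∧ ∀ c Q R : ℝ, 0 < c → c ≤ 1 → 1 ≤ Q →
  1 ≤ R → ∃ Q' : ℝ, 1 ≤ Q' ∧ ∀ (n N : ℕ) (e : ℝ), 1 ≤ n → 1 ≤ N → 0 < e →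
    (N : ℝ) ≤ 4 * n * e ^ 2 → e ≤ R * kap Q c (4 * N) ^ C * (1 + Real.log N) ^ C →
      2 * e ≤ Q' * Real.exp (C' * c * Real.sqrt (Real.log n))

end Pool.Agent.W_7d29a1_SW
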