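import Pool.Agent.W_7d29a1_SW.LcW98

/-!
The data of a good point from the negation of Theorem W0, for a general bound.
-/

namespace Pool.Agent.W_7d29a1_SW

open MeasureTheory ProbabilityTheory Filter Topology Pool.Agent.W_MP_7d29a1_pr
  Pool.Agent.W_7d29a1_h46 Pool.Agent.W_7d29a1_h46u Pool.Agent.W_7d29a1_D2.B35
  Pool.Agent.W_7d29a1_Q29 Pool.Agent.W_7d29a1_R34 Pool.Agent.W_7d29a1_SP Pool.Agent.W_7d29a1_SD
  Pool.Agent.W_7d29a1_V Pool.Agent.W_7d29a1_VT

/-- The data of a good point, with the bound `K`. -/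
structure PwD98 {d : ℕ} (ρ : Measure ℝ) (β : ℝ) (h v : Vec d) (K : ℕ → ℝ) (R : ℝ) : Prop where
  loc : ∀ n t : ℕ, t ≤ n →
    ∫ η, (1 - ∑ y ∈ bal v t (K n * Real.sqrt n), Qt β h n t y η) ∂(law d ρ) ≤ 1 / 8
  var : ∀ t : ℕ, Va ρ β h t ≤ K t
  rate : ∀ n : ℕ, En ρ β h n ≤ R * (n : ℝ) ^ (49 / 100 : ℝ)

open W098 in
/-- The data of a good point at every tilt where Theorem W0 fails. -/
theorem dat98 {d : ℕ} {ρ : Measure ℝ} [IsProbabilityMeasure ρ] (hd : 0 < d) (hρ : EM ρ) {β : ℝ}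
    (h v : Vec d) (f : ℕ → ℝ) (hf1 : ∀ n : ℕ, 1 ≤ f n)
    (hf2 : ∀ᶠ n : ℕ in atTop, Real.sqrt n * f n ≤ (n : ℝ) ^ (9 / 10 : ℝ))
    (hcon : ∀ ε : ℝ, 0 < ε → ∀ᶠ n : ℕ in atTop, Va ρ β h n ≤ f n ∧
      ∫ η, (1 - PolT β h η (tube d n v (Real.sqrt n * f n))) ∂(law d ρ) < ε) :
    ∃ Q R : ℝ, 1 ≤ Q ∧ PwD98 ρ β h v (fun n => Q * f n) R := by
  classical
  have hev : ∀ ε : ℝ, 0 < ε → ∃ N : ℕ, ∀ n : ℕ, N ≤ n → Va ρ β h n ≤ f n ∧
      ∫ η, (1 - PolT β h η (tube d n v (Real.sqrt n * f n))) ∂(law d ρ) < ε := fun ε hε =>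
    eventually_atTop.1 (hcon ε hε)
  have hnn : ∀ (n : ℕ) (r : ℝ) (η : Env d), 0 ≤ 1 - PolT β h η (tube d n v r) := fun n r η => by
    have := PolT_le_one β h η (tube d n v r)
    linarith
  have hint : ∀ (n : ℕ) (S : Set (Fin n → Step d)),
      Integrable (fun η : Env d => 1 - PolT β h η S) (law d ρ) := fun n S =>
    (integrable_const 1).sub (integrable_PolT72 β h _)
  -- the tube property
  have hT : TbP ρ β h v (9 / 10) := by
    intro δ hδ
    obtain ⟨N, hN⟩ := hev (δ / 2) (by linarith)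
    obtain ⟨N', hN'⟩ := eventually_atTop.1 hf2
    refine ⟨N + N', fun n hn => ?_⟩
    obtain ⟨r, hr⟩ : ∃ r : ℝ, r = Real.sqrt n * f n := ⟨_, rfl⟩
    have h1 := (hN n (by omega)).2
    have h2 := hN' n (by omega)
    rw [← hr] at h1 h2
    have hmk := mul_meas_ge_le_integral_of_nonneg (μ := law d ρ)
      (f := fun η : Env d => 1 - PolT β h η (tube d n v r))
      (Filter.Eventually.of_forall (hnn n r)) (hint n _) (1 / 2)
    have hsub : (law d ρ).real {η | PolT β h η (tube d n v ((n : ℝ) ^ (9 / 10 : ℝ))) < 1 / 2} ≤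
        (law d ρ).real {η | 1 / 2 ≤ 1 - PolT β h η (tube d n v r)} := by
      refine measureReal_mono fun η hη => ?_
      have hη' : PolT β h η (tube d n v ((n : ℝ) ^ (9 / 10 : ℝ))) < 1 / 2 := hη
      have h3 := PolT_mono β h η (show tube d n v r ⊆ tube d n v ((n : ℝ) ^ (9 / 10 : ℝ)) from
        fun s hs i hi => (hs i hi).trans h2)
      show 1 / 2 ≤ 1 - PolT β h η (tube d n v r)
      linarith
    linarith
  obtain ⟨R, -, hR⟩ := RtW74.rate_tb hd hρ hT
  obtain ⟨N, hN⟩ := hev (1 / 8) (by norm_num)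
  obtain ⟨S, hS⟩ : ∃ S : ℝ, S = ∑ n ∈ Finset.range N, |Va ρ β h n| := ⟨_, rfl⟩
  have hS0 : 0 ≤ S := by
    rw [hS]
    exact Finset.sum_nonneg fun n _ => abs_nonneg _
  have hv0 := norm_nonneg v
  obtain ⟨Q, hQ⟩ : ∃ Q : ℝ, Q = 1 + S + (1 + ‖v‖) * (N + 1) := ⟨_, rfl⟩
  have hvN : 0 ≤ (1 + ‖v‖) * ((N : ℝ) + 1) := by positivity
  have hQ1 : 1 ≤ Q := by
    rw [hQ]
    linarith
  have hkQ : ∀ n : ℕ, Q ≤ Q * f n := fun n => le_mul_of_one_le_right (by linarith) (hf1 n)
  have hke : ∀ n : ℕ, f n ≤ Q * f n := fun n =>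
    le_mul_of_one_le_left (by linarith [hf1 n]) hQ1
  refine ⟨Q, R, hQ1, ⟨?_, ?_, ?_⟩⟩
  · intro n t ht
    rcases lt_or_ge n N with hn | hn
    · have h1 : (1 + ‖v‖) * (t : ℝ) ≤ Q * f n * Real.sqrt n := by
        have e1 : (t : ℝ) ≤ n := by exact_mod_cast ht
        have e2 : (n : ℝ) ≤ N := by exact_mod_cast hn.le
        have e3 : Real.sqrt n * Real.sqrt n = n := Real.mul_self_sqrt (Nat.cast_nonneg n)
        have e4 : Real.sqrt n ≤ N + 1 := by
          rw [Real.sqrt_le_left (by positivity)]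
          nlinarith [Nat.cast_nonneg (α := ℝ) n, Nat.cast_nonneg (α := ℝ) N]
        have e5 : (1 + ‖v‖) * ((N : ℝ) + 1) ≤ Q * f n := by
          refine le_trans ?_ (hkQ n)
          rw [hQ]
          linarith
        calc (1 + ‖v‖) * (t : ℝ) ≤ (1 + ‖v‖) * n :=
              mul_le_mul_of_nonneg_left e1 (by positivity)
          _ = ((1 + ‖v‖) * Real.sqrt n) * Real.sqrt n := by rw [mul_assoc, e3]
          _ ≤ ((1 + ‖v‖) * ((N : ℝ) + 1)) * Real.sqrt n :=
              mul_le_mul_of_nonneg_right (mul_le_mul_of_nonneg_left e4 (by positivity))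
                (Real.sqrt_nonneg _)
          _ ≤ Q * f n * Real.sqrt n := mul_le_mul_of_nonneg_right e5 (Real.sqrt_nonneg _)
      have h2 : (fun η : Env d => 1 - ∑ y ∈ bal v t (Q * f n * Real.sqrt n),
          Qt β h n t y η) = fun _ => 0 := by
        funext η
        exact bal_all98 hd ht β h v h1 η
      rw [h2, integral_zero]
      norm_num
    · have h1 := (hN n hn).2
      refine le_trans ?_ h1.le
      have hle : Real.sqrt n * f n ≤ Q * f n * Real.sqrt n := by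
        rw [mul_comm (Real.sqrt (n : ℝ))]
        exact mul_le_mul_of_nonneg_right (hke n) (Real.sqrt_nonneg _)
      refine integral_mono ?_ (hint n _) fun η => bal_tube98 ht β h v hle η
      have h3 : (fun η : Env d => 1 - ∑ y ∈ bal v t (Q * f n * Real.sqrt n),
          Qt β h n t y η) = fun η => 1 - PolT β h η {s : Fin n → Step d |
            pos s t ∈ bal v t (Q * f n * Real.sqrt n)} := by
        funext η
        rw [sum_Qt ht]
      rw [h3]
      exact hint _ _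
  · intro t
    rcases lt_or_ge t N with hn | hn
    · have h1 : |Va ρ β h t| ≤ S := by
        rw [hS]
        exact Finset.single_le_sum (f := fun n => |Va ρ β h n|) (fun n _ => abs_nonneg _)
          (Finset.mem_range.2 hn)
      have h2 := le_abs_self (Va ρ β h t)
      have h3 := hkQ t
      show Va ρ β h t ≤ Q * f t
      have h4 : S ≤ Q := by
        rw [hQ]
        linarith
      linarith
    · exact (hN t hn).1.trans (hke t)
  · intro n
    unfold En
    exact hR n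

end Pool.Agent.W_7d29a1_SW
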