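import Pool.Agent.W_7d29a1_SW.DefsW
import Pool.Agent.W_7d29a1_SD.MainS70
import Pool.Agent.W_7d29a1_Q29.Qf39

/-!
Theorem W, leaf C6 (helper80): the theorem from its leaves. The velocities with a tilt and with the
bound of the constant `1 / (i + 1)` from the time `N` form countably many sets; a density point of
such a set has partners in the set in every small annulus, and the inverse gradient is Lipschitz
there. So a velocity at which the theorem fails for every constant is a good point, and there is no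
good point.
-/

set_option autoImplicit false

namespace Pool.Agent.W_7d29a1_SW

open MeasureTheory ProbabilityTheory Filter Topology Pool.Agent.W_MP_7d29a1_pr
  Pool.Agent.W_7d29a1_h46 Pool.Agent.W_7d29a1_h46u Pool.Agent.W_7d29a1_D2.B35
  Pool.Agent.W_7d29a1_Q29 Pool.Agent.W_7d29a1_R34 Pool.Agent.W_7d29a1_SP Pool.Agent.W_7d29a1_SD

lemma kap_mono80 {Q Q' c c' : ℝ} (hQ : 0 ≤ Q) (hQQ : Q ≤ Q') (hcc : c ≤ c') (t : ℕ) :
    kap Q c t ≤ kap Q' c' t := by
  unfold kap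
  exact mul_le_mul hQQ (Real.exp_le_exp.2 (mul_le_mul_of_nonneg_right hcc (Real.sqrt_nonneg _)))
    (Real.exp_pos _).le (hQ.trans hQQ)

lemma bal_mono80 {d : ℕ} (v : Vec d) (t : ℕ) {w w' : ℝ} (hw : w ≤ w') :
    bal v t w ⊆ bal v t w' := by
  classical
  intro y hy
  unfold bal at hy ⊢
  rw [Finset.mem_filter] at hy ⊢
  exact ⟨hy.1, hy.2.trans hw⟩

/-- A larger window has less mass outside. -/
lemma loc_mono80 {ρ : Measure ℝ} [IsProbabilityMeasure ρ] {d : ℕ} (β : ℝ) (h v : Vec d)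
    {n t : ℕ} (ht : t ≤ n) {w w' : ℝ} (hw : w ≤ w') :
    ∫ η, (1 - ∑ y ∈ bal v t w', Qt β h n t y η) ∂(law d ρ) ≤
      ∫ η, (1 - ∑ y ∈ bal v t w, Qt β h n t y η) ∂(law d ρ) := by
  have i1 : ∀ y : Site d, Integrable (Qt β h n t y) (law d ρ) := fun y =>
    (integrable_const (1 : ℝ)).mono' (measurable_Qt39 β h n t y).aestronglyMeasurable
      (Eventually.of_forall fun η => by
        rw [Real.norm_eq_abs, abs_of_nonneg (Qt_nonneg39 β h n t y η)]
        exact Qt_le_one39 β h ht y η)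
  have i2 : ∀ R : Finset (Site d), Integrable (fun η => 1 - ∑ y ∈ R, Qt β h n t y η)
      (law d ρ) := fun R =>
    (integrable_const (1 : ℝ)).sub (integrable_finsetSum R fun y _ => i1 y)
  refine integral_mono (i2 _) (i2 _) fun η => ?_
  have h1 := Finset.sum_le_sum_of_subset_of_nonneg (bal_mono80 v t hw)
    (f := fun y => Qt β h n t y η) fun y _ _ => Qt_nonneg39 β h n t y η
  show 1 - ∑ y ∈ bal v t w', Qt β h n t y η ≤ 1 - ∑ y ∈ bal v t w, Qt β h n t y η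
  linarith

/-- The logarithm is absorbed. -/
lemma num80 {C c : ℝ} (hC : 0 ≤ C) (hc : 0 < c) (n : ℕ) :
    C * Real.exp (c * Real.sqrt (Real.log n)) * (1 + Real.log n) ≤
      kap (C * (1 + 2 / c ^ 2)) (2 * c) n := by
  have hl : 0 ≤ Real.log (n : ℝ) := Real.log_natCast_nonneg n
  obtain ⟨y, hy⟩ : ∃ y : ℝ, y = Real.sqrt (Real.log n) := ⟨_, rfl⟩
  have hy0 : 0 ≤ y := by
    rw [hy]
    exact Real.sqrt_nonneg _
  have hyy : Real.log (n : ℝ) = y ^ 2 := by
    rw [hy, Real.sq_sqrt hl]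
  have h1 : (c * y) ^ 2 / 2 ≤ Real.exp (c * y) := by
    have h2 := Real.quadratic_le_exp_of_nonneg (mul_nonneg hc.le hy0)
    nlinarith [mul_nonneg hc.le hy0]
  have h2 : 1 ≤ Real.exp (c * y) := Real.one_le_exp (mul_nonneg hc.le hy0)
  have h3 : y ^ 2 ≤ 2 / c ^ 2 * Real.exp (c * y) := by
    have h4 : y ^ 2 = 2 / c ^ 2 * ((c * y) ^ 2 / 2) := by
      field_simp
    rw [h4]
    exact mul_le_mul_of_nonneg_left h1 (by positivity)
  have h5 : 1 + y ^ 2 ≤ (1 + 2 / c ^ 2) * Real.exp (c * y) := by linarith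
  unfold kap
  rw [← hy, hyy]
  have e1 : Real.exp (2 * c * y) = Real.exp (c * y) * Real.exp (c * y) := by
    rw [← Real.exp_add]
    congr 1
    ring
  rw [e1]
  calc C * Real.exp (c * y) * (1 + y ^ 2) ≤
      C * Real.exp (c * y) * ((1 + 2 / c ^ 2) * Real.exp (c * y)) :=
        mul_le_mul_of_nonneg_left h5 (by positivity)
    _ = _ := by ring

/-- The velocities with a tilt and with the bound of the constant `1 / (i + 1)` from the time
`N`. -/
def D80 (ρ : Measure ℝ) (β : ℝ) (i N : ℕ) : Set (Vec 2) :=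
  {v | ∃ h : Vec 2, HW ρ β h v (1 / ((i : ℝ) + 1)) N}

variable {ρ : Measure ℝ} [IsProbabilityMeasure ρ] {β : ℝ}

/-- **Leaf C6.** -/
theorem mainW80 (hρ : EM ρ) (hSl : SlW 2 ρ β) (hRs : RsW 2 ρ β) (hBk : BkW 2 ρ β)
    (hRt : RtW 2 ρ β) (hLc : LcW 2 ρ β) (hP : PbP ρ β) (hPt : PointG ρ β) : MainW ρ β := by
  classical
  have hd : 0 < 2 := by norm_num
  have hann : ∀ᵐ v : Vec 2, ∀ i N : ℕ, v ∈ D80 ρ β i N → Sel70.Ann (D80 ρ β i N) v :=
    ae_all_iff.2 fun i => ae_all_iff.2 fun N => Sel70.ae_ann hd (D80 ρ β i N)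
  filter_upwards [hann, Sel70.ae_lip (lam_convex hd hρ β)] with v hv1 hv2 h hV
  -- the gap
  obtain ⟨g, hg⟩ : ∃ g : ℝ, g = Real.log (Phi h) + Real.log (∫ t, Real.exp (β * t) ∂ρ) -
    lam ρ β h := ⟨_, rfl⟩
  have hg0 : 0 < g := by
    unfold VSD at hV
    linarith
  obtain ⟨θ, C, hθ0, hθ1, hC1, hPb⟩ := hP g hg0
  obtain ⟨cg, hcg0, hcg1, hno⟩ := hPt g hg0
  have hC0 : 0 < C := by linarith
  -- the constant
  obtain ⟨i, hi⟩ : ∃ i : ℕ, 1 / ((i : ℝ) + 1) < cg / (2 * C) :=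
    exists_nat_one_div_lt (by positivity)
  obtain ⟨c, hc⟩ : ∃ c : ℝ, c = 1 / ((i : ℝ) + 1) := ⟨_, rfl⟩
  have hc0 : 0 < c := by
    rw [hc]
    positivity
  have hcC : C * (2 * c) ≤ cg := by
    rw [← hc, lt_div_iff₀ (by positivity)] at hi
    linarith
  have h2c : 2 * c ≤ 1 := by nlinarith
  refine ⟨c, hc0, ?_⟩
  by_contra hneg
  rw [not_frequently] at hneg
  obtain ⟨N, hN⟩ := eventually_atTop.1 hneg
  have hHW : HW ρ β h v c N := by
    intro n hn r hr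
    by_contra hlt
    exact hN n hn ⟨r, hr, not_le.1 hlt⟩
  have hsl := hSl h v c N hHW
  have hvD : v ∈ D80 ρ β i N := by
    refine ⟨h, ?_⟩
    rw [← hc]
    exact hHW
  obtain ⟨r₀, hr₀, hA⟩ := hv1 i N hvD
  obtain ⟨K, δ, hK, hδ, hLip⟩ := hv2 h hsl
  -- the resampling bound and the bulk variance
  obtain ⟨C₁, κ, n₁, hC₁, hκ, hRS⟩ := hRs h v c θ K (min r₀ δ) N hθ0 (by linarith) hK
    (lt_min hr₀ hδ) hHW fun s hs0 hs1 => by
      obtain ⟨y, hy, hy1, hy2⟩ := hA s hs0 (hs1.trans (min_le_left _ _))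
      obtain ⟨h', hh'⟩ := hy
      rw [← hc] at hh'
      exact ⟨y, h', hy1, hy2, hLip h' y (hSl h' y c N hh')
        (hy2.trans (hs1.trans (min_le_right _ _))), hh'⟩
  obtain ⟨C₂, hC₂, hVb⟩ := hBk h c θ C₁ κ n₁ hc0 hC₁ hκ hRS
  obtain ⟨R, hR⟩ := hRt h v c N hHW
  obtain ⟨Q₀, hQ₀, hloc⟩ := hLc h v c N hc0 hHW
  -- the good point
  have hq0 : 0 ≤ C₂ * (1 + 2 / c ^ 2) := by positivity
  obtain ⟨Q, hQ⟩ : ∃ Q : ℝ, Q = Q₀ + C₂ * (1 + 2 / c ^ 2) := ⟨_, rfl⟩
  have hpb : Pb ρ β h v g θ Q (2 * c) R := by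
    refine ⟨by linarith, fun n t ht => ?_, fun n => ?_, hR⟩
    · refine (loc_mono80 β h v ht (mul_le_mul_of_nonneg_right
        (kap_mono80 (by linarith) (by linarith) (by linarith) n) (Real.sqrt_nonneg _))).trans
        (hloc n t ht)
    · exact ((hVb n).trans (num80 hC₂ hc0 n)).trans
        (kap_mono80 hq0 (by linarith) le_rfl n)
  obtain ⟨Q', hQ', hpw⟩ := hPb h v Q (2 * c) R (by linarith) (by linarith) h2c hpb
  refine hno h v Q' R hQ' ⟨hpw.gap, fun n t ht => ?_, fun t => ?_, hpw.rate⟩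
  · exact (loc_mono80 β h v ht (mul_le_mul_of_nonneg_right
      (kap_mono80 (by linarith) le_rfl hcC n) (Real.sqrt_nonneg _))).trans (hpw.loc n t ht)
  · exact (hpw.var t).trans (kap_mono80 (by linarith) le_rfl hcC t)

end Pool.Agent.W_7d29a1_SW
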