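import Pool.Agent.W_7d29a1_SW.RtW74
import Pool.Agent.W_7d29a1_Q29.Brid72
import Pool.Agent.W_7d29a1_Q29.Qf39

/-!
Theorem W0: in two transversal dimensions, at every tilt and around every direction, the variance of
the free energy or the displacement of the polymer beats every power of the logarithm.
-/

namespace Pool.Agent.W_7d29a1_SW

open MeasureTheory ProbabilityTheory Filter Topology Pool.Agent.W_MP_7d29a1_pr
  Pool.Agent.W_7d29a1_h46 Pool.Agent.W_7d29a1_h46u Pool.Agent.W_7d29a1_D2.B35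
  Pool.Agent.W_7d29a1_Q29 Pool.Agent.W_7d29a1_R34 Pool.Agent.W_7d29a1_SP Pool.Agent.W_7d29a1_SD
  Pool.Agent.W_7d29a1_V Pool.Agent.W_7d29a1_VT

/-- Theorem W0 (`d = 2`): at every tilt of very strong disorder and around every direction, the
variance is at least `exp (c √(log n))` or the polymer leaves the tube of radius
`√n exp (c √(log n))`, infinitely often. -/
def MainW0 (ρ : Measure ℝ) (β : ℝ) : Prop := ∀ h : Vec 2, VSD ρ β h → ∃ c : ℝ, 0 < c ∧
  ∀ v : Vec 2, ∃ ε : ℝ, 0 < ε ∧ ∃ᶠ n : ℕ in atTop,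
    Real.exp (c * Real.sqrt (Real.log n)) ≤ Va ρ β h n ∨
    ε ≤ ∫ η, (1 - PolT β h η (tube 2 n v (Real.sqrt n * Real.exp (c * Real.sqrt (Real.log n)))))
      ∂(law 2 ρ)

namespace W098

variable {d : ℕ} {ρ : Measure ℝ} [IsProbabilityMeasure ρ]

/-- The position at time `t` has norm at most `t`. -/
lemma norm_pos98 {n : ℕ} (s : Fin n → Step d) (t : ℕ) : ‖emb (pos s t)‖ ≤ t := by
  rw [norm_emb]
  exact nrm_pos_le39 s t

/-- The bridge from the tube to the ball at one time. -/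
lemma bal_tube98 {n t : ℕ} (ht : t ≤ n) (β : ℝ) (h v : Vec d) {w r : ℝ} (hr : r ≤ w)
    (η : Env d) : 1 - ∑ y ∈ bal v t w, Qt β h n t y η ≤ 1 - PolT β h η (tube d n v r) := by
  rw [sum_Qt ht]
  have h1 := PolT_mono β h η (show tube d n v r ⊆ {s : Fin n → Step d | pos s t ∈ bal v t w} from
    fun s hs => by
      show pos s t ∈ bal v t w
      unfold bal
      rw [Finset.mem_filter]
      exact ⟨pos_mem_boxF39 s le_rfl, (hs t ht).trans hr⟩)
  linarith

/-- The whole mass is in a ball of radius `(1 + ‖v‖) t`. -/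
lemma bal_all98 (hd : 0 < d) {n t : ℕ} (ht : t ≤ n) (β : ℝ) (h v : Vec d) {w : ℝ}
    (hw : (1 + ‖v‖) * t ≤ w) (η : Env d) : 1 - ∑ y ∈ bal v t w, Qt β h n t y η = 0 := by
  have h1 : ∑ y ∈ bal v t w, Qt β h n t y η = 1 := by
    refine Qt_sum39 hd β h ht η fun s => ?_
    unfold bal
    rw [Finset.mem_filter]
    refine ⟨pos_mem_boxF39 s le_rfl, ?_⟩
    have h2 : ‖(t : ℝ) • v‖ = t * ‖v‖ := by
      rw [norm_smul, Real.norm_eq_abs, abs_of_nonneg (Nat.cast_nonneg t)]
    have h3 := norm_sub_le (emb (pos s t)) ((t : ℝ) • v)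
    have h4 := norm_pos98 s t
    rw [h2] at h3
    linarith
  rw [h1, sub_self]

/-- `√n exp (c √(log n)) ≤ n ^ (9 / 10)` for all large `n`. -/
lemma rad_le98 (c : ℝ) : ∀ᶠ n : ℕ in atTop,
    Real.sqrt n * Real.exp (c * Real.sqrt (Real.log n)) ≤ (n : ℝ) ^ (9 / 10 : ℝ) := by
  filter_upwards [RtW74.exp_le (5 / 2 * c), eventually_ge_atTop 1] with n hn hn1
  have hn0 : (0 : ℝ) < n := by exact_mod_cast hn1
  have h1 : Real.exp (c * Real.sqrt (Real.log n)) ≤ (n : ℝ) ^ (2 / 5 : ℝ) := by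
    have h2 : Real.exp (c * Real.sqrt (Real.log n)) =
        Real.exp (5 / 2 * c * Real.sqrt (Real.log n)) ^ (2 / 5 : ℝ) := by
      rw [← Real.exp_mul]
      congr 1
      ring
    rw [h2]
    exact Real.rpow_le_rpow (Real.exp_pos _).le hn (by norm_num)
  calc Real.sqrt n * Real.exp (c * Real.sqrt (Real.log n))
      ≤ Real.sqrt n * (n : ℝ) ^ (2 / 5 : ℝ) := mul_le_mul_of_nonneg_left h1 (Real.sqrt_nonneg _)
    _ = (n : ℝ) ^ (9 / 10 : ℝ) := by
        rw [Real.sqrt_eq_rpow, ← Real.rpow_add hn0]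
        norm_num

end W098

open W098 in
/-- **THEOREM W0**, from `PointG`. -/
theorem wZero98 {ρ : Measure ℝ} [IsProbabilityMeasure ρ] (hρ : EM ρ) {β : ℝ}
    (hP : PointG ρ β) : MainW0 ρ β := by
  classical
  intro h hh
  obtain ⟨g, hg⟩ : ∃ g : ℝ, g = Real.log (Phi h) + Real.log (∫ t, Real.exp (β * t) ∂ρ) -
    lam ρ β h := ⟨_, rfl⟩
  have hg0 : 0 < g := by
    rw [hg]
    have h1 : lam ρ β h < Real.log (Phi h) + Real.log (∫ t, Real.exp (β * t) ∂ρ) := hh
    linarith
  obtain ⟨c, hc0, hc1, hPt⟩ := hP g hg0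
  refine ⟨c, hc0, fun v => ?_⟩
  by_contra hcon
  push Not at hcon
  -- the negation
  have hev : ∀ ε : ℝ, 0 < ε → ∃ N : ℕ, ∀ n : ℕ, N ≤ n →
      Va ρ β h n < Real.exp (c * Real.sqrt (Real.log n)) ∧
      ∫ η, (1 - PolT β h η (tube 2 n v (Real.sqrt n * Real.exp (c * Real.sqrt (Real.log n)))))
        ∂(law 2 ρ) < ε := by
    intro ε hε
    have h1 := hcon ε hε
    exact eventually_atTop.1 h1
  have hnn : ∀ (n : ℕ) (r : ℝ) (η : Env 2), 0 ≤ 1 - PolT β h η (tube 2 n v r) := fun n r η => by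
    have := PolT_le_one β h η (tube 2 n v r)
    linarith
  have hint : ∀ (n : ℕ) (r : ℝ), Integrable (fun η : Env 2 => 1 - PolT β h η (tube 2 n v r))
      (law 2 ρ) := fun n r => (integrable_const 1).sub (integrable_PolT72 β h _)
  -- the tube property
  have hT : TbP ρ β h v (9 / 10) := by
    intro δ hδ
    obtain ⟨N, hN⟩ := hev (δ / 2) (by linarith)
    obtain ⟨N', hN'⟩ := eventually_atTop.1 (rad_le98 c)
    refine ⟨N + N', fun n hn => ?_⟩
    obtain ⟨r, hr⟩ : ∃ r : ℝ, r = Real.sqrt n * Real.exp (c * Real.sqrt (Real.log n)) := ⟨_, rfl⟩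
    have h1 := (hN n (by omega)).2
    have h2 := hN' n (by omega)
    rw [← hr] at h1 h2
    have hmk := mul_meas_ge_le_integral_of_nonneg (μ := law 2 ρ)
      (f := fun η : Env 2 => 1 - PolT β h η (tube 2 n v r))
      (Filter.Eventually.of_forall (hnn n r)) (hint n r) (1 / 2)
    have hsub : (law 2 ρ).real {η | PolT β h η (tube 2 n v ((n : ℝ) ^ (9 / 10 : ℝ))) < 1 / 2} ≤
        (law 2 ρ).real {η | 1 / 2 ≤ 1 - PolT β h η (tube 2 n v r)} := by
      refine measureReal_mono fun η hη => ?_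
      have hη' : PolT β h η (tube 2 n v ((n : ℝ) ^ (9 / 10 : ℝ))) < 1 / 2 := hη
      have h3 := PolT_mono β h η (show tube 2 n v r ⊆ tube 2 n v ((n : ℝ) ^ (9 / 10 : ℝ)) from
        fun s hs i hi => (hs i hi).trans h2)
      show 1 / 2 ≤ 1 - PolT β h η (tube 2 n v r)
      linarith
    linarith
  obtain ⟨R, -, hR⟩ := RtW74.rate_tb (by norm_num) hρ hT
  obtain ⟨N, hN⟩ := hev (1 / 8) (by norm_num)
  -- the constant
  obtain ⟨S, hS⟩ : ∃ S : ℝ, S = ∑ n ∈ Finset.range N, |Va ρ β h n| := ⟨_, rfl⟩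
  have hS0 : 0 ≤ S := by
    rw [hS]
    exact Finset.sum_nonneg fun n _ => abs_nonneg _
  have hv0 := norm_nonneg v
  obtain ⟨Q, hQ⟩ : ∃ Q : ℝ, Q = 1 + S + (1 + ‖v‖) * (N + 1) := ⟨_, rfl⟩
  have hvN : 0 ≤ (1 + ‖v‖) * ((N : ℝ) + 1) := by positivity
  have hQ1 : 1 ≤ Q := by
    rw [hQ]
    linarith
  have hexp1 : ∀ n : ℕ, 1 ≤ Real.exp (c * Real.sqrt (Real.log n)) := fun n =>
    Real.one_le_exp (mul_nonneg hc0.le (Real.sqrt_nonneg _))
  have hkQ : ∀ n : ℕ, Q ≤ kap Q c n := fun n => by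
    unfold kap
    exact le_mul_of_one_le_right (by linarith) (hexp1 n)
  have hke : ∀ n : ℕ, Real.exp (c * Real.sqrt (Real.log n)) ≤ kap Q c n := fun n => by
    unfold kap
    exact le_mul_of_one_le_left (Real.exp_pos _).le hQ1
  refine hPt h v Q R hQ1 ⟨?_, ?_, ?_, ?_⟩
  · rw [hg]
    linarith
  · intro n t ht
    rcases lt_or_ge n N with hn | hn
    · have h1 : (1 + ‖v‖) * (t : ℝ) ≤ kap Q c n * Real.sqrt n := by
        have e1 : (t : ℝ) ≤ n := by exact_mod_cast ht
        have e2 : (n : ℝ) ≤ N := by exact_mod_cast hn.le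
        have e3 : Real.sqrt n * Real.sqrt n = n := Real.mul_self_sqrt (Nat.cast_nonneg n)
        have e4 : Real.sqrt n ≤ N + 1 := by
          rw [Real.sqrt_le_left (by positivity)]
          nlinarith [Nat.cast_nonneg (α := ℝ) n, Nat.cast_nonneg (α := ℝ) N]
        have e5 : (1 + ‖v‖) * ((N : ℝ) + 1) ≤ kap Q c n := by
          refine le_trans ?_ (hkQ n)
          rw [hQ]
          linarith
        calc (1 + ‖v‖) * (t : ℝ) ≤ (1 + ‖v‖) * n :=
              mul_le_mul_of_nonneg_left e1 (by positivity)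
          _ = ((1 + ‖v‖) * Real.sqrt n) * Real.sqrt n := by rw [mul_assoc, e3]
          _ ≤ ((1 + ‖v‖) * ((N : ℝ) + 1)) * Real.sqrt n :=
              mul_le_mul_of_nonneg_right (mul_le_mul_of_nonneg_left e4 (by positivity))
                (Real.sqrt_nonneg _)
          _ ≤ kap Q c n * Real.sqrt n := mul_le_mul_of_nonneg_right e5 (Real.sqrt_nonneg _)
      have h2 : (fun η : Env 2 => 1 - ∑ y ∈ bal v t (kap Q c n * Real.sqrt n),
          Qt β h n t y η) = fun _ => 0 := by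
        funext η
        exact bal_all98 (by norm_num) ht β h v h1 η
      rw [h2, integral_zero]
      norm_num
    · have h1 := (hN n hn).2
      refine le_trans ?_ h1.le
      have hle : Real.sqrt n * Real.exp (c * Real.sqrt (Real.log n)) ≤
          kap Q c n * Real.sqrt n := by
        rw [mul_comm (Real.sqrt (n : ℝ))]
        exact mul_le_mul_of_nonneg_right (hke n) (Real.sqrt_nonneg _)
      refine integral_mono ?_ (hint n _) fun η => bal_tube98 ht β h v hle η
      have h3 : (fun η : Env 2 => 1 - ∑ y ∈ bal v t (kap Q c n * Real.sqrt n),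
          Qt β h n t y η) = fun η => 1 - PolT β h η {s : Fin n → Step 2 |
            pos s t ∈ bal v t (kap Q c n * Real.sqrt n)} := by
        funext η
        rw [sum_Qt ht]
      rw [h3]
      exact (integrable_const 1).sub (integrable_PolT72 β h _)
  · intro t
    rcases lt_or_ge t N with hn | hn
    · have h1 : |Va ρ β h t| ≤ S := by
        rw [hS]
        exact Finset.single_le_sum (f := fun n => |Va ρ β h n|) (fun n _ => abs_nonneg _)
          (Finset.mem_range.2 hn)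
      have h2 := le_abs_self (Va ρ β h t)
      have h3 := hkQ t
      rw [hQ] at h3
      rw [hQ]
      linarith
    · exact (hN t hn).1.le.trans (hke t)
  · intro n
    unfold En
    exact hR n

end Pool.Agent.W_7d29a1_SW
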