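import Pool.Agent.W_7d29a1_SW.DefsW
import Pool.Agent.W_7d29a1_Q29.Brid72
import Pool.Agent.W_7d29a1_Q29.Box98
import Pool.Agent.W_7d29a1_Q29.Pt94

/-!
Luck from the bulk variance (helper96): the leaves B1 (`LkB`) and G1 (`LkG`).
-/

namespace Pool.Agent.W_7d29a1_SW

open MeasureTheory ProbabilityTheory Filter Topology Pool.Agent.W_MP_7d29a1_pr
  Pool.Agent.W_7d29a1_h46 Pool.Agent.W_7d29a1_h46u Pool.Agent.W_7d29a1_D2.B35
  Pool.Agent.W_7d29a1_Q29 Pool.Agent.W_7d29a1_R34 Pool.Agent.W_7d29a1_SP Pool.Agent.W_7d29a1_SD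

variable {ρ : Measure ℝ}

/-- The number of the sites of a ball. -/
lemma card_bal96 (v : Vec 2) (t : ℕ) {w : ℝ} (hw : 1 ≤ w) :
    ((bal v t w).card : ℝ) ≤ 9 * w ^ 2 := by
  classical
  have h1 : bal v t w ⊆ ballW ((t : ℝ) • v) w := by
    intro y hy
    exact mem_ballW (Finset.mem_filter.1 hy).2
  have h2 : ((bal v t w).card : ℝ) ≤ ((ballW ((t : ℝ) • v) w).card : ℝ) := by
    exact_mod_cast Finset.card_le_card h1
  have h3 := card_ballW (d := 2) ((t : ℝ) • v) (w := w) (by linarith)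
  have h4 : (2 * w + 1) ^ 2 ≤ (3 * w) ^ 2 := pow_le_pow_left₀ (by positivity) (by linarith) 2
  have h5 : (3 * w) ^ 2 = 9 * w ^ 2 := by ring
  linarith

/-- The last numbers. -/
lemma endB96 {K L N C r x p : ℝ} (hK : 1 ≤ K) (hC : 0 ≤ C) (hN : 0 < N) (hL0 : 0 ≤ L)
    (hL : L ≤ 2 * N) (hr : r ≤ 9 * (K ^ 2 * L)) (hx0 : 0 ≤ x)
    (hx : x ≤ 200 * (C + 1) * K / N) (hp : 0 ≤ p) (h : 1 / 4 ≤ r * x * p) :
    min (1 / 2) (1 / (14400 * (C + 1))) / K ^ 3 ≤ p := by
  have h1 : r * x * p ≤ 3600 * (C + 1) * K ^ 3 * p := by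
    refine mul_le_mul_of_nonneg_right ?_ hp
    calc r * x ≤ 9 * (K ^ 2 * L) * x := mul_le_mul_of_nonneg_right hr hx0
      _ ≤ 9 * (K ^ 2 * (2 * N)) * (200 * (C + 1) * K / N) := by
          refine mul_le_mul ?_ hx hx0 (by positivity)
          have : K ^ 2 * L ≤ K ^ 2 * (2 * N) := mul_le_mul_of_nonneg_left hL (by positivity)
          linarith
      _ = 3600 * (C + 1) * K ^ 3 := by
          field_simp
          ring
  have h2 : 1 / (14400 * (C + 1)) / K ^ 3 ≤ p := by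
    rw [div_le_iff₀ (by positivity), div_le_iff₀ (by positivity)]
    linarith
  exact le_trans (div_le_div_of_nonneg_right (min_le_right _ _) (by positivity)) h2

/-- **B1.** Luck from the bulk variance. -/
theorem lkB96 [IsProbabilityMeasure ρ] {β : ℝ} (hLu : LuD 2 ρ β) (hNP : NpW 2 ρ β) :
    LkB ρ β := by
  intro θ hθ hθ1
  obtain ⟨C, hC, hNP⟩ := hNP
  refine ⟨min (1 / 2) (1 / (14400 * (C + 1))), lt_min (by norm_num) (by positivity),
    min_le_left _ _, ?_⟩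
  intro h v N L e K S hN he hK hVb hloc hF hcard hS
  have hN1000 : (1000 : ℝ) ≤ N := by exact_mod_cast hN
  have hN0 : (0 : ℝ) < N := by linarith
  have hSne : S.Nonempty := by
    rw [Finset.nonempty_iff_ne_empty]
    intro h0
    rw [h0] at hcard
    simp at hcard
    linarith
  have hL : L ≤ 2 * N := by
    obtain ⟨t, ht⟩ := hSne
    obtain ⟨h1, -, h2, -, h3, -⟩ := hS t ht
    have h2' : t ≤ N := by exact_mod_cast h2
    have h3' : L - t ≤ N := by exact_mod_cast h3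
    omega
  have hL' : (L : ℝ) ≤ 2 * N := by exact_mod_cast hL
  have hSL : S ⊆ Finset.Icc (⌊θ * L⌋₊ + 1) L := by
    intro t ht
    obtain ⟨h1, h2, -⟩ := hS t ht
    rw [Finset.mem_Icc]
    refine ⟨?_, h1⟩
    have h3 : (⌊θ * L⌋₊ : ℝ) ≤ θ * L := Nat.floor_le (by positivity)
    have h4 : θ * L ≤ 1 / 4000 * (2 * N) := mul_le_mul hθ1 hL' (by positivity) (by norm_num)
    have h5 : (⌊θ * L⌋₊ : ℝ) < t := by linarith
    have h6 : ⌊θ * L⌋₊ < t := by exact_mod_cast h5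
    omega
  have hSt0 : ∀ t : ℕ, 0 ≤ St ρ β h L t := fun t => by
    unfold St
    exact integral_nonneg fun η => Finset.sum_nonneg fun y _ => sq_nonneg _
  obtain ⟨t, htS, hSt⟩ : ∃ t ∈ S, St ρ β h L t ≤ 200 * (C + 1) * K / N := by
    refine Finset.exists_le_of_sum_le hSne ?_
    have h1 : ∑ t ∈ S, St ρ β h L t ≤ ∑ t ∈ Finset.Icc (⌊θ * L⌋₊ + 1) L, St ρ β h L t :=
      Finset.sum_le_sum_of_subset_of_nonneg hSL fun t _ _ => hSt0 t
    have h2 := hNP h L ⌊θ * L⌋₊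
    have h3 : C * Vb ρ β h L ⌊θ * L⌋₊ ≤ (C + 1) * K := by
      calc C * Vb ρ β h L ⌊θ * L⌋₊ ≤ C * K := mul_le_mul_of_nonneg_left (hVb hL) hC
        _ ≤ (C + 1) * K := mul_le_mul_of_nonneg_right (by linarith) (by linarith)
    have h4 : (C + 1) * K ≤ ∑ _t ∈ S, 200 * (C + 1) * K / N := by
      rw [Finset.sum_const, nsmul_eq_mul]
      calc (C + 1) * K = (N : ℝ) / 200 * (200 * (C + 1) * K / N) := by field_simp
        _ ≤ S.card * (200 * (C + 1) * K / N) := mul_le_mul_of_nonneg_right hcard (by positivity)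
    linarith
  obtain ⟨htL, htN1, htN2, hmN1, hmN2, hgap⟩ := hS t htS
  have htN : t ≤ N := by exact_mod_cast htN2
  have ht1 : 1 ≤ t := le_trans (by omega) (Finset.mem_Icc.1 (hSL htS)).1
  have hm1 : 1 ≤ L - t := by
    have h1 : (1 : ℝ) ≤ (L - t : ℕ) := by linarith
    exact_mod_cast h1
  have hL1 : (1 : ℝ) ≤ L := by
    have : 1 ≤ L := by omega
    exact_mod_cast this
  have hsL : 1 ≤ Real.sqrt L := by
    rw [Real.one_le_sqrt]
    exact hL1
  have hw : 1 ≤ K * Real.sqrt L := by nlinarith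
  have hRc := card_bal96 v t hw
  have hRc2 : 9 * (K * Real.sqrt L) ^ 2 = 9 * (K ^ 2 * L) := by
    rw [mul_pow, Real.sq_sqrt (by linarith)]
  rw [hRc2] at hRc
  have hgap2 : e / 20 ≤ A ρ β h L - A ρ β h t - A ρ β h (L - t) := by
    refine hgap.trans (le_of_eq ?_)
    unfold En
    rw [Nat.cast_sub htL]
    ring
  have hFF : Fn ρ β h L + Fn ρ β h t ≤ e / 20 / 32 := by
    have h1 := hF L hL
    have h2 := hF t (by omega)
    linarith
  have h1 := hLu (e / 20) h L t (bal v t (K * Real.sqrt L)) htL (by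
    classical
    unfold bal
    exact Finset.filter_subset _ _) (hloc hL t htL) (by linarith) hgap2 hFF
  refine ⟨L - t, hm1, by exact_mod_cast hmN2, ?_⟩
  have h2 : A ρ β h (L - t) + e / 20 / 4 = A ρ β h (L - t) + e / 80 := by ring
  rw [h2] at h1
  exact endB96 hK hC hN0 (by positivity) hL' hRc (hSt0 t) hSt measureReal_nonneg h1

lemma kap_monoW96 {Q c : ℝ} (hQ : 0 ≤ Q) (hc : 0 ≤ c) {a b : ℕ} (hab : a ≤ b) :
    kap Q c a ≤ kap Q c b := by
  unfold kap
  refine mul_le_mul_of_nonneg_left ?_ hQ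
  rw [Real.exp_le_exp]
  refine mul_le_mul_of_nonneg_left ?_ hc
  refine Real.sqrt_le_sqrt ?_
  rcases Nat.eq_zero_or_pos a with ha | ha
  · subst ha
    simp only [Nat.cast_zero, Real.log_zero]
    exact Real.log_natCast_nonneg b
  · exact Real.log_le_log (by exact_mod_cast ha) (by exact_mod_cast hab)

/-- The mass outside a ball decreases with the radius. -/
lemma mass_mono96 [IsProbabilityMeasure ρ] (β : ℝ) (h v : Vec 2) {n t : ℕ} (ht : t ≤ n) {w w' : ℝ}
    (hw : w ≤ w') :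
    ∫ η, (1 - ∑ y ∈ bal v t w', Qt β h n t y η) ∂(law 2 ρ) ≤
      ∫ η, (1 - ∑ y ∈ bal v t w, Qt β h n t y η) ∂(law 2 ρ) := by
  classical
  have hi : ∀ S : Finset (Site 2), Integrable (fun η => 1 - ∑ y ∈ S, Qt β h n t y η) (law 2 ρ) :=
    fun S => (integrable_const _).sub (integrable_finsetSum S fun y _ =>
      Integrable.mono' (integrable_const (1 : ℝ))
        (S98.measurable_Qt β h n t y).aestronglyMeasurable
        (Eventually.of_forall fun η => by
          rw [Real.norm_eq_abs]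
          exact S98.Qt_abs (by norm_num) β h ht y η))
  refine integral_mono (hi _) (hi _) fun η => ?_
  have h1 : ∑ y ∈ bal v t w, Qt β h n t y η ≤ ∑ y ∈ bal v t w', Qt β h n t y η := by
    refine Finset.sum_le_sum_of_subset_of_nonneg ?_ fun y _ _ => Qt_nonneg94 β h n t y η
    intro y hy
    unfold bal at hy ⊢
    rw [Finset.mem_filter] at hy ⊢
    exact ⟨hy.1, hy.2.trans hw⟩
  linarith

/-- **G1.** Luck at a good point. -/
theorem lkG96 [IsProbabilityMeasure ρ] {β : ℝ} (hB : LkB ρ β) (hV : VbV 2 ρ β) : LkG ρ β := by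
  obtain ⟨c₂, hc₂, hc₂1, hB⟩ := hB (1 / 4000) (by norm_num) le_rfl
  refine ⟨c₂, hc₂, hc₂1, ?_⟩
  intro h v g Q c R hQ hc hc1 P N L e S hN he _ _ hF hcard hS
  obtain ⟨K, hK⟩ : ∃ K, K = kap Q c (2 * N) := ⟨_, rfl⟩
  have hK1 : 1 ≤ K := by
    rw [hK]
    unfold kap
    have h1 : 1 ≤ Real.exp (c * Real.sqrt (Real.log ((2 * N : ℕ) : ℝ))) :=
      Real.one_le_exp (mul_nonneg hc.le (Real.sqrt_nonneg _))
    nlinarith
  have hkap : ∀ t : ℕ, t ≤ 2 * N → kap Q c t ≤ K := by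
    intro t ht
    rw [hK]
    exact kap_monoW96 (by linarith) hc.le ht
  obtain ⟨m, hm1, hm2, hm3⟩ := hB h v N L e K S hN he hK1
    (fun hL => ((hV h L _).2.trans (P.var L)).trans (hkap L hL))
    (fun hL t ht => (mass_mono96 β h v ht
      (mul_le_mul_of_nonneg_right (hkap L hL) (Real.sqrt_nonneg _))).trans (P.loc L t ht))
    hF hcard hS
  refine ⟨m, hm1, hm2, le_trans ?_ hm3⟩
  rw [← hK]
  refine div_le_div_of_nonneg_left hc₂.le (by positivity) ?_
  have he0 : 0 ≤ K * e := by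
    have : 0 ≤ e := by linarith
    positivity
  nlinarith

end Pool.Agent.W_7d29a1_SW
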