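import Pool.Agent.W_7d29a1_SW.DefsW
import Pool.Agent.W_7d29a1_SP.Cnt79
import Pool.Agent.W_7d29a1_Q29.Npb39
import Pool.Agent.W_7d29a1_h46u.LamU

/-!
Theorem W, leaf A5: the lower side of the fluctuation from the bulk variance (helper48).
-/

namespace Pool.Agent.W_7d29a1_SW

open MeasureTheory ProbabilityTheory Filter Topology Pool.Agent.W_MP_7d29a1_pr
  Pool.Agent.W_7d29a1_h46 Pool.Agent.W_7d29a1_h46u Pool.Agent.W_7d29a1_D2.B35
  Pool.Agent.W_7d29a1_Q29 Pool.Agent.W_7d29a1_R34 Pool.Agent.W_7d29a1_SP Pool.Agent.W_7d29a1_SD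

namespace N48

variable {d : ℕ} {ρ : Measure ℝ}

/-- The square of the mean is at most the mean of the square. -/
lemma sq_int48 {Ω : Type*} [MeasurableSpace Ω] {μ : Measure Ω} [IsProbabilityMeasure μ]
    {f : Ω → ℝ} (hf : Integrable f μ) (hf2 : Integrable (fun x => f x ^ 2) μ) :
    (∫ x, f x ∂μ) ^ 2 ≤ ∫ x, f x ^ 2 ∂μ := by
  set m := ∫ x, f x ∂μ with hm
  have h1 : ∫ x, (f x - m) ^ 2 ∂μ = ∫ x, f x ^ 2 ∂μ - m ^ 2 := by
    have e : ∀ x, (f x - m) ^ 2 = f x ^ 2 + (-(2 * m)) * f x + m ^ 2 := fun x => by ring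
    simp only [e]
    have i1 : Integrable (fun x => (-(2 * m)) * f x) μ := hf.const_mul _
    have i2 : Integrable (fun x => f x ^ 2 + (-(2 * m)) * f x) μ := hf2.add i1
    rw [integral_add i2 (integrable_const _), integral_add hf2 i1, integral_const_mul,
      integral_const, ← hm]
    simp
    ring
  have h2 : 0 ≤ ∫ x, (f x - m) ^ 2 ∂μ := integral_nonneg fun _ => sq_nonneg _
  linarith

/-- Minkowski for squares. -/
lemma mink48 {Ω : Type*} [MeasurableSpace Ω] {μ : Measure Ω} {f g : Ω → ℝ} {a b : ℝ}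
    (ha : 0 ≤ a) (hb : 0 ≤ b)
    (hf2 : Integrable (fun x => f x ^ 2) μ) (hg2 : Integrable (fun x => g x ^ 2) μ)
    (h1 : ∫ x, f x ^ 2 ∂μ ≤ a ^ 2) (h2 : ∫ x, g x ^ 2 ∂μ ≤ b ^ 2) :
    ∫ x, (f x + g x) ^ 2 ∂μ ≤ (a + b) ^ 2 := by
  by_contra hcon
  push Not at hcon
  set I := ∫ x, (f x + g x) ^ 2 ∂μ with hI
  have hI0 : 0 ≤ I := integral_nonneg fun _ => sq_nonneg _
  set y := Real.sqrt I with hy
  have hyI : y ^ 2 = I := Real.sq_sqrt hI0
  have hy0 : 0 ≤ y := Real.sqrt_nonneg _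
  have hys : a + b < y := by
    by_contra hc
    push Not at hc
    nlinarith
  set ε := (y - (a + b)) / 4 with hε
  have hε0 : 0 < ε := by rw [hε]; linarith
  set a' := a + ε with ha'
  set b' := b + ε with hb'
  have ha0 : 0 < a' := by rw [ha']; linarith
  have hb0 : 0 < b' := by rw [hb']; linarith
  have hpt : ∀ x, (f x + g x) ^ 2 ≤ (a' + b') / a' * f x ^ 2 + (a' + b') / b' * g x ^ 2 := by
    intro x
    have e : (a' + b') / a' * f x ^ 2 + (a' + b') / b' * g x ^ 2 - (f x + g x) ^ 2 =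
        (b' * f x - a' * g x) ^ 2 / (a' * b') := by
      field_simp
      ring
    have h3 : 0 ≤ (b' * f x - a' * g x) ^ 2 / (a' * b') := by positivity
    linarith
  have h4 : I ≤ (a' + b') / a' * ∫ x, f x ^ 2 ∂μ + (a' + b') / b' * ∫ x, g x ^ 2 ∂μ := by
    rw [hI, ← integral_const_mul, ← integral_const_mul,
      ← integral_add (hf2.const_mul _) (hg2.const_mul _)]
    exact integral_mono_of_nonneg (Eventually.of_forall fun _ => sq_nonneg _)
      ((hf2.const_mul _).add (hg2.const_mul _)) (Eventually.of_forall hpt)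
  have h5 : (a' + b') / a' * ∫ x, f x ^ 2 ∂μ ≤ (a' + b') * a' := by
    have h6 : ∫ x, f x ^ 2 ∂μ ≤ a' ^ 2 := h1.trans (pow_le_pow_left₀ ha (by linarith) 2)
    calc (a' + b') / a' * ∫ x, f x ^ 2 ∂μ ≤ (a' + b') / a' * a' ^ 2 :=
          mul_le_mul_of_nonneg_left h6 (by positivity)
      _ = (a' + b') * a' := by field_simp
  have h7 : (a' + b') / b' * ∫ x, g x ^ 2 ∂μ ≤ (a' + b') * b' := by
    have h6 : ∫ x, g x ^ 2 ∂μ ≤ b' ^ 2 := h2.trans (pow_le_pow_left₀ hb (by linarith) 2)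
    calc (a' + b') / b' * ∫ x, g x ^ 2 ∂μ ≤ (a' + b') / b' * b' ^ 2 :=
          mul_le_mul_of_nonneg_left h6 (by positivity)
      _ = (a' + b') * b' := by field_simp
  have h8 : y ^ 2 ≤ (a' + b') ^ 2 := by
    rw [hyI]
    nlinarith
  have h9 : y ≤ a' + b' := by
    by_contra hc
    push Not at hc
    nlinarith
  rw [ha', hb'] at h9
  linarith

/-- `cE` of a square integrable function is square integrable. -/
lemma sq_cE48 [IsProbabilityMeasure ρ] (S : Set (ℕ × Site d)) {F : Env d → ℝ} (hm : Measurable F)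
    (h2 : Integrable (fun η => F η ^ 2) (law d ρ)) :
    Integrable (fun η => cE ρ S F η ^ 2) (law d ρ) := by
  have h1 : Integrable F (law d ρ) := by
    refine Integrable.mono' ((integrable_const (1 : ℝ)).add h2) hm.aestronglyMeasurable
      (Eventually.of_forall fun η => ?_)
    show |F η| ≤ 1 + F η ^ 2
    rcases abs_cases (F η) with h | h <;> nlinarith [sq_nonneg (F η - 1), sq_nonneg (F η + 1)]
  have p2 := (mp_spl (ρ := ρ) S).integrable_comp_of_integrable h2
  have p1 := (mp_spl (ρ := ρ) S).integrable_comp_of_integrable h1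
  have q2 : Integrable (fun η => ∫ ξ, F (spl S η ξ) ^ 2 ∂(law d ρ)) (law d ρ) :=
    p2.integral_prod_left
  refine Integrable.mono' q2 ((measurable_cE hm S).pow_const 2).aestronglyMeasurable ?_
  filter_upwards [p2.prod_right_ae, p1.prod_right_ae] with η e2 e1
  rw [Real.norm_eq_abs, abs_of_nonneg (sq_nonneg _)]
  exact sq_int48 e1 e2

lemma X_dep48 (β : ℝ) (h : Vec d) (p : ℕ) :
    DependsOn (fun η : Env d => X β h η p) (Pa d p) := by
  intro η η' hη
  have h2 : Z β h η p = Z β h η' p := dependsOn_Z β h p fun q hq => hη q hq.2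
  show X β h η p = X β h η' p
  unfold X
  rw [h2]

/-- Jensen, almost everywhere. -/
lemma jen48 [IsProbabilityMeasure ρ] (hd : 0 < d) (hρ : EM ρ) (β : ℝ) (h : Vec d) (p k : ℕ) :
    ∀ᵐ η ∂(law d ρ), X β h η p + A ρ β h k ≤
      cE ρ (Pa d p) (fun ζ => X β h ζ (p + k)) η := by
  have hX : ∀ k, Integrable (fun η => X β h η k) (law d ρ) := fun k => (concU hd hρ β h k).1
  have p1 := (mp_spl (ρ := ρ) (Pa d p)).integrable_comp_of_integrable (hX (p + k))
  filter_upwards [p1.prod_right_ae] with η e1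
  have hXs : ∀ y : Site d, Integrable (fun η => X β h (sh p y η) k) (law d ρ) := fun y =>
    (mp_sh p y).integrable_comp_of_integrable (hX k)
  have hpt : ∀ ξ : Env d, X β h η p + ∑ s : Fin p → Step d,
      FreeU_p β h p s η * X β h (sh p (pos s p) ξ) k ≤ X β h (spl (Pa d p) η ξ) (p + k) := by
    intro ξ
    have h1 := FreeU_pt hd β h p k (spl (Pa d p) η ξ)
    have h2 : X β h (spl (Pa d p) η ξ) p = X β h η p :=
      X_dep48 β h p (x := spl (Pa d p) η ξ) (y := η) fun q hq => spl_mem _ _ hq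
    have h3 : ∀ s, FreeU_p β h p s (spl (Pa d p) η ξ) = FreeU_p β h p s η := fun s =>
      FreeU_dep β h p s (x := spl (Pa d p) η ξ) (y := η) fun q hq => spl_mem (S := Pa d p) _ _ hq
    have h4 : ∀ y : Site d, X β h (sh p y (spl (Pa d p) η ξ)) k = X β h (sh p y ξ) k := fun y =>
      @FreeU_dep2 d β h p k y (spl (Pa d p) η ξ) ξ
        (fun q hq => spl_not_mem (S := Pa d p) _ _ hq)
    simp only [h2, h3, h4] at h1
    exact h1
  have i4 : Integrable (fun ξ => X β h η p + ∑ s : Fin p → Step d,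
      FreeU_p β h p s η * X β h (sh p (pos s p) ξ) k) (law d ρ) :=
    (integrable_const _).add (integrable_finsetSum _ fun s _ => (hXs _).const_mul _)
  have h5 := integral_mono i4 e1 hpt
  have h6 : ∫ ξ, (X β h η p + ∑ s : Fin p → Step d,
      FreeU_p β h p s η * X β h (sh p (pos s p) ξ) k) ∂(law d ρ) = X β h η p + A ρ β h k := by
    rw [integral_add (integrable_const _) (integrable_finsetSum _ fun s _ => (hXs _).const_mul _),
      integral_finsetSum _ fun s _ => (hXs _).const_mul _]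
    have h7 : ∀ s : Fin p → Step d, ∫ ξ, FreeU_p β h p s η * X β h (sh p (pos s p) ξ) k
        ∂(law d ρ) = FreeU_p β h p s η * A ρ β h k := by
      intro s
      rw [integral_const_mul, integral_sh p (pos s p) (measurable_X β h k)]
      rfl
    simp only [h7]
    rw [← Finset.sum_mul, FreeU_sum hd, one_mul]
    simp
  rw [h6] at h5
  exact h5

/-- One step. -/
lemma step48 [IsProbabilityMeasure ρ] (hd : 0 < d) (hρ : EM ρ) (β : ℝ) (h : Vec d) (n p : ℕ)
    (hp : p ≤ n) {K Φ N : ℝ} (hK : Vb ρ β h n p ≤ K) (hK0 : 0 ≤ K) (hN : 0 ≤ N)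
    (hΦ : ∀ i : ℕ, i ≤ n → En ρ β h i ≤ Φ)
    (hNp : ∫ η, max 0 (A ρ β h p - X β h η p) ^ 2 ∂(law d ρ) ≤ N ^ 2) :
    ∫ η, max 0 (A ρ β h n - X β h η n) ^ 2 ∂(law d ρ) ≤ (Real.sqrt K + N + 2 * Φ) ^ 2 := by
  obtain ⟨k, rfl⟩ := Nat.exists_eq_add_of_le hp
  have hE0 : ∀ i, 0 ≤ En ρ β h i := fun i => by
    unfold En
    linarith [A_le_lam hd hρ β h i]
  have hΦ0 : 0 ≤ Φ := (hE0 0).trans (hΦ 0 (Nat.zero_le _))
  have hXm := measurable_X (d := d) β h
  have hX2 := fun m => integrable_X_sq39 (ρ := ρ) hd hρ β h m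
  have hc2 := sq_cE48 (ρ := ρ) (Pa d p) (hXm (p + k)) (hX2 (p + k))
  have hcm : Measurable (cE ρ (Pa d p) (fun ζ => X β h ζ (p + k))) :=
    measurable_cE (hXm (p + k)) _
  have hD2 : Integrable (fun η => |X β h η (p + k) -
      cE ρ (Pa d p) (fun ζ => X β h ζ (p + k)) η| ^ 2) (law d ρ) := by
    refine Integrable.mono' (((hX2 (p + k)).const_mul 2).add (hc2.const_mul 2))
      ((((hXm (p + k)).sub hcm).abs).pow_const 2).aestronglyMeasurable
      (Eventually.of_forall fun η => ?_)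
    rw [Real.norm_eq_abs, abs_of_nonneg (sq_nonneg _), sq_abs]
    show (X β h η (p + k) - cE ρ (Pa d p) (fun ζ => X β h ζ (p + k)) η) ^ 2 ≤
      2 * X β h η (p + k) ^ 2 + 2 * cE ρ (Pa d p) (fun ζ => X β h ζ (p + k)) η ^ 2
    nlinarith [sq_nonneg (X β h η (p + k) + cE ρ (Pa d p) (fun ζ => X β h ζ (p + k)) η)]
  have hm2 : ∀ m, Integrable (fun η => max 0 (A ρ β h m - X β h η m) ^ 2) (law d ρ) := by
    intro m
    refine Integrable.mono' ((integrable_const (2 * A ρ β h m ^ 2)).add ((hX2 m).const_mul 2))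
      (((measurable_const.max (measurable_const.sub (hXm m)))).pow_const 2).aestronglyMeasurable
      (Eventually.of_forall fun η => ?_)
    rw [Real.norm_eq_abs, abs_of_nonneg (sq_nonneg _)]
    show max 0 (A ρ β h m - X β h η m) ^ 2 ≤ 2 * A ρ β h m ^ 2 + 2 * X β h η m ^ 2
    rcases max_cases 0 (A ρ β h m - X β h η m) with hh | hh <;> rw [hh.1] <;>
      nlinarith [sq_nonneg (A ρ β h m + X β h η m), sq_nonneg (A ρ β h m), sq_nonneg (X β h η m)]
  have hg2 : Integrable (fun η => (max 0 (A ρ β h p - X β h η p) + 2 * Φ) ^ 2) (law d ρ) := by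
    refine Integrable.mono' (((hm2 p).const_mul 2).add (integrable_const (2 * (2 * Φ) ^ 2)))
      (((measurable_const.max (measurable_const.sub (hXm p))).add_const _).pow_const
        2).aestronglyMeasurable (Eventually.of_forall fun η => ?_)
    rw [Real.norm_eq_abs, abs_of_nonneg (sq_nonneg _)]
    show (max 0 (A ρ β h p - X β h η p) + 2 * Φ) ^ 2 ≤
      2 * max 0 (A ρ β h p - X β h η p) ^ 2 + 2 * (2 * Φ) ^ 2
    nlinarith [sq_nonneg (max 0 (A ρ β h p - X β h η p) - 2 * Φ)]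
  have m1 : ∫ η, (max 0 (A ρ β h p - X β h η p) + 2 * Φ) ^ 2 ∂(law d ρ) ≤ (N + 2 * Φ) ^ 2 := by
    refine mink48 hN (by linarith) (hm2 p) (integrable_const ((2 * Φ) ^ 2)) hNp ?_
    simp
  have m2 : ∫ η, (|X β h η (p + k) - cE ρ (Pa d p) (fun ζ => X β h ζ (p + k)) η| +
      (max 0 (A ρ β h p - X β h η p) + 2 * Φ)) ^ 2 ∂(law d ρ) ≤
      (Real.sqrt K + (N + 2 * Φ)) ^ 2 := by
    refine mink48 (Real.sqrt_nonneg _) (by linarith) hD2 hg2 ?_ m1
    rw [Real.sq_sqrt hK0]
    refine le_trans (le_of_eq ?_) hK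
    unfold Vb
    refine integral_congr_ae (Eventually.of_forall fun η => ?_)
    exact sq_abs _
  have hs2 : Integrable (fun η => (|X β h η (p + k) -
      cE ρ (Pa d p) (fun ζ => X β h ζ (p + k)) η| +
      (max 0 (A ρ β h p - X β h η p) + 2 * Φ)) ^ 2) (law d ρ) := by
    refine Integrable.mono' ((hD2.const_mul 2).add (hg2.const_mul 2))
      (((((hXm (p + k)).sub hcm).abs).add ((measurable_const.max (measurable_const.sub
        (hXm p))).add_const _)).pow_const 2).aestronglyMeasurable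
      (Eventually.of_forall fun η => ?_)
    rw [Real.norm_eq_abs, abs_of_nonneg (sq_nonneg _)]
    show (|X β h η (p + k) - cE ρ (Pa d p) (fun ζ => X β h ζ (p + k)) η| +
      (max 0 (A ρ β h p - X β h η p) + 2 * Φ)) ^ 2 ≤
      2 * |X β h η (p + k) - cE ρ (Pa d p) (fun ζ => X β h ζ (p + k)) η| ^ 2 +
      2 * (max 0 (A ρ β h p - X β h η p) + 2 * Φ) ^ 2
    nlinarith [sq_nonneg (|X β h η (p + k) - cE ρ (Pa d p) (fun ζ => X β h ζ (p + k)) η| -
      (max 0 (A ρ β h p - X β h η p) + 2 * Φ))]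
  have hfin := integral_mono_of_nonneg (μ := law d ρ)
    (f := fun η => max 0 (A ρ β h (p + k) - X β h η (p + k)) ^ 2)
    (Eventually.of_forall fun _ => sq_nonneg _) hs2 (by
      filter_upwards [jen48 (ρ := ρ) hd hρ β h p k] with η hη
      have h0 : 0 ≤ max 0 (A ρ β h (p + k) - X β h η (p + k)) := le_max_left _ _
      refine pow_le_pow_left₀ h0 ?_ 2
      have ha : X β h η (p + k) - cE ρ (Pa d p) (fun ζ => X β h ζ (p + k)) η ≥
        -|X β h η (p + k) - cE ρ (Pa d p) (fun ζ => X β h ζ (p + k)) η| := neg_abs_le _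
      have hb : A ρ β h p - X β h η p ≤ max 0 (A ρ β h p - X β h η p) := le_max_right _ _
      have hb0 : 0 ≤ max 0 (A ρ β h p - X β h η p) := le_max_left _ _
      have e1 : A ρ β h (p + k) ≤ A ρ β h p + A ρ β h k + 2 * Φ := by
        have h1 := hΦ p hp
        have h2 := hΦ k (Nat.le_add_left k p)
        have h3 := hE0 (p + k)
        unfold En at h1 h2 h3
        push_cast at h3
        linarith
      refine max_le ?_ ?_
      · have := abs_nonneg (X β h η (p + k) - cE ρ (Pa d p) (fun ζ => X β h ζ (p + k)) η)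
        linarith
      · linarith)
  refine hfin.trans (m2.trans (le_of_eq ?_))
  ring

end N48

open N48 in
/-- Leaf A5. -/
theorem ngw48 {d : ℕ} {ρ : Measure ℝ} [IsProbabilityMeasure ρ] (hd : 0 < d) (hρ : EM ρ) (β : ℝ) :
    NgW d ρ β := by
  intro θ hθ hθ2 h
  have hE0 : ∀ i, 0 ≤ En ρ β h i := fun i => by
    unfold En
    linarith [A_le_lam hd hρ β h i]
  have hl2 : 0 < Real.log 2 := Real.log_pos (by norm_num)
  have key : ∀ n : ℕ, ∀ (K Φ : ℝ), 1 ≤ n → 0 ≤ K →
      (∀ L : ℕ, L ≤ n → Vb ρ β h L ⌊θ * L⌋₊ ≤ K) → (∀ i : ℕ, i ≤ n → En ρ β h i ≤ Φ) →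
      ∫ η, max 0 (A ρ β h n - X β h η n) ^ 2 ∂(law d ρ) ≤
        ((1 + Real.log n / Real.log 2) * (Real.sqrt K + 2 * Φ)) ^ 2 := by
    intro n
    induction n using Nat.strong_induction_on with
    | _ n ih =>
      intro K Φ hn hK hV hΦ
      have hΦ0 : 0 ≤ Φ := (hE0 0).trans (hΦ 0 (Nat.zero_le _))
      have hn1 : (1 : ℝ) ≤ n := by exact_mod_cast hn
      have hln : 0 ≤ Real.log n := Real.log_nonneg hn1
      set p := ⌊θ * n⌋₊ with hp
      have hpn : (p : ℝ) ≤ n / 2 := by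
        have := Nat.floor_le (show (0 : ℝ) ≤ θ * n by positivity)
        nlinarith
      have hpn' : p < n := by
        have h1 : (p : ℝ) < n := by linarith
        exact_mod_cast h1
      have hs0 : 0 ≤ Real.sqrt K := Real.sqrt_nonneg K
      rcases Nat.eq_zero_or_pos p with h0 | h0
      · have hz : ∫ η, max 0 (A ρ β h p - X β h η p) ^ 2 ∂(law d ρ) ≤ (0 : ℝ) ^ 2 := by
          rw [h0]
          have hX0 : ∀ η : Env d, X β h η 0 = 0 := fun η => by
            unfold X
            rw [Z_zero, Real.log_one]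
          have hA0 : A ρ β h 0 = 0 := by
            unfold A
            simp [hX0]
          simp [hX0, hA0]
        have h1 := step48 hd hρ β h n p hpn'.le (hV n le_rfl) hK le_rfl hΦ hz
        refine h1.trans (pow_le_pow_left₀ (by linarith) ?_ 2)
        have h2 : 0 ≤ Real.log n / Real.log 2 := by positivity
        nlinarith
      · have hp1 : (1 : ℝ) ≤ p := by exact_mod_cast h0
        have hlp : 0 ≤ Real.log p := Real.log_nonneg hp1
        have h1 := ih p hpn' K Φ h0 hK (fun L hL => hV L (hL.trans hpn'.le))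
          (fun i hi => hΦ i (hi.trans hpn'.le))
        have hN0 : 0 ≤ (1 + Real.log p / Real.log 2) * (Real.sqrt K + 2 * Φ) := by positivity
        have h2 := step48 hd hρ β h n p hpn'.le (hV n le_rfl) hK hN0 hΦ h1
        refine h2.trans (pow_le_pow_left₀ (by linarith) ?_ 2)
        have h3 : Real.log p ≤ Real.log n - Real.log 2 := by
          rw [← Real.log_div (by positivity) (by norm_num)]
          exact Real.log_le_log (by linarith) hpn
        have h4 : Real.log p / Real.log 2 ≤ Real.log n / Real.log 2 - 1 := by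
          rw [div_le_iff₀ hl2]
          have : (Real.log n / Real.log 2 - 1) * Real.log 2 = Real.log n - Real.log 2 := by
            field_simp
          linarith
        nlinarith
  intro n K Φ hn hK hV hΦ
  have hΦ0 : 0 ≤ Φ := (hE0 0).trans (hΦ 0 (Nat.zero_le _))
  have hn1 : (1 : ℝ) ≤ n := by exact_mod_cast hn
  have hln : 0 ≤ Real.log n := Real.log_nonneg hn1
  have hs0 : 0 ≤ Real.sqrt K := Real.sqrt_nonneg K
  refine (key n K Φ hn hK hV hΦ).trans (pow_le_pow_left₀ (by positivity) ?_ 2)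
  have h1 : Real.log n / Real.log 2 ≤ 2 * Real.log n := by
    rw [div_le_iff₀ hl2]
    nlinarith [Real.log_two_gt_d9]
  nlinarith [mul_nonneg hln hs0, mul_nonneg hln hΦ0]

end Pool.Agent.W_7d29a1_SW
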