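import Pool.Agent.W_7d29a1_SW.DefsW
import Pool.Agent.W_7d29a1_SP.Cnt79
import Pool.Agent.W_7d29a1_P89.SLa
import Pool.Agent.W_7d29a1_Q29.Npb39

/-!
Theorem W, leaf A4: counting at the same scale (helper35).
-/

set_option autoImplicit false

namespace Pool.Agent.W_7d29a1_SW

open MeasureTheory ProbabilityTheory Filter Topology Pool.Agent.W_MP_7d29a1_pr
  Pool.Agent.W_7d29a1_h46 Pool.Agent.W_7d29a1_h46u Pool.Agent.W_7d29a1_D2.B35
  Pool.Agent.W_7d29a1_Q29 Pool.Agent.W_7d29a1_R34 Pool.Agent.W_7d29a1_SP Pool.Agent.W_7d29a1_SD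

namespace SaW35

open Pool.Agent.W_7d29a1_SP.C79 Pool.Agent.W_7d29a1_P89

variable {d : ℕ} {ρ : Measure ℝ}

/-- The bulk variance as a difference. -/
lemma vb_eq [IsProbabilityMeasure ρ] (S : Set (ℕ × Site d)) {F : Env d → ℝ} (hm : Measurable F)
    (hi : Integrable F (law d ρ)) (hi2 : Integrable (fun η => F η ^ 2) (law d ρ)) :
    Integrable (fun η => (F η - cE ρ S F η) ^ 2) (law d ρ) ∧
      ∫ η, (F η - cE ρ S F η) ^ 2 ∂(law d ρ) =
        ∫ η, F η ^ 2 ∂(law d ρ) - ∫ η, (cE ρ S F η) ^ 2 ∂(law d ρ) := by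
  have hS := (cE_L2 S hm hi hi2).1
  have hFS := int_mul_sq hm (measurable_cE (ρ := ρ) hm S) hi2 hS
  have e2 : ∫ η, F η * cE ρ S F η ∂(law d ρ) = ∫ η, cE ρ S F η * cE ρ S F η ∂(law d ρ) :=
    int_mul_cE S hFS (cE_dep S F)
  have e3 : ∀ η, (F η - cE ρ S F η) ^ 2 =
      (F η ^ 2 - 2 * (F η * cE ρ S F η)) + (cE ρ S F η) ^ 2 := fun η => by ring
  have e4 : ∀ η, cE ρ S F η * cE ρ S F η = (cE ρ S F η) ^ 2 := fun η => by ring
  have h1 : Integrable (fun η => F η ^ 2 - 2 * (F η * cE ρ S F η)) (law d ρ) :=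
    hi2.sub (hFS.const_mul 2)
  have h2 : ∫ η, (F η ^ 2 - 2 * (F η * cE ρ S F η)) ∂(law d ρ) =
      ∫ η, F η ^ 2 ∂(law d ρ) - 2 * ∫ η, F η * cE ρ S F η ∂(law d ρ) := by
    rw [integral_sub hi2 (hFS.const_mul 2), integral_const_mul]
  simp only [e3]
  refine ⟨h1.add hS, ?_⟩
  rw [integral_add h1 hS, h2, e2]
  simp only [e4]
  ring

/-- The bulk variance is monotone. -/
lemma vb_mono [IsProbabilityMeasure ρ] {S T : Set (ℕ × Site d)} (hST : S ⊆ T) {F : Env d → ℝ}
    (hm : Measurable F) (hi : Integrable F (law d ρ))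
    (hi2 : Integrable (fun η => F η ^ 2) (law d ρ)) :
    ∫ η, (F η - cE ρ T F η) ^ 2 ∂(law d ρ) ≤ ∫ η, (F η - cE ρ S F η) ^ 2 ∂(law d ρ) := by
  rw [(vb_eq T hm hi hi2).2, (vb_eq S hm hi hi2).2]
  have h1 := incr_sq hST hm hi hi2
  have h2 : 0 ≤ ∫ η, (cE ρ T F η - cE ρ S F η) ^ 2 ∂(law d ρ) :=
    integral_nonneg fun _ => sq_nonneg _
  linarith

/-- Chebyshev for the resampling. -/
lemma dev [IsProbabilityMeasure ρ] (S : Set (ℕ × Site d)) {F : Env d → ℝ} (hm : Measurable F)
    (hi : Integrable F (law d ρ)) (hi2 : Integrable (fun η => F η ^ 2) (law d ρ)) (u : ℝ)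
    (hu : 0 ≤ u) :
    u ^ 2 * ((law d ρ).prod (law d ρ)).real {w | u < |F w.1 - F (spl S w.1 w.2)|} ≤
      4 * ∫ η, (F η - cE ρ S F η) ^ 2 ∂(law d ρ) := by
  obtain ⟨g, hg⟩ : ∃ g : Env d → ℝ, g = fun η => (F η - cE ρ S F η) ^ 2 := ⟨_, rfl⟩
  have hgi : Integrable g (law d ρ) := by
    rw [hg]
    exact (vb_eq S hm hi hi2).1
  have hgm : Measurable g := by
    rw [hg]
    exact (hm.sub (measurable_cE (ρ := ρ) hm S)).pow_const 2
  have mp1 : MeasurePreserving (Prod.fst : Env d × Env d → Env d)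
      ((law d ρ).prod (law d ρ)) (law d ρ) := measurePreserving_fst
  have i1 : Integrable (fun w : Env d × Env d => g w.1) ((law d ρ).prod (law d ρ)) :=
    mp1.integrable_comp_of_integrable hgi
  have i2 : Integrable (fun w : Env d × Env d => g (spl S w.1 w.2))
      ((law d ρ).prod (law d ρ)) := (mp_spl S).integrable_comp_of_integrable hgi
  have e1 : ∫ w : Env d × Env d, g w.1 ∂((law d ρ).prod (law d ρ)) = ∫ η, g η ∂(law d ρ) :=
    LawU_integral mp1 hgi.aestronglyMeasurable
  have e2 : ∫ w : Env d × Env d, g (spl S w.1 w.2) ∂((law d ρ).prod (law d ρ)) =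
      ∫ η, g η ∂(law d ρ) := LawU_integral (mp_spl S) hgi.aestronglyMeasurable
  have hFm : Measurable fun w : Env d × Env d => (F w.1 - F (spl S w.1 w.2)) ^ 2 :=
    ((hm.comp measurable_fst).sub (hm.comp (measurable_spl S))).pow_const 2
  have hpt : ∀ w : Env d × Env d, (F w.1 - F (spl S w.1 w.2)) ^ 2 ≤
      2 * g w.1 + 2 * g (spl S w.1 w.2) := by
    intro w
    have h1 : cE ρ S F (spl S w.1 w.2) = cE ρ S F w.1 :=
      cE_dep S F fun p hp => spl_mem _ _ hp
    rw [hg]
    simp only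
    rw [h1]
    nlinarith [sq_nonneg ((F w.1 - cE ρ S F w.1) + (F (spl S w.1 w.2) - cE ρ S F w.1))]
  have i3 : Integrable (fun w : Env d × Env d => (F w.1 - F (spl S w.1 w.2)) ^ 2)
      ((law d ρ).prod (law d ρ)) := by
    refine Integrable.mono' ((i1.const_mul 2).add (i2.const_mul 2)) hFm.aestronglyMeasurable
      (Eventually.of_forall fun w => ?_)
    rw [Real.norm_eq_abs, abs_of_nonneg (sq_nonneg _)]
    exact hpt w
  have h1 := mul_meas_ge_le_integral_of_nonneg (μ := (law d ρ).prod (law d ρ))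
    (f := fun w : Env d × Env d => (F w.1 - F (spl S w.1 w.2)) ^ 2)
    (Eventually.of_forall fun w => sq_nonneg _) i3 (u ^ 2)
  have h2 : {w : Env d × Env d | u < |F w.1 - F (spl S w.1 w.2)|} ⊆
      {w | u ^ 2 ≤ (F w.1 - F (spl S w.1 w.2)) ^ 2} := by
    intro w hw
    have h3 : u < |F w.1 - F (spl S w.1 w.2)| := hw
    show u ^ 2 ≤ (F w.1 - F (spl S w.1 w.2)) ^ 2
    rw [← sq_abs (F w.1 - F (spl S w.1 w.2))]
    exact pow_le_pow_left₀ hu h3.le 2
  have h3 := mul_le_mul_of_nonneg_left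
    (measureReal_mono (μ := (law d ρ).prod (law d ρ)) h2) (sq_nonneg u)
  refine h3.trans (h1.trans ?_)
  refine (integral_mono i3 ((i1.const_mul 2).add (i2.const_mul 2)) hpt).trans (le_of_eq ?_)
  have e3 : ∫ w : Env d × Env d, (2 * g w.1 + 2 * g (spl S w.1 w.2))
      ∂((law d ρ).prod (law d ρ)) = 2 * ∫ η, g η ∂(law d ρ) + 2 * ∫ η, g η ∂(law d ρ) := by
    rw [integral_add (i1.const_mul 2) (i2.const_mul 2), integral_const_mul, integral_const_mul,
      e1, e2]
  simp only [Pi.add_apply]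
  rw [e3, hg]
  ring

/-- The counting inequality. -/
lemma count [IsProbabilityMeasure ρ] (hd : 0 < d) (β : ℝ) (h : Vec d) {c₀ : ℝ} (hc : 0 < c₀)
    (t m : ℕ) (a u : ℝ) (hloc : c₀ ≤ (law d ρ).real (AS β h c₀ t)) :
    (law d ρ).real {η | a ≤ X β h η m} * c₀ ≤
      (law d ρ).real {η | a ≤ X β h η m} * ((law d ρ).real
        {η | a + Real.log c₀ - u ≤ X β h η (t + m) - X β h η t} / c₀) +
      ((law d ρ).prod (law d ρ)).real {w | u < |X β h w.1 (t + m) -
        X β h (spl (Pa d t) w.1 w.2) (t + m)|} / c₀ := by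
  classical
  obtain ⟨q, hq⟩ : ∃ q : ℝ, q = (law d ρ).real {η | a ≤ X β h η m} := ⟨_, rfl⟩
  obtain ⟨B, hB⟩ : ∃ B : Set (Env d), B =
    {η | a + Real.log c₀ - u ≤ X β h η (t + m) - X β h η t} := ⟨_, rfl⟩
  obtain ⟨D, hD⟩ : ∃ D : Set (Env d × Env d), D =
    {w | u < |X β h w.1 (t + m) - X β h (spl (Pa d t) w.1 w.2) (t + m)|} := ⟨_, rfl⟩
  rw [← hq, ← hB, ← hD]
  have hq0 : 0 ≤ q := by
    rw [hq]
    exact measureReal_nonneg
  have hBm : MeasurableSet B := by
    rw [hB]
    exact measurableSet_le measurable_const ((measurable_X β h (t + m)).sub (measurable_X β h t))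
  have hDm : MeasurableSet D := by
    rw [hD]
    exact measurableSet_lt measurable_const (((measurable_X β h (t + m)).comp measurable_fst).sub
      ((measurable_X β h (t + m)).comp (measurable_spl (Pa d t)))).abs
  obtain ⟨oD, hoD⟩ : ∃ oD : Env d × Env d → ℝ, oD = D.indicator fun _ => (1 : ℝ) := ⟨_, rfl⟩
  have oD1 : ∀ w ∈ D, oD w = 1 := fun w hw => by rw [hoD, Set.indicator_of_mem hw]
  have oD0 : ∀ w, 0 ≤ oD w := fun w => by
    rw [hoD]
    exact Set.indicator_nonneg (fun _ _ => zero_le_one) w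
  have oDi : Integrable oD ((law d ρ).prod (law d ρ)) := by
    rw [hoD]
    exact (integrable_const (1 : ℝ)).indicator hDm
  have oDI : ∫ w, oD w ∂((law d ρ).prod (law d ρ)) = ((law d ρ).prod (law d ρ)).real D := by
    rw [hoD, integral_indicator_const _ hDm, smul_eq_mul, mul_one]
  -- the pointwise inequality
  have hpt : ∀ (w : Env d × Env d) (y : Site d),
      one (At β h c₀ t y) w.1 * one (Lu β h m a t y) w.1 ≤
        (one (At β h c₀ t y) (spl (Pa d t) w.1 w.2) * one B (spl (Pa d t) w.1 w.2)) *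
          one (Lu β h m a t y) w.1 + one (At β h c₀ t y) w.1 * oD w := by
    intro w y
    have hdep : one (At β h c₀ t y) (spl (Pa d t) w.1 w.2) = one (At β h c₀ t y) w.1 :=
      one_dep (At_dep β h c₀ t y) fun p hp => spl_mem _ _ hp
    rw [hdep]
    have hn1 := one_nn (At β h c₀ t y) w.1
    have hn2 := one_nn (Lu β h m a t y) w.1
    have hn3 := one_nn B (spl (Pa d t) w.1 w.2)
    by_cases hA : w.1 ∈ At β h c₀ t y
    · by_cases hL : w.1 ∈ Lu β h m a t y
      · rw [one_of hA, one_of hL, one_mul, one_mul, mul_one, one_mul]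
        by_cases hb : spl (Pa d t) w.1 w.2 ∈ B
        · rw [one_of hb]
          linarith [oD0 w]
        · have hw : w ∈ D := by
            rw [hB] at hb
            rw [hD]
            have hb' : X β h (spl (Pa d t) w.1 w.2) (t + m) -
                X β h (spl (Pa d t) w.1 w.2) t < a + Real.log c₀ - u := not_le.1 hb
            have hZt : Z β h (spl (Pa d t) w.1 w.2) t = Z β h w.1 t :=
              S98.Z_dep β h t (x := spl (Pa d t) w.1 w.2) (y := w.1)
                (fun p hp => spl_mem w.1 w.2 hp)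
            have hXt : X β h (spl (Pa d t) w.1 w.2) t = X β h w.1 t := by
              unfold X
              rw [hZt]
            have hA' : c₀ * Z β h w.1 t ≤ PP β h w.1 t y := hA
            have hLu' : a ≤ X β h (sh t y w.1) m := hL
            have hZ := Z_pos hd β h w.1 t
            have hZm := Z_pos hd β h (sh t y w.1) m
            have hch := PP_chainZ β h w.1 t m y
            have k1 : c₀ * Z β h w.1 t * Z β h (sh t y w.1) m ≤ Z β h w.1 (t + m) :=
              (mul_le_mul_of_nonneg_right hA' hZm.le).trans hch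
            have k2 := Real.log_le_log (mul_pos (mul_pos hc hZ) hZm) k1
            rw [Real.log_mul (mul_pos hc hZ).ne' hZm.ne', Real.log_mul hc.ne' hZ.ne'] at k2
            have k3 : Real.log (Z β h (sh t y w.1) m) = X β h (sh t y w.1) m := rfl
            have k4 : Real.log (Z β h w.1 t) = X β h w.1 t := rfl
            have k5 : Real.log (Z β h w.1 (t + m)) = X β h w.1 (t + m) := rfl
            rw [k3, k4, k5] at k2
            rw [hXt] at hb'
            show u < |X β h w.1 (t + m) - X β h (spl (Pa d t) w.1 w.2) (t + m)|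
            refine lt_of_lt_of_le ?_ (le_abs_self _)
            linarith
          rw [oD1 w hw]
          linarith
      · rw [one_not hL, mul_zero, mul_zero, zero_add]
        exact mul_nonneg hn1 (oD0 w)
    · rw [one_not hA]
      simp
  -- the integrals
  have mp1 : MeasurePreserving (Prod.fst : Env d × Env d → Env d)
      ((law d ρ).prod (law d ρ)) (law d ρ) := measurePreserving_fst
  have hAL : ∀ y, Measurable fun η => one (At β h c₀ t y) η * one (Lu β h m a t y) η := fun y =>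
    (one_meas (At_meas β h c₀ t y)).mul (one_meas (Lu_meas β h m a t y))
  have hAB : ∀ y, Measurable fun η => one (At β h c₀ t y) η * one B η := fun y =>
    (one_meas (At_meas β h c₀ t y)).mul (one_meas hBm)
  have iAL : ∀ y, Integrable (fun η => one (At β h c₀ t y) η * one (Lu β h m a t y) η)
      (law d ρ) := fun y => mul_int (At_meas β h c₀ t y) (one_int (Lu_meas β h m a t y))
  have iAB : ∀ y, Integrable (fun η => one (At β h c₀ t y) η * one B η) (law d ρ) := fun y =>
    mul_int (At_meas β h c₀ t y) (one_int hBm)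
  have J1 : ∀ y, ∫ w : Env d × Env d, one (At β h c₀ t y) w.1 * one (Lu β h m a t y) w.1
      ∂((law d ρ).prod (law d ρ)) = (∫ η, one (At β h c₀ t y) η ∂(law d ρ)) * q := by
    intro y
    have h1 := LawU_integral (F := fun η => one (At β h c₀ t y) η * one (Lu β h m a t y) η) mp1
      (iAL y).aestronglyMeasurable
    rw [h1, integral_indep (ρ := ρ) (Pa d t) (one_meas (At_meas β h c₀ t y))
      (one_meas (Lu_meas β h m a t y)) (one_dep (At_dep β h c₀ t y))
      (one_dep (Lu_dep β h m a t y)), Lu_I, hq]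
  have iJ1 : ∀ y, Integrable (fun w : Env d × Env d =>
      one (At β h c₀ t y) w.1 * one (Lu β h m a t y) w.1) ((law d ρ).prod (law d ρ)) := fun y =>
    mp1.integrable_comp_of_integrable (iAL y)
  have iS : ∀ y, Integrable (fun w : Env d × Env d =>
      one (At β h c₀ t y) (spl (Pa d t) w.1 w.2) * one B (spl (Pa d t) w.1 w.2))
      ((law d ρ).prod (law d ρ)) := fun y =>
    (mp_spl (Pa d t)).integrable_comp_of_integrable (iAB y)
  have iJ2 : ∀ y, Integrable (fun w : Env d × Env d =>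
      (one (At β h c₀ t y) (spl (Pa d t) w.1 w.2) * one B (spl (Pa d t) w.1 w.2)) *
        one (Lu β h m a t y) w.1) ((law d ρ).prod (law d ρ)) := fun y =>
    (iS y).mul_bdd (c := 1)
      ((one_meas (Lu_meas β h m a t y)).comp measurable_fst).aestronglyMeasurable
      (Eventually.of_forall fun w => one_abs _ _)
  have J2 : ∀ y, ∫ w : Env d × Env d,
      (one (At β h c₀ t y) (spl (Pa d t) w.1 w.2) * one B (spl (Pa d t) w.1 w.2)) *
        one (Lu β h m a t y) w.1 ∂((law d ρ).prod (law d ρ)) =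
      (∫ η, one (At β h c₀ t y) η * one B η ∂(law d ρ)) * q := by
    intro y
    have h1 := LawU_integral (F := fun η => one (At β h c₀ t y) η * one B η)
      (mp_spl (ρ := ρ) (Pa d t)) (iAB y).aestronglyMeasurable
    rw [← h1, integral_prod_symm _ (iJ2 y), integral_prod_symm _ (iS y), ← integral_mul_const]
    refine integral_congr_ae (Eventually.of_forall fun ξ => ?_)
    simp only
    have h2 := integral_indep (ρ := ρ) (Pa d t)
      (F := fun η => one (At β h c₀ t y) (spl (Pa d t) η ξ) * one B (spl (Pa d t) η ξ))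
      (G := one (Lu β h m a t y))
      ((hAB y).comp ((measurable_spl (Pa d t)).comp (measurable_id.prodMk measurable_const)))
      (one_meas (Lu_meas β h m a t y)) (fun η η' hη => by
        have h3 : spl (Pa d t) η ξ = spl (Pa d t) η' ξ := by
          ext p
          by_cases hp : p ∈ Pa d t
          · rw [spl_mem _ _ hp, spl_mem _ _ hp]
            exact hη p hp
          · rw [spl_not_mem _ _ hp, spl_not_mem _ _ hp]
        show one (At β h c₀ t y) (spl (Pa d t) η ξ) * one B (spl (Pa d t) η ξ) =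
          one (At β h c₀ t y) (spl (Pa d t) η' ξ) * one B (spl (Pa d t) η' ξ)
        rw [h3]) (one_dep (Lu_dep β h m a t y))
    rw [h2, Lu_I, hq]
  have iJ3 : ∀ y, Integrable (fun w : Env d × Env d => one (At β h c₀ t y) w.1 * oD w)
      ((law d ρ).prod (law d ρ)) := fun y =>
    oDi.bdd_mul (c := 1) ((one_meas (At_meas β h c₀ t y)).comp measurable_fst).aestronglyMeasurable
      (Eventually.of_forall fun w => one_abs _ _)
  have K1 : ∀ y, (∫ η, one (At β h c₀ t y) η ∂(law d ρ)) * q ≤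
      (∫ η, one (At β h c₀ t y) η * one B η ∂(law d ρ)) * q +
        ∫ w : Env d × Env d, one (At β h c₀ t y) w.1 * oD w ∂((law d ρ).prod (law d ρ)) := by
    intro y
    rw [← J1, ← J2, ← integral_add (iJ2 y) (iJ3 y)]
    exact integral_mono (iJ1 y) ((iJ2 y).add (iJ3 y)) fun w => hpt w y
  have K2 := Finset.sum_le_sum fun y (_ : y ∈ boxF d t) => K1 y
  rw [← Finset.sum_mul, Finset.sum_add_distrib, ← Finset.sum_mul,
    ← integral_finsetSum _ fun y _ => one_int (At_meas β h c₀ t y),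
    ← integral_finsetSum _ fun y _ => iAB y, ← integral_finsetSum _ fun y _ => iJ3 y] at K2
  have L1 : c₀ ≤ ∫ η, ∑ y ∈ boxF d t, one (At β h c₀ t y) η ∂(law d ρ) := by
    refine hloc.trans ?_
    rw [← one_I (AS_meas β h c₀ t)]
    refine integral_mono (one_int (AS_meas β h c₀ t))
      (integrable_finsetSum _ fun y _ => one_int (At_meas β h c₀ t y)) fun η => ?_
    by_cases hη : η ∈ AS β h c₀ t
    · obtain ⟨y, hy, hA⟩ := hη
      have h2 := Finset.single_le_sum (f := fun y => one (At β h c₀ t y) η)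
        (fun y _ => one_nn _ _) hy
      have hA' : one (At β h c₀ t y) η = 1 := one_of hA
      exact (one_le _ _).trans (hA' ▸ h2)
    · rw [one_not hη]
      exact Finset.sum_nonneg fun y _ => one_nn _ _
  have L2 : ∫ η, ∑ y ∈ boxF d t, one (At β h c₀ t y) η * one B η ∂(law d ρ) ≤
      (law d ρ).real B / c₀ := by
    have h2 : ∫ η, 1 / c₀ * one B η ∂(law d ρ) = (law d ρ).real B / c₀ := by
      rw [integral_const_mul, one_I hBm]
      ring
    rw [← h2]
    refine integral_mono (integrable_finsetSum _ fun y _ => iAB y)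
      ((one_int hBm).const_mul _) fun η => ?_
    simp only
    rw [← Finset.sum_mul]
    exact mul_le_mul_of_nonneg_right (atoms hd β h hc t η) (one_nn _ _)
  have L3 : ∫ w : Env d × Env d, ∑ y ∈ boxF d t, one (At β h c₀ t y) w.1 * oD w
      ∂((law d ρ).prod (law d ρ)) ≤ ((law d ρ).prod (law d ρ)).real D / c₀ := by
    have h2 : ∫ w, 1 / c₀ * oD w ∂((law d ρ).prod (law d ρ)) =
        ((law d ρ).prod (law d ρ)).real D / c₀ := by
      rw [integral_const_mul, oDI]
      ring
    rw [← h2]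
    refine integral_mono (integrable_finsetSum _ fun y _ => iJ3 y)
      (oDi.const_mul _) fun w => ?_
    simp only
    rw [← Finset.sum_mul]
    exact mul_le_mul_of_nonneg_right (atoms hd β h hc t w.1) (oD0 w)
  have L4 := mul_le_mul_of_nonneg_right L1 hq0
  have L5 := mul_le_mul_of_nonneg_right L2 hq0
  linarith

/-- The mean of the absolute value. -/
lemma abs_le_sqrt [IsProbabilityMeasure ρ] {F : Env d → ℝ} (hi : Integrable F (law d ρ))
    (hi2 : Integrable (fun η => F η ^ 2) (law d ρ)) {K : ℝ} (hK : ∫ η, F η ^ 2 ∂(law d ρ) ≤ K) :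
    ∫ η, |F η| ∂(law d ρ) ≤ Real.sqrt K := by
  have hi2' : Integrable (fun η => |F η| ^ 2) (law d ρ) := by
    simpa only [sq_abs] using hi2
  have h1 := sq_around hi.abs hi2' (∫ η, |F η| ∂(law d ρ))
  have h2 : 0 ≤ ∫ η, (|F η| - ∫ η, |F η| ∂(law d ρ)) ^ 2 ∂(law d ρ) :=
    integral_nonneg fun _ => sq_nonneg _
  simp only [sq_abs] at h1
  refine Real.le_sqrt_of_sq_le ?_
  nlinarith

/-- The upper part of the increment. -/
lemma upper [IsProbabilityMeasure ρ] (hd : 0 < d) (hρ : EM ρ) (β : ℝ) (h : Vec d) (t m : ℕ)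
    {K Φ : ℝ} (hK : ∫ η, (X β h η (t + m) - cE ρ (Pa d t) (fun ζ => X β h ζ (t + m)) η) ^ 2
      ∂(law d ρ) ≤ K) (hΦ : A ρ β h (t + m) - A ρ β h t - A ρ β h m ≤ 2 * Φ) :
    Integrable (fun η => max 0 (X β h η (t + m) - X β h η t - A ρ β h m)) (law d ρ) ∧
      ∫ η, max 0 (X β h η (t + m) - X β h η t - A ρ β h m) ∂(law d ρ) ≤
        2 * Φ + Real.sqrt K := by
  obtain ⟨G, hG⟩ : ∃ G : Env d → ℝ, G = cE ρ (Pa d t) (fun ζ => X β h ζ (t + m)) := ⟨_, rfl⟩
  rw [← hG] at hK
  have hX : ∀ k, Integrable (fun η => X β h η k) (law d ρ) := fun k => (concU hd hρ β h k).1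
  have hXm : ∀ k, Measurable fun η : Env d => X β h η k := fun k => measurable_X β h k
  have hX2 : ∀ k, Integrable (fun η => X β h η k ^ 2) (law d ρ) := fun k =>
    integrable_X_sq39 hd hρ β h k
  have hGm : Measurable G := by
    rw [hG]
    exact measurable_cE (hXm (t + m)) _
  have hGi : Integrable G (law d ρ) := by
    rw [hG]
    exact (NT66.int_abs_cE (hX (t + m)) _).1
  have hGd : DependsOn G (Pa d t) := by
    rw [hG]
    exact cE_dep _ _
  obtain ⟨U, hU⟩ : ∃ U : Env d → ℝ, U = fun η => X β h η (t + m) - X β h η t - A ρ β h m :=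
    ⟨_, rfl⟩
  have hUi : Integrable U (law d ρ) := by
    rw [hU]
    exact ((hX _).sub (hX _)).sub (integrable_const _)
  have hUI : ∫ η, U η ∂(law d ρ) ≤ 2 * Φ := by
    rw [hU]
    simp only
    have i1 : Integrable (fun η => X β h η (t + m) - X β h η t) (law d ρ) :=
      (hX (t + m)).sub (hX t)
    rw [integral_sub i1 (integrable_const _), integral_sub (hX (t + m)) (hX t)]
    simp only [integral_const, probReal_univ, smul_eq_mul, one_mul]
    exact hΦ
  -- the conditional mean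
  obtain ⟨B, hB⟩ : ∃ B : Set (Env d), B = {η | G η < X β h η t + A ρ β h m} := ⟨_, rfl⟩
  have hBm : MeasurableSet B := by
    rw [hB]
    exact measurableSet_lt hGm ((hXm t).add_const _)
  have hBd : DependsOn (fun η => η ∈ B) (Pa d t) := by
    intro η η' hη
    have h1 : G η = G η' := hGd hη
    have h2 : Z β h η t = Z β h η' t := S98.Z_dep β h t hη
    rw [hB]
    show (G η < X β h η t + A ρ β h m) = (G η' < X β h η' t + A ρ β h m)
    unfold X
    rw [h1, h2]
  have hjen := jen79 (ρ := ρ) hd hρ β h t m hBm hBd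
  have hGB : ∫ η, one B η * X β h η (t + m) ∂(law d ρ) = ∫ η, one B η * G η ∂(law d ρ) := by
    have h1 := int_mul_cE (ρ := ρ) (Pa d t) (F := fun η => X β h η (t + m)) (H := one B)
      (by
        refine (mul_int hBm (hX (t + m))).congr (Eventually.of_forall fun η => ?_)
        simp only
        ring) (one_dep hBd)
    rw [← hG] at h1
    have e1 : ∀ η, one B η * X β h η (t + m) = X β h η (t + m) * one B η := fun η => mul_comm _ _
    have e2 : ∀ η, one B η * G η = G η * one B η := fun η => mul_comm _ _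
    simp only [e1, e2]
    exact h1
  have hneg : ∫ η, one B η * (X β h η t + A ρ β h m - G η) ∂(law d ρ) ≤ 0 := by
    have e1 : ∀ η, one B η * (X β h η t + A ρ β h m - G η) =
        (one B η * X β h η t + A ρ β h m * one B η) - one B η * G η := fun η => by ring
    simp only [e1]
    have i1 : Integrable (fun η => one B η * X β h η t + A ρ β h m * one B η) (law d ρ) :=
      (mul_int hBm (hX t)).add ((one_int hBm).const_mul _)
    rw [integral_sub i1 (mul_int hBm hGi),
      integral_add (mul_int hBm (hX t)) ((one_int hBm).const_mul _), integral_const_mul,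
      one_I hBm, ← hGB]
    linarith
  -- the lower part
  have hpt : ∀ η, max 0 (U η) ≤ U η + (|X β h η (t + m) - G η| +
      one B η * (X β h η t + A ρ β h m - G η)) := by
    intro η
    have hUη : U η = X β h η (t + m) - X β h η t - A ρ β h m := by rw [hU]
    have h1 := neg_abs_le (X β h η (t + m) - G η)
    have h2 := abs_nonneg (X β h η (t + m) - G η)
    by_cases hb : η ∈ B
    · rw [one_of hb, one_mul]
      rw [hB] at hb
      have hb' : G η < X β h η t + A ρ β h m := hb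
      refine max_le ?_ ?_
      · rw [hUη]
        linarith
      · linarith
    · rw [one_not hb, zero_mul, add_zero]
      rw [hB] at hb
      have hb' : X β h η t + A ρ β h m ≤ G η := not_lt.1 hb
      refine max_le ?_ ?_
      · rw [hUη]
        linarith
      · linarith
  have hmi : Integrable (fun η => max 0 (U η)) (law d ρ) := by
    refine (hUi.abs).mono' (measurable_const.max ?_).aestronglyMeasurable
      (Eventually.of_forall fun η => ?_)
    · rw [hU]
      exact ((hXm _).sub (hXm _)).sub_const _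
    · rw [Real.norm_eq_abs, abs_of_nonneg (le_max_left _ _)]
      exact max_le (abs_nonneg _) (le_abs_self _)
  have hXG : Integrable (fun η => X β h η (t + m) - G η) (law d ρ) := (hX _).sub hGi
  have hXG2 : Integrable (fun η => (X β h η (t + m) - G η) ^ 2) (law d ρ) := by
    rw [hG]
    exact (vb_eq (Pa d t) (hXm (t + m)) (hX (t + m)) (hX2 (t + m))).1
  have hsq := abs_le_sqrt hXG hXG2 hK
  have hlast : Integrable (fun η => one B η * (X β h η t + A ρ β h m - G η)) (law d ρ) :=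
    mul_int hBm (((hX t).add (integrable_const _)).sub hGi)
  have hfin := integral_mono hmi (hUi.add (hXG.abs.add hlast)) hpt
  have e5 : ∫ η, (U η + (|X β h η (t + m) - G η| +
      one B η * (X β h η t + A ρ β h m - G η))) ∂(law d ρ) = ∫ η, U η ∂(law d ρ) +
      (∫ η, |X β h η (t + m) - G η| ∂(law d ρ) +
        ∫ η, one B η * (X β h η t + A ρ β h m - G η) ∂(law d ρ)) := by
    have e6 := integral_add hUi (hXG.abs.add hlast)
    have e7 := integral_add hXG.abs hlast
    simp only [Pi.add_apply] at e6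
    rw [e6, e7]
  simp only [Pi.add_apply] at hfin
  rw [e5] at hfin
  rw [hU] at hmi hfin hUI
  simp only at hmi hfin hUI
  exact ⟨hmi, by linarith⟩

end SaW35

open SaW35 Pool.Agent.W_7d29a1_SP.C79 Pool.Agent.W_7d29a1_P89 in
/-- Leaf A4. -/
theorem saW35 {d : ℕ} {ρ : Measure ℝ} [IsProbabilityMeasure ρ] (hd : 0 < d) (hρ : EM ρ) (β : ℝ) :
    SaW d ρ β := by
  classical
  intro c₀ hc
  have hc1 : 0 ≤ |Real.log c₀| := abs_nonneg _
  have hc2 : 0 < 4 / c₀ ^ 2 := by positivity
  have hc3 : 0 < 2 / c₀ ^ 2 := by positivity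
  have hc4 : 0 < 3 / c₀ := by positivity
  refine ⟨1 + |Real.log c₀| + 4 / c₀ ^ 2 + 2 / c₀ ^ 2 + 3 / c₀, by linarith,
    fun h hloc θ hθ0 hθ m x q K Φ hm hq hK0 hK hΦ hqx => ?_⟩
  have hX : ∀ k, Integrable (fun η => X β h η k) (law d ρ) := fun k => (concU hd hρ β h k).1
  have hXm : ∀ k, Measurable fun η : Env d => X β h η k := fun k => measurable_X β h k
  have hX2 : ∀ k, Integrable (fun η => X β h η k ^ 2) (law d ρ) := fun k =>
    integrable_X_sq39 hd hρ β h k
  have hΦ0 : 0 ≤ Φ := by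
    refine le_trans ?_ (hΦ 0 (Nat.zero_le _))
    unfold Pool.Agent.W_7d29a1_SP.En
    have := A_le_lam hd hρ β h 0
    linarith
  have hm1 : (1 : ℝ) ≤ m := by exact_mod_cast hm
  have hm0 : (0 : ℝ) < m := by linarith
  -- a localised time
  obtain ⟨t, htm, htp, hta⟩ : ∃ t : ℕ, t < m ∧ ⌊θ * ((t + m : ℕ) : ℝ)⌋₊ ≤ t ∧
      c₀ ≤ (law d ρ).real (AS β h c₀ t) := by
    obtain ⟨F, hF⟩ : ∃ F : Finset ℕ, F = (Finset.range m).filter fun t =>
      c₀ ≤ (law d ρ).real {η | ∃ y ∈ boxF d t, c₀ * Z β h η t ≤ PP β h η t y} := ⟨_, rfl⟩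
    have h1 : c₀ * m ≤ F.card := by
      rw [hF]
      exact hloc m
    have h2 : F.Nonempty := by
      rw [← Finset.card_pos]
      have : (0 : ℝ) < F.card := lt_of_lt_of_le (by positivity) h1
      exact_mod_cast this
    obtain ⟨t, ht⟩ : ∃ t, t = F.max' h2 := ⟨_, rfl⟩
    have htF : t ∈ F := ht ▸ Finset.max'_mem F h2
    have h3 : F ⊆ Finset.range (t + 1) := by
      intro s hs
      have := Finset.le_max' F s hs
      rw [← ht] at this
      exact Finset.mem_range.2 (by omega)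
    have h4 : (F.card : ℝ) ≤ t + 1 := by
      have := Finset.card_le_card h3
      rw [Finset.card_range] at this
      exact_mod_cast this
    rw [hF] at htF
    obtain ⟨h5, h6⟩ := Finset.mem_filter.1 htF
    have h7 : t < m := Finset.mem_range.1 h5
    refine ⟨t, h7, ?_, h6⟩
    have h8 : θ * ((t + m : ℕ) : ℝ) < t + 1 := by
      push_cast
      have h9 : (t : ℝ) < m := by exact_mod_cast h7
      have h10 : θ * ((t : ℝ) + m) ≤ c₀ / 4 * (2 * m) :=
        mul_le_mul hθ (by linarith) (by positivity) (by positivity)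
      have h11 : (0 : ℝ) ≤ t := Nat.cast_nonneg t
      nlinarith
    have h9 : ⌊θ * ((t + m : ℕ) : ℝ)⌋₊ < t + 1 := by
      rw [Nat.floor_lt (by positivity)]
      push_cast at h8 ⊢
      exact h8
    omega
  have hL : t + m ≤ 2 * m := by omega
  have hVb : ∫ η, (X β h η (t + m) - cE ρ (Pa d t) (fun ζ => X β h ζ (t + m)) η) ^ 2
      ∂(law d ρ) ≤ K := by
    refine le_trans ?_ (hK (t + m) hL)
    unfold Vb
    refine vb_mono (fun p hp => ?_) (hXm _) (hX _) (hX2 _)
    have h1 : p.1 ≤ ⌊θ * ((t + m : ℕ) : ℝ)⌋₊ := hp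
    exact h1.trans htp
  have hE : A ρ β h (t + m) - A ρ β h t - A ρ β h m ≤ 2 * Φ := by
    have e1 := hΦ t (by omega)
    have e2 := hΦ m (by omega)
    have e3 := A_le_lam hd hρ β h (t + m)
    unfold Pool.Agent.W_7d29a1_SP.En at e1 e2
    push_cast at e3
    linarith
  obtain ⟨hUi, hUI⟩ := upper hd hρ β h t m hVb hE
  obtain ⟨q', hq'⟩ : ∃ q' : ℝ, q' = (law d ρ).real {η | A ρ β h m + x ≤ X β h η m} := ⟨_, rfl⟩
  rw [← hq'] at hqx
  have hq'0 : 0 < q' := lt_of_lt_of_le hq hqx
  have hq1 : q ≤ 1 := by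
    refine hqx.trans ?_
    rw [hq']
    exact measureReal_le_one
  obtain ⟨s, hs⟩ : ∃ s : ℝ, s = Real.sqrt (K / q) := ⟨_, rfl⟩
  have hs0 : 0 ≤ s := hs ▸ Real.sqrt_nonneg _
  have hs2 : s ^ 2 = K / q := by
    rw [hs]
    exact Real.sq_sqrt (by positivity)
  have hsK : Real.sqrt K ≤ s := by
    rw [hs]
    refine Real.sqrt_le_sqrt ?_
    rw [le_div_iff₀ hq]
    nlinarith
  obtain ⟨u, hu⟩ : ∃ u : ℝ, u = 3 / c₀ * s + 1 := ⟨_, rfl⟩
  have hu1 : 1 ≤ u := by
    rw [hu]
    have : 0 ≤ 3 / c₀ * s := by positivity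
    linarith
  have hcount := count (ρ := ρ) hd β h hc t m (A ρ β h m + x) u hta
  rw [← hq'] at hcount
  have hdev := dev (ρ := ρ) (Pa d t) (hXm (t + m)) (hX (t + m)) (hX2 (t + m)) u (by linarith)
  obtain ⟨D, hD⟩ : ∃ D : ℝ, D = ((law d ρ).prod (law d ρ)).real {w | u < |X β h w.1 (t + m) -
        X β h (spl (Pa d t) w.1 w.2) (t + m)|} := ⟨_, rfl⟩
  rw [← hD] at hcount hdev
  have hD0 : 0 ≤ D := hD ▸ measureReal_nonneg
  obtain ⟨P, hP⟩ : ∃ P : ℝ, P = (law d ρ).real {η | A ρ β h m + x + Real.log c₀ - u ≤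
    X β h η (t + m) - X β h η t} := ⟨_, rfl⟩
  rw [← hP] at hcount
  -- the resampling term
  have hD1 : D ≤ c₀ ^ 2 * q / 2 := by
    have h1 : u ^ 2 * D ≤ 4 * K := hdev.trans (by linarith)
    have h2 : 9 / c₀ ^ 2 * (K / q) ≤ u ^ 2 := by
      rw [hu, ← hs2]
      have : 0 ≤ 3 / c₀ * s := by positivity
      have e1 : 9 / c₀ ^ 2 * s ^ 2 = (3 / c₀ * s) ^ 2 := by
        rw [mul_pow, div_pow]
        norm_num
      rw [e1]
      exact pow_le_pow_left₀ this (by linarith) 2
    rcases hK0.eq_or_lt with hK1 | hK1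
    · rw [← hK1] at h1
      have h3 : D ≤ 0 := by
        by_contra hcon
        rw [not_le] at hcon
        have : 0 < u ^ 2 * D := by positivity
        linarith
      have h4 : 0 ≤ c₀ ^ 2 * q / 2 := by positivity
      linarith
    · have h3 := mul_le_mul_of_nonneg_right h2 hD0
      have h4 : 9 / c₀ ^ 2 * (K / q) * D ≤ 4 * K := h3.trans h1
      have h5 : 9 / c₀ ^ 2 * (K / q) * D = 9 * K * D / (c₀ ^ 2 * q) := by
        field_simp
      rw [h5, div_le_iff₀ (by positivity)] at h4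
      have h6 : 9 * D ≤ 4 * (c₀ ^ 2 * q) := by
        have h7 : K * (9 * D) ≤ K * (4 * (c₀ ^ 2 * q)) := by linarith
        exact le_of_mul_le_mul_left h7 hK1
      have h8 : 0 ≤ c₀ ^ 2 * q := by positivity
      linarith
  have hP1 : c₀ ^ 2 / 2 ≤ P := by
    have h1 : D / c₀ ≤ c₀ * q' / 2 := by
      rw [div_le_iff₀ hc]
      have h2 : c₀ ^ 2 * q ≤ c₀ ^ 2 * q' := mul_le_mul_of_nonneg_left hqx (by positivity)
      nlinarith
    have h3 : q' * c₀ ≤ q' * (P / c₀) + c₀ * q' / 2 := by linarith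
    have h4 : q' * (c₀ / 2) ≤ q' * (P / c₀) := by linarith
    have h5 := le_of_mul_le_mul_left h4 hq'0
    rw [le_div_iff₀ hc] at h5
    linarith
  -- Markov
  obtain ⟨z, hz⟩ : ∃ z : ℝ, z = x + Real.log c₀ - u := ⟨_, rfl⟩
  have hzb : z ≤ 2 / c₀ ^ 2 * (2 * Φ + Real.sqrt K) := by
    have hR : 0 ≤ 2 / c₀ ^ 2 * (2 * Φ + Real.sqrt K) := by
      have := Real.sqrt_nonneg K
      positivity
    rcases le_or_gt z 0 with hz0 | hz0
    · linarith
    · have h1 := mul_meas_ge_le_integral_of_nonneg (μ := law d ρ)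
        (f := fun η => max 0 (X β h η (t + m) - X β h η t - A ρ β h m))
        (Eventually.of_forall fun η => le_max_left _ _) hUi z
      have h2 : P ≤ (law d ρ).real {η | z ≤ max 0 (X β h η (t + m) - X β h η t -
          A ρ β h m)} := by
        rw [hP]
        refine measureReal_mono fun η hη => ?_
        have h3 : A ρ β h m + x + Real.log c₀ - u ≤ X β h η (t + m) - X β h η t := hη
        show z ≤ max 0 (X β h η (t + m) - X β h η t - A ρ β h m)
        refine le_trans ?_ (le_max_right _ _)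
        rw [hz]
        linarith
      have h3 : z * (c₀ ^ 2 / 2) ≤ 2 * Φ + Real.sqrt K :=
        (mul_le_mul_of_nonneg_left (hP1.trans h2) hz0.le).trans (h1.trans hUI)
      have h4 : 2 / c₀ ^ 2 * (z * (c₀ ^ 2 / 2)) = z := by
        field_simp
      rw [← h4]
      exact mul_le_mul_of_nonneg_left h3 hc3.le
  have h5 : -|Real.log c₀| ≤ Real.log c₀ := neg_abs_le _
  have h6 : x = z - Real.log c₀ + u := by
    rw [hz]
    ring
  have h7 : 2 / c₀ ^ 2 * (2 * Φ + Real.sqrt K) ≤ 4 / c₀ ^ 2 * Φ + 2 / c₀ ^ 2 * s := by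
    have h8 : 2 / c₀ ^ 2 * (2 * Φ + Real.sqrt K) =
        4 / c₀ ^ 2 * Φ + 2 / c₀ ^ 2 * Real.sqrt K := by ring
    rw [h8]
    have := mul_le_mul_of_nonneg_left hsK hc3.le
    linarith
  rw [← hs]
  have h9 : x ≤ 4 / c₀ ^ 2 * Φ + 2 / c₀ ^ 2 * s + |Real.log c₀| + (3 / c₀ * s + 1) := by
    rw [h6, ← hu]
    linarith
  have n1 : 0 ≤ |Real.log c₀| * Φ := mul_nonneg hc1 hΦ0
  have n2 : 0 ≤ |Real.log c₀| * s := mul_nonneg hc1 hs0
  have n3 : 0 ≤ 4 / c₀ ^ 2 * s := mul_nonneg hc2.le hs0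
  have n4 : 0 ≤ 2 / c₀ ^ 2 * Φ := mul_nonneg hc3.le hΦ0
  have n5 : 0 ≤ 3 / c₀ * Φ := mul_nonneg hc4.le hΦ0
  have e9 : (1 + |Real.log c₀| + 4 / c₀ ^ 2 + 2 / c₀ ^ 2 + 3 / c₀) * (Φ + 1 + s) =
      (4 / c₀ ^ 2 * Φ + 2 / c₀ ^ 2 * s + |Real.log c₀| + (3 / c₀ * s + 1)) +
      (Φ + s + |Real.log c₀| * Φ + |Real.log c₀| * s + 4 / c₀ ^ 2 * s + 4 / c₀ ^ 2 +
        2 / c₀ ^ 2 * Φ + 2 / c₀ ^ 2 + 3 / c₀ * Φ + 3 / c₀) := by ring
  rw [e9]
  linarith

end Pool.Agent.W_7d29a1_SW
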