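import Pool.Agent.W_7d29a1_SW.LkB96
import Pool.Agent.W_7d29a1_SP.Step15

/-!
Theorem W: the nonrandom fluctuation from the bulk variance (leaf B2).
-/

namespace Pool.Agent.W_7d29a1_SW

open MeasureTheory ProbabilityTheory Filter Topology Pool.Agent.W_MP_7d29a1_pr
  Pool.Agent.W_7d29a1_h46 Pool.Agent.W_7d29a1_h46u Pool.Agent.W_7d29a1_D2.B35
  Pool.Agent.W_7d29a1_Q29 Pool.Agent.W_7d29a1_R34 Pool.Agent.W_7d29a1_SP

variable {ρ : Measure ℝ}

/-- The last step: from a lucky time to the bound of the scale. -/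
lemma last6 {C₂ e K q x Cx : ℝ} (hC₂ : 1 ≤ C₂) (he : 1 ≤ e) (hK : 1 ≤ K) (hq : 0 < q)
    (hq1 : q ≤ 1) (hx : 10 * C₂ * e ≤ x) (h : x ≤ C₂ * (8 * e + 1 + Real.sqrt (K / q)))
    (hKq : K / q ≤ Cx) : e ≤ Cx := by
  have h1 : 1 ≤ K / q := by
    rw [le_div_iff₀ hq]
    linarith
  have h2 : Real.sqrt (K / q) ≤ K / q := by
    rw [Real.sqrt_le_left (by linarith)]
    nlinarith
  have h3 : C₂ * (10 * e) ≤ C₂ * (8 * e + 1 + Real.sqrt (K / q)) := by
    calc C₂ * (10 * e) = 10 * C₂ * e := by ring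
      _ ≤ _ := hx.trans h
  have h4 := le_of_mul_le_mul_left h3 (by linarith)
  linarith

theorem beB6 [IsProbabilityMeasure ρ] (hρ : EM ρ) {β : ℝ} (hS : SeqP) (hA : AmpP 2 ρ β)
    (hSa : SaW 2 ρ β) (hVa : VaW 2 ρ β) (hL : LkB ρ β) : BeB ρ β := by
  intro c₀ θ hc₀ hθ hθ1 hθ2
  have hd : 0 < 2 := by norm_num
  obtain ⟨C₂, hC₂, hSa⟩ := hSa c₀ hc₀
  obtain ⟨C₄, hC₄, hVa⟩ := hVa c₀ hc₀
  obtain ⟨c₂, hc₂, hc₂1, hL⟩ := hL θ hθ hθ2
  obtain ⟨Ca, ca, hCa, hca, hA⟩ := hA (10 ^ 6 * C₂) (by nlinarith)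
  obtain ⟨a, ha⟩ : ∃ a : ℝ, a = 9 / (1280 ^ 2 * 64 * 260 * C₄) := ⟨_, rfl⟩
  have ha0 : 0 < a := by
    rw [ha]
    positivity
  have hk1 : 0 ≤ 1 / ca * (1 / a) ^ Ca := by positivity
  have hk2 : 0 ≤ 1 / ca * (1 / c₂) ^ Ca := by positivity
  obtain ⟨C, hC⟩ : ∃ C : ℝ, C = 1000 + 1 / ca * (1 / a) ^ Ca + 1 / ca * (1 / c₂) ^ Ca +
      3 * Ca := ⟨_, rfl⟩
  have hC1 : 1 ≤ C := by linarith
  refine ⟨C, hC1, ?_⟩
  intro h v g Q c R hloc hQ hc hP n k hk hEk1
  have hE0 : ∀ i, 0 ≤ En ρ β h i := En_nonneg15 hd hρ β h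
  obtain ⟨N, e, hN, he, hN2, ⟨t, htN, het⟩, hEk, hNE, hgood⟩ := hS (fun i => En ρ β h i) R
    (En_zero15 β h) hE0 (En_add15 hd hρ β h) hP.rate n k hk (by
      show 0 < En ρ β h k
      linarith)
  beta_reduce at hN2 het hEk hNE hgood
  have hN1 : (1 : ℝ) ≤ N := by exact_mod_cast hN
  refine ⟨N, e, hN, he, hEk, ?_, ?_⟩
  · have h1 : 1 ≤ En ρ β h k ^ 2 := one_le_pow₀ hEk1
    calc (N : ℝ) ≤ N * En ρ β h k ^ 2 := le_mul_of_one_le_right (by linarith) h1
      _ ≤ n * (2 * e) ^ 2 := hNE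
      _ = 4 * n * e ^ 2 := by ring
  obtain ⟨K, hK⟩ : ∃ K, K = kap Q c (4 * N) := ⟨_, rfl⟩
  obtain ⟨l, hl⟩ : ∃ l : ℝ, l = 1 + Real.log N := ⟨_, rfl⟩
  have hK1 : 1 ≤ K := by
    rw [hK]
    exact one_le_kap15 hQ hc _
  have hlN : 0 ≤ Real.log N := Real.log_nonneg hN1
  have hl1 : 1 ≤ l := by linarith
  rw [← hK, ← hl]
  have hKC : K ≤ K ^ C := by
    have := Real.rpow_le_rpow_of_exponent_le hK1 hC1
    rwa [Real.rpow_one] at this
  have hKC1 : 1 ≤ K ^ C := hK1.trans hKC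
  have hlC1 : 1 ≤ l ^ C := Real.one_le_rpow hl1 (by linarith)
  have hR0 := abs_nonneg R
  -- it suffices to bound `e` by one of the factors
  have hfin : ∀ x y z w : ℝ, 0 ≤ x → x ≤ C → 0 ≤ y → y ≤ 1 + |R| → 0 ≤ z → z ≤ K ^ C →
      0 ≤ w → w ≤ l ^ C → e ≤ x * y * z * w → e ≤ C * (1 + |R|) * K ^ C * l ^ C := by
    intro x y z w hx0 hx hy0 hy hz0 hz hw0 hw he
    refine he.trans ?_
    have e1 : x * y ≤ C * (1 + |R|) := mul_le_mul hx hy hy0 (by linarith)
    have e2 : x * y * z ≤ C * (1 + |R|) * K ^ C := mul_le_mul e1 hz hz0 (by positivity)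
    exact mul_le_mul e2 hw hw0 (by positivity)
  by_cases he240 : e < 240
  · exact hfin 240 1 1 1 (by norm_num) (by linarith) zero_le_one (by linarith) zero_le_one hKC1
      zero_le_one hlC1 (by linarith)
  push Not at he240
  by_cases hN1000 : N < 1000
  · have h1 := hP.rate t
    have ht0 : 1 ≤ t := by
      rcases Nat.eq_zero_or_pos t with h0 | h0
      · rw [h0, En_zero15] at het
        linarith
      · exact h0
    have h2 : (t : ℝ) ^ (49 / 100 : ℝ) ≤ 1000 := by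
      have h3 : (1 : ℝ) ≤ t := by exact_mod_cast ht0
      have h4 : (t : ℝ) ^ (49 / 100 : ℝ) ≤ (t : ℝ) ^ (1 : ℝ) :=
        Real.rpow_le_rpow_of_exponent_le h3 (by norm_num)
      rw [Real.rpow_one] at h4
      have h5 : (t : ℝ) ≤ 1000 := by exact_mod_cast (htN.trans hN1000.le)
      linarith
    have h3 : R * (t : ℝ) ^ (49 / 100 : ℝ) ≤ |R| * 1000 :=
      mul_le_mul (le_abs_self R) h2 (by positivity) (abs_nonneg R)
    exact hfin 1000 |R| 1 1 (by norm_num) (by linarith) hR0 (by linarith) zero_le_one hKC1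
      zero_le_one hlC1 (by linarith)
  push Not at hN1000
  -- the mean fluctuation up to `4 N`
  have hE8 : ∀ i : ℕ, i ≤ 4 * N → En ρ β h i ≤ 8 * e := by
    have hmul : ∀ b r : ℕ, r ≤ N → En ρ β h (b * N + r) ≤ b * (2 * e) + En ρ β h r := by
      intro b r hr
      induction b with
      | zero => simp
      | succ b ih =>
        have h1 := En_add15 (ρ := ρ) hd hρ β h N (b * N + r)
        have h2 := hN2 N le_rfl
        have h3 : (b + 1) * N + r = N + (b * N + r) := by ring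
        rw [h3]
        push_cast
        linarith
    intro i hi
    by_cases h4 : i = 4 * N
    · have h1 := hmul 4 0 (Nat.zero_le _)
      rw [add_zero, En_zero15] at h1
      rw [h4]
      push_cast at h1
      linarith
    · have hN0 : 0 < N := by omega
      have h1 := hmul (i / N) (i % N) (Nat.mod_lt _ hN0).le
      have h2 : i / N * N + i % N = i := by
        rw [mul_comm]
        exact Nat.div_add_mod i N
      rw [h2] at h1
      have h3 := hN2 (i % N) (Nat.mod_lt _ hN0).le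
      have h5 : i / N ≤ 3 := by
        have : i / N < 4 := by
          rw [Nat.div_lt_iff_lt_mul hN0]
          omega
        omega
      have h6 : ((i / N : ℕ) : ℝ) ≤ 3 := by exact_mod_cast h5
      have h7 : ((i / N : ℕ) : ℝ) * (2 * e) ≤ 3 * (2 * e) :=
        mul_le_mul_of_nonneg_right h6 (by linarith)
      linarith
  have hbulk : ∀ L : ℕ, L ≤ 4 * N → Vb ρ β h L ⌊θ * L⌋₊ ≤ K := by
    intro L hLN
    rw [hK]
    exact (hP.bulk L).trans (kap_mono15 hQ hc hLN)
  by_cases heK : e ^ 2 < 1 + K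
  · have h1 : e ≤ 2 * K := by
      have h2 : e * 1 ≤ e * e := mul_le_mul_of_nonneg_left (by linarith) he.le
      have h3 : e ^ 2 = e * e := by ring
      linarith
    exact hfin 2 1 K 1 (by norm_num) (by linarith) zero_le_one (by linarith) (by linarith) hKC
      zero_le_one hlC1 (by linarith)
  push Not at heK
  have heX : 1 ≤ e := by linarith
  -- counting
  have hcount : ∀ (m : ℕ) (s₀ s₁ q : ℝ), 1 ≤ m → m ≤ 2 * N → 0 < q → s₀ ≤ s₁ →
      A ρ β h m ≤ s₁ + 10 ^ 6 * C₂ * (s₁ - s₀) - 10 * C₂ * e →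
      q ≤ (law 2 ρ).real {η | X β h η m ≤ s₀} → q ≤ (law 2 ρ).real {η | s₁ < X β h η m} →
      e ≤ K / (ca * q ^ Ca) := by
    intro m s₀ s₁ q hm1 hm2 hq hs hx hq1 hq2
    have h1 := hA h m s₀ s₁ q hq hs hq1 hq2
    have hp : 0 < ca * q ^ Ca := by positivity
    obtain ⟨x, hxd⟩ : ∃ x : ℝ, x = s₁ + 10 ^ 6 * C₂ * (s₁ - s₀) - A ρ β h m := ⟨_, rfl⟩
    have h2 : ca * q ^ Ca ≤ (law 2 ρ).real {η | A ρ β h m + x ≤ X β h η m} := by
      refine h1.trans (measureReal_mono fun η hη => ?_)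
      have hη' : s₁ + 10 ^ 6 * C₂ * (s₁ - s₀) < X β h η m := hη
      show A ρ β h m + x ≤ X β h η m
      rw [hxd]
      linarith
    have h3 := hSa h hloc θ hθ hθ1 m x (ca * q ^ Ca) K (8 * e) hm1 hp (by linarith)
      (fun L hL => hbulk L (by omega)) (fun i hi => hE8 i (by omega)) h2
    exact last6 hC₂ heX hK1 hp (h2.trans measureReal_le_one) (by
      rw [hxd]
      linarith) h3 le_rfl
  by_cases hF : ∃ m : ℕ, m ≤ 2 * N ∧ e / 1280 ≤ Fn ρ β h m
  · -- the random fluctuation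
    obtain ⟨m, hm, hFm⟩ := hF
    obtain ⟨F, hFd⟩ : ∃ F, F = Fn ρ β h m := ⟨_, rfl⟩
    have hF0 : 0 < Fn ρ β h m := by linarith
    have hm1 : 1 ≤ m := by
      rcases Nat.eq_zero_or_pos m with h0 | h0
      · rw [h0, Fn_zero15] at hF0
        exact absurd hF0 (lt_irrefl _)
      · exact h0
    have hup := up15 (ρ := ρ) (d := 2) hd hρ β h m hF0
    have hlo := low15 (ρ := ρ) (d := 2) hd hρ β h m hF0
    rw [← hFd] at hup hlo hFm
    have hV := hVa h hloc θ hθ hθ1 m K (8 * e) hm1 (by linarith)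
      (fun L hL => hbulk L (by omega)) (fun i hi => hE8 i (by omega))
    have hmR : (1 : ℝ) ≤ m := by exact_mod_cast hm1
    have hlm : Real.log m ≤ 1 + Real.log N := by
      have h1 : (m : ℝ) ≤ 2 * N := by exact_mod_cast hm
      have h2 := Real.log_le_log (by linarith) h1
      rw [Real.log_mul (by norm_num) (by linarith)] at h2
      have := Real.log_two_lt_d9
      linarith
    have hlm0 : 0 ≤ Real.log m := Real.log_nonneg hmR
    have hV2 : Va ρ β h m ≤ 260 * C₄ * l ^ 2 * e ^ 2 := by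
      refine hV.trans ?_
      have h1 : (1 + Real.log m) ^ 2 ≤ (2 * l) ^ 2 :=
        pow_le_pow_left₀ (by linarith) (by linarith) 2
      have h2 : 1 + K + (8 * e) ^ 2 ≤ 65 * e ^ 2 := by
        have : (8 * e) ^ 2 = 64 * e ^ 2 := by ring
        linarith
      calc C₄ * (1 + Real.log m) ^ 2 * (1 + K + (8 * e) ^ 2)
          ≤ C₄ * (2 * l) ^ 2 * (65 * e ^ 2) := by
            refine mul_le_mul (mul_le_mul_of_nonneg_left h1 (by linarith)) h2 (by positivity)
              (by positivity)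
        _ = 260 * C₄ * l ^ 2 * e ^ 2 := by ring
    have hqq : ∀ p : ℝ, 0 ≤ p → 9 * F ^ 2 / 64 ≤ Va ρ β h m * p → a / l ^ 2 ≤ p := by
      intro p hp0 hp
      have h1 : 9 * (e / 1280) ^ 2 / 64 ≤ 260 * C₄ * l ^ 2 * e ^ 2 * p := by
        have h2 : (e / 1280) ^ 2 ≤ F ^ 2 := pow_le_pow_left₀ (by positivity) hFm 2
        have h3 := mul_le_mul_of_nonneg_right hV2 hp0
        linarith
      have he2 : 0 < e ^ 2 := by positivity
      rw [div_le_iff₀ (by positivity), ha, div_le_iff₀ (by positivity)]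
      have h4 : e ^ 2 * 9 ≤ e ^ 2 * (p * l ^ 2 * (1280 ^ 2 * 64 * 260 * C₄)) := by
        have h5 : 9 * (e / 1280) ^ 2 / 64 * (1280 ^ 2 * 64) = e ^ 2 * 9 := by ring
        have h6 : 260 * C₄ * l ^ 2 * e ^ 2 * p * (1280 ^ 2 * 64) =
            e ^ 2 * (p * l ^ 2 * (1280 ^ 2 * 64 * 260 * C₄)) := by ring
        rw [← h5, ← h6]
        exact mul_le_mul_of_nonneg_right h1 (by norm_num)
      exact le_of_mul_le_mul_left h4 he2
    have hF1 : e / 1280 ≤ F := hFm
    have hq0 : 0 < a / l ^ 2 := by positivity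
    have hmain := hcount m (A ρ β h m - F / 8) (A ρ β h m + F / 8) (a / l ^ 2) hm1 hm hq0
      (by linarith) (by
        have h1 : 10 * C₂ * e ≤ 10 ^ 6 * C₂ * (F / 4) := by
          have h2 : C₂ * e ≤ C₂ * (1280 * F) := mul_le_mul_of_nonneg_left (by linarith) (by linarith)
          nlinarith [mul_nonneg (show (0 : ℝ) ≤ C₂ by linarith) (show (0 : ℝ) ≤ F by linarith)]
        have h3 : A ρ β h m + F / 8 - (A ρ β h m - F / 8) = F / 4 := by ring
        rw [h3]
        linarith) (hqq _ measureReal_nonneg hlo) (hqq _ measureReal_nonneg hup)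
    have hl2C : (l ^ 2) ^ Ca ≤ l ^ C := by
      rw [← Real.rpow_natCast, ← Real.rpow_mul (by linarith)]
      exact Real.rpow_le_rpow_of_exponent_le hl1 (by push_cast; linarith)
    refine hfin (1 / ca * (1 / a) ^ Ca) 1 K ((l ^ 2) ^ Ca) hk1 (by linarith) zero_le_one
      (by linarith) (by linarith) hKC (by positivity) hl2C (hmain.trans (le_of_eq ?_))
    rw [Real.div_rpow ha0.le (by positivity), Real.div_rpow zero_le_one ha0.le, Real.one_rpow]
    have h1 : 0 < a ^ Ca := by positivity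
    have h2 : 0 < (l ^ 2) ^ Ca := by positivity
    field_simp
  · -- luck
    push Not at hF
    obtain ⟨L, S, hcard, hSt⟩ := hgood hN1000
    obtain ⟨m, hm1, hm2, hm3⟩ := hL h v N L e K S hN1000 he240 hK1
      (fun hLN => hbulk L (by omega))
      (fun hLN t ht => (mass_mono96 β h v ht (mul_le_mul_of_nonneg_right (by
        rw [hK]
        exact kap_mono15 hQ hc (by omega)) (Real.sqrt_nonneg _))).trans (hP.loc L t ht))
      (fun i hi => (hF i hi).le) hcard hSt
    have hK3 : 0 < K ^ 3 := by positivity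
    have hmk := mk15 (ρ := ρ) (d := 2) hd hρ β h m (s := e / 320) (by positivity) (by
      have := hF m (by omega)
      linarith)
    have hq1 : c₂ / K ^ 3 ≤ 1 / 2 := by
      rw [div_le_iff₀ hK3]
      have : 1 ≤ K ^ 3 := one_le_pow₀ hK1
      linarith
    have hmain := hcount m (A ρ β h m + e / 320) (A ρ β h m + e / 80) (c₂ / K ^ 3) hm1 (by omega)
      (by positivity) (by linarith) (by
        have h3 : A ρ β h m + e / 80 - (A ρ β h m + e / 320) = 3 * e / 320 := by ring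
        rw [h3]
        nlinarith [mul_nonneg (show (0 : ℝ) ≤ C₂ by linarith) he.le]) (by linarith) hm3
    have hK3C : K * (K ^ 3) ^ Ca ≤ K ^ C := by
      have h1 : K * (K ^ 3) ^ Ca = K ^ (1 + 3 * Ca) := by
        rw [← Real.rpow_natCast, ← Real.rpow_mul (by linarith), Real.rpow_add (by linarith),
          Real.rpow_one]
        norm_num
      rw [h1]
      exact Real.rpow_le_rpow_of_exponent_le hK1 (by linarith)
    refine hfin (1 / ca * (1 / c₂) ^ Ca) 1 (K * (K ^ 3) ^ Ca) 1 hk2 (by linarith) zero_le_one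
      (by linarith) (by positivity) hK3C zero_le_one hlC1 (hmain.trans (le_of_eq ?_))
    rw [Real.div_rpow hc₂.le (by positivity), Real.div_rpow zero_le_one hc₂.le, Real.one_rpow]
    have h1 : 0 < c₂ ^ Ca := by positivity
    have h2 : 0 < (K ^ 3) ^ Ca := by positivity
    field_simp

end Pool.Agent.W_7d29a1_SW
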