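import Pool.Agent.W_7d29a1_SW.DefsW
import Pool.Agent.W_7d29a1_Q29.Ce39
import Pool.Agent.W_7d29a1_h46u.ConcV

/-!
Theorem W, leaf C3: from the tails of the resampling to the bulk variance.
-/

namespace Pool.Agent.W_7d29a1_SW

open MeasureTheory ProbabilityTheory Filter Topology Pool.Agent.W_MP_7d29a1_pr
  Pool.Agent.W_7d29a1_h46 Pool.Agent.W_7d29a1_h46u Pool.Agent.W_7d29a1_D2.B35
  Pool.Agent.W_7d29a1_Q29 Pool.Agent.W_7d29a1_R34 Pool.Agent.W_7d29a1_SP Pool.Agent.W_7d29a1_SD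

open Classical in
/-- Layers, below the last threshold. -/
lemma lay1_66 {C D : ℝ} (hC : 0 ≤ C) (m : ℕ) (h : |D| ≤ C * 2 ^ m) :
    D ^ 2 ≤ C ^ 2 + ∑ j ∈ Finset.range m,
      (4 : ℝ) ^ (j + 1) * C ^ 2 * (if C * 2 ^ j < |D| then 1 else 0) := by
  induction m with
  | zero =>
    rw [Finset.sum_range_zero, add_zero, ← sq_abs D]
    exact pow_le_pow_left₀ (abs_nonneg D) (by simpa using h) 2
  | succ m ih =>
    rw [Finset.sum_range_succ]
    by_cases h1 : |D| ≤ C * 2 ^ m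
    · have h2 := ih h1
      have h3 : 0 ≤ (4 : ℝ) ^ (m + 1) * C ^ 2 * (if C * 2 ^ m < |D| then 1 else 0) := by
        split_ifs <;> positivity
      linarith
    · rw [if_pos (lt_of_not_ge h1)]
      have h2 : 0 ≤ ∑ j ∈ Finset.range m,
          (4 : ℝ) ^ (j + 1) * C ^ 2 * (if C * 2 ^ j < |D| then 1 else 0) :=
        Finset.sum_nonneg fun j _ => by split_ifs <;> positivity
      have h3 : D ^ 2 ≤ (C * 2 ^ (m + 1)) ^ 2 := by
        rw [← sq_abs D]
        exact pow_le_pow_left₀ (abs_nonneg D) h 2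
      have h4 : (C * 2 ^ (m + 1)) ^ 2 = (4 : ℝ) ^ (m + 1) * C ^ 2 := by
        rw [mul_pow, ← pow_mul, mul_comm (m + 1) 2, pow_mul]
        norm_num
        ring
      rw [h4] at h3
      have h5 : 0 ≤ C ^ 2 := sq_nonneg C
      linarith

open Classical in
/-- Layers, with the tail. -/
lemma lay2_66 {C D : ℝ} (hC : 0 < C) (m : ℕ) :
    D ^ 2 ≤ C ^ 2 + (∑ j ∈ Finset.range m,
      (4 : ℝ) ^ (j + 1) * C ^ 2 * (if C * 2 ^ j < |D| then 1 else 0)) +
        D ^ 4 / (C * 2 ^ m) ^ 2 := by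
  have hT : 0 < C * 2 ^ m := by positivity
  by_cases h : |D| ≤ C * 2 ^ m
  · have h1 := lay1_66 hC.le m h
    have h2 : 0 ≤ D ^ 4 / (C * 2 ^ m) ^ 2 := by positivity
    linarith
  · have h1 : (C * 2 ^ m) ^ 2 ≤ D ^ 2 := by
      rw [← sq_abs D]
      exact pow_le_pow_left₀ hT.le (lt_of_not_ge h).le 2
    have h2 : D ^ 2 ≤ D ^ 4 / (C * 2 ^ m) ^ 2 := by
      rw [le_div_iff₀ (by positivity)]
      have h3 : 0 ≤ D ^ 2 := sq_nonneg D
      nlinarith
    have h3 : 0 ≤ ∑ j ∈ Finset.range m,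
        (4 : ℝ) ^ (j + 1) * C ^ 2 * (if C * 2 ^ j < |D| then 1 else 0) :=
      Finset.sum_nonneg fun j _ => by split_ifs <;> positivity
    have h4 : 0 ≤ C ^ 2 := sq_nonneg C
    linarith

/-- Jensen for the square. -/
lemma jsq66 {Ω : Type*} [MeasurableSpace Ω] (μ : Measure Ω) [IsProbabilityMeasure μ] {f : Ω → ℝ}
    (hm : AEStronglyMeasurable f μ) (h : Integrable (fun x => f x ^ 2) μ) :
    (∫ x, f x ∂μ) ^ 2 ≤ ∫ x, f x ^ 2 ∂μ := by
  have h2 : MemLp f 2 μ := (memLp_two_iff_integrable_sq hm).2 h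
  have h1 := variance_nonneg f μ
  rw [variance_eq_sub h2] at h1
  simp only [Pi.pow_apply] at h1
  linarith

variable {d : ℕ} {ρ : Measure ℝ}

/-- One length. -/
lemma one66 [IsProbabilityMeasure ρ] (hd : 0 < d) (hρ : EM ρ) {β : ℝ} (h : Vec d) {n : ℕ}
    (hn : 1 ≤ n) {B C : ℝ} (hC : 0 < C) (p m : ℕ)
    (hi : Integrable (fun η => |X β h η n - A ρ β h n| ^ 4) (law d ρ))
    (hB : ∫ η, |X β h η n - A ρ β h n| ^ 4 ∂(law d ρ) ≤ B) :
    Vb ρ β h n p ≤ C ^ 2 + (∑ j ∈ Finset.range m, (4 : ℝ) ^ (j + 1) * C ^ 2 *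
      ((law d ρ).prod (law d ρ)).real
        {w | C * 2 ^ j < |X β h w.1 n - X β h (spl (Pa d p) w.1 w.2) n|}) +
        16 * B / (C * 2 ^ m) ^ 2 := by
  classical
  set μ := law d ρ with hμ
  set Y : Env d → ℝ := fun η => X β h η n - A ρ β h n with hY
  have hYm : Measurable Y := (measurable_X β h n).sub_const _
  set D : Env d × Env d → ℝ := fun w => Y w.1 - Y (spl (Pa d p) w.1 w.2) with hD
  have hDm : Measurable D := (hYm.comp measurable_fst).sub (hYm.comp (measurable_spl (Pa d p)))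
  have hY4 : Integrable (fun η => Y η ^ 4) μ := by
    refine hi.congr (Eventually.of_forall fun η => ?_)
    show |Y η| ^ 4 = Y η ^ 4
    rw [show (4 : ℕ) = 2 * 2 from rfl, pow_mul, pow_mul, sq_abs]
  have hB' : ∫ η, Y η ^ 4 ∂μ ≤ B := by
    refine le_trans (le_of_eq (integral_congr_ae (Eventually.of_forall fun η => ?_))) hB
    show Y η ^ 4 = |Y η| ^ 4
    rw [show (4 : ℕ) = 2 * 2 from rfl, pow_mul, pow_mul, sq_abs]
  have h1i : Integrable (fun w : Env d × Env d => Y w.1 ^ 4) (μ.prod μ) := hY4.comp_fst μ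
  have h2i : Integrable (fun w : Env d × Env d => Y (spl (Pa d p) w.1 w.2) ^ 4) (μ.prod μ) :=
    (mp_spl (ρ := ρ) (Pa d p)).integrable_comp_of_integrable hY4
  have e1 : ∫ w, Y w.1 ^ 4 ∂(μ.prod μ) = ∫ η, Y η ^ 4 ∂μ := by
    rw [integral_prod _ h1i]
    simp
  have e2 : ∫ w, Y (spl (Pa d p) w.1 w.2) ^ 4 ∂(μ.prod μ) = ∫ η, Y η ^ 4 ∂μ :=
    LawU_integral (F := fun g => Y g ^ 4) (mp_spl (ρ := ρ) (Pa d p)) hY4.aestronglyMeasurable
  have hpt : ∀ w, D w ^ 4 ≤ 8 * (Y w.1 ^ 4 + Y (spl (Pa d p) w.1 w.2) ^ 4) := by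
    intro w
    show (Y w.1 - Y (spl (Pa d p) w.1 w.2)) ^ 4 ≤ _
    obtain ⟨a, ha⟩ : ∃ a, a = Y w.1 := ⟨_, rfl⟩
    obtain ⟨b, hb⟩ : ∃ b, b = Y (spl (Pa d p) w.1 w.2) := ⟨_, rfl⟩
    rw [← ha, ← hb]
    have h3 : (a - b) ^ 2 ≤ 2 * a ^ 2 + 2 * b ^ 2 := by nlinarith [sq_nonneg (a + b)]
    have h4 : ((a - b) ^ 2) ^ 2 ≤ (2 * a ^ 2 + 2 * b ^ 2) ^ 2 :=
      pow_le_pow_left₀ (sq_nonneg _) h3 2
    nlinarith [sq_nonneg (a ^ 2 - b ^ 2)]
  have hD4 : Integrable (fun w => D w ^ 4) (μ.prod μ) := by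
    refine Integrable.mono' ((h1i.add h2i).const_mul 8) (hDm.pow_const 4).aestronglyMeasurable
      (Eventually.of_forall fun w => ?_)
    rw [Real.norm_eq_abs, abs_of_nonneg (by positivity)]
    exact hpt w
  have hD4e : ∫ w, D w ^ 4 ∂(μ.prod μ) ≤ 16 * B := by
    have h3 := integral_mono hD4 ((h1i.add h2i).const_mul 8) hpt
    have h4 : ∫ w, 8 * ((fun w : Env d × Env d => Y w.1 ^ 4) +
        fun w : Env d × Env d => Y (spl (Pa d p) w.1 w.2) ^ 4) w ∂(μ.prod μ) =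
        8 * (∫ η, Y η ^ 4 ∂μ + ∫ η, Y η ^ 4 ∂μ) := by
      rw [integral_const_mul, integral_add' h1i h2i, e1, e2]
    rw [h4] at h3
    linarith
  have hD2 : Integrable (fun w => D w ^ 2) (μ.prod μ) := by
    refine Integrable.mono' ((integrable_const (1 : ℝ)).add hD4)
      (hDm.pow_const 2).aestronglyMeasurable (Eventually.of_forall fun w => ?_)
    rw [Real.norm_eq_abs, abs_of_nonneg (by positivity)]
    show D w ^ 2 ≤ 1 + D w ^ 4
    nlinarith [sq_nonneg (D w ^ 2 - 1), sq_nonneg (D w)]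
  -- Jensen
  have hJ : Vb ρ β h n p ≤ ∫ w, D w ^ 2 ∂(μ.prod μ) := by
    rw [integral_prod _ hD2]
    have h3 : ∀ᵐ η ∂μ, Integrable (fun ξ => D (η, ξ) ^ 2) μ := hD2.prod_right_ae
    have h5 : ∀ᵐ η ∂μ, (X β h η n - cE ρ (Pa d p) (fun ζ => X β h ζ n) η) ^ 2 ≤
        ∫ ξ, D (η, ξ) ^ 2 ∂μ := by
      filter_upwards [h3] with η hη
      have hm1 : Measurable fun ξ : Env d => D (η, ξ) := hDm.comp measurable_prodMk_left
      have h6 := jsq66 μ hm1.aestronglyMeasurable hη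
      have h7 : Integrable (fun ξ => D (η, ξ)) μ :=
        ((memLp_two_iff_integrable_sq hm1.aestronglyMeasurable).2 hη).integrable (by norm_num)
      have h8 : ∫ ξ, D (η, ξ) ∂μ = X β h η n - cE ρ (Pa d p) (fun ζ => X β h ζ n) η := by
        have h9 : Integrable (fun ξ : Env d => X β h (spl (Pa d p) η ξ) n) μ := by
          have h10 : (fun ξ : Env d => X β h (spl (Pa d p) η ξ) n) =
              fun ξ => X β h η n - D (η, ξ) := by
            funext ξ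
            show _ = X β h η n - ((X β h η n - A ρ β h n) -
              (X β h (spl (Pa d p) η ξ) n - A ρ β h n))
            ring
          rw [h10]
          exact (integrable_const _).sub h7
        have h11 : (fun ξ => D (η, ξ)) = fun ξ => X β h η n - X β h (spl (Pa d p) η ξ) n := by
          funext ξ
          show (X β h η n - A ρ β h n) - (X β h (spl (Pa d p) η ξ) n - A ρ β h n) = _
          ring
        rw [h11, integral_sub (integrable_const _) h9]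
        simp [cE, hμ]
      rw [h8] at h6
      exact h6
    have h12 : Integrable (fun η => ∫ ξ, D (η, ξ) ^ 2 ∂μ) μ := hD2.integral_prod_left
    exact integral_mono_of_nonneg (Eventually.of_forall fun η => sq_nonneg _) h12 h5
  -- layers
  have hS : ∀ j : ℕ, MeasurableSet {w : Env d × Env d | C * 2 ^ j < |D w|} := fun j =>
    measurableSet_lt measurable_const hDm.abs
  have hind : ∀ j : ℕ, (fun w => if C * 2 ^ j < |D w| then (1 : ℝ) else 0) =
      Set.indicator {w | C * 2 ^ j < |D w|} fun _ => (1 : ℝ) := by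
    intro j
    funext w
    by_cases hw : C * 2 ^ j < |D w|
    · rw [if_pos hw, Set.indicator_of_mem (show w ∈ {w | C * 2 ^ j < |D w|} from hw)]
    · rw [if_neg hw, Set.indicator_of_notMem (show w ∉ {w | C * 2 ^ j < |D w|} from hw)]
  have hii : ∀ j : ℕ, Integrable (fun w => (4 : ℝ) ^ (j + 1) * C ^ 2 *
      (if C * 2 ^ j < |D w| then (1 : ℝ) else 0)) (μ.prod μ) := by
    intro j
    refine Integrable.const_mul ?_ _
    rw [hind j]
    exact (integrable_const (1 : ℝ)).indicator (hS j)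
  have hie : ∀ j : ℕ, ∫ w, (4 : ℝ) ^ (j + 1) * C ^ 2 *
      (if C * 2 ^ j < |D w| then (1 : ℝ) else 0) ∂(μ.prod μ) =
      (4 : ℝ) ^ (j + 1) * C ^ 2 * (μ.prod μ).real
        {w | C * 2 ^ j < |X β h w.1 n - X β h (spl (Pa d p) w.1 w.2) n|} := by
    intro j
    rw [integral_const_mul, hind j, integral_indicator_const _ (hS j), smul_eq_mul, mul_one]
    congr 2
    ext w
    show C * 2 ^ j < |(X β h w.1 n - A ρ β h n) - (X β h (spl (Pa d p) w.1 w.2) n -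
      A ρ β h n)| ↔ _
    rw [show (X β h w.1 n - A ρ β h n) - (X β h (spl (Pa d p) w.1 w.2) n - A ρ β h n) =
      X β h w.1 n - X β h (spl (Pa d p) w.1 w.2) n by ring]
    rfl
  have hsum : Integrable (fun w => ∑ j ∈ Finset.range m, (4 : ℝ) ^ (j + 1) * C ^ 2 *
      (if C * 2 ^ j < |D w| then (1 : ℝ) else 0)) (μ.prod μ) :=
    integrable_finsetSum _ fun j _ => hii j
  have hi3 : Integrable (fun w => C ^ 2 + ∑ j ∈ Finset.range m, (4 : ℝ) ^ (j + 1) * C ^ 2 *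
      (if C * 2 ^ j < |D w| then (1 : ℝ) else 0)) (μ.prod μ) := (integrable_const (C ^ 2)).add hsum
  have hi4 : Integrable (fun w => D w ^ 4 / (C * 2 ^ m) ^ 2) (μ.prod μ) := hD4.div_const _
  have h13 : ∫ w, D w ^ 2 ∂(μ.prod μ) ≤ ∫ w, (C ^ 2 + (∑ j ∈ Finset.range m,
      (4 : ℝ) ^ (j + 1) * C ^ 2 * (if C * 2 ^ j < |D w| then (1 : ℝ) else 0)) +
      D w ^ 4 / (C * 2 ^ m) ^ 2) ∂(μ.prod μ) :=
    integral_mono hD2 (hi3.add hi4) fun w => lay2_66 (D := D w) hC m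
  have h14 : ∫ w, (C ^ 2 + (∑ j ∈ Finset.range m,
      (4 : ℝ) ^ (j + 1) * C ^ 2 * (if C * 2 ^ j < |D w| then (1 : ℝ) else 0)) +
      D w ^ 4 / (C * 2 ^ m) ^ 2) ∂(μ.prod μ) =
      C ^ 2 + (∑ j ∈ Finset.range m, (4 : ℝ) ^ (j + 1) * C ^ 2 *
        (μ.prod μ).real {w | C * 2 ^ j < |X β h w.1 n - X β h (spl (Pa d p) w.1 w.2) n|}) +
        (∫ w, D w ^ 4 ∂(μ.prod μ)) / (C * 2 ^ m) ^ 2 := by
    rw [integral_add hi3 hi4, integral_add (integrable_const (C ^ 2)) hsum, integral_div,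
      integral_finsetSum _ fun j _ => hii j, Finset.sum_congr rfl fun j _ => hie j]
    simp
  rw [h14] at h13
  have h15 : (∫ w, D w ^ 4 ∂(μ.prod μ)) / (C * 2 ^ m) ^ 2 ≤ 16 * B / (C * 2 ^ m) ^ 2 :=
    div_le_div_of_nonneg_right hD4e (by positivity)
  linarith

/-- **Leaf C3.** -/
theorem bkW66 [IsProbabilityMeasure ρ] (hd : 0 < d) (hρ : EM ρ) (β : ℝ) : BkW d ρ β := by
  intro h c θ C₁ κ n₁ hc hC₁ hκ hRS
  obtain ⟨C4, hC4, hmom⟩ := momU (ρ := ρ) hd hρ β 4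
  obtain ⟨κ', hκ'⟩ : ∃ κ' : ℝ, κ' = min κ 1 := ⟨_, rfl⟩
  have hκ0 : 0 < κ' := by
    rw [hκ']
    exact lt_min hκ one_pos
  have hκ1 : κ' ≤ 1 := by
    rw [hκ']
    exact min_le_right _ _
  have hκk : κ' ≤ κ := by
    rw [hκ']
    exact min_le_left _ _
  obtain ⟨n₂, hn₂⟩ : ∃ n₂ : ℕ, n₂ = n₁ + ⌈1 / κ' ^ 2⌉₊ + 1 := ⟨_, rfl⟩
  obtain ⟨V, hV⟩ : ∃ V : ℝ, V = ∑ n ∈ Finset.range n₂, Vb ρ β h n ⌊θ * n⌋₊ := ⟨_, rfl⟩
  have hVb0 : ∀ n p : ℕ, 0 ≤ Vb ρ β h n p := fun n p => integral_nonneg fun η => sq_nonneg _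
  have hV0 : 0 ≤ V := by
    rw [hV]
    exact Finset.sum_nonneg fun n _ => hVb0 _ _
  have hlog2 : (1 : ℝ) / 2 ≤ Real.log 2 := by
    have := Real.log_two_gt_d9
    linarith
  refine ⟨V + (C₁ ^ 2 + 80 * C₁ ^ 2 + 16 * C4 / κ' ^ 4), by positivity, fun n => ?_⟩
  have hf1 : 1 ≤ Real.exp (c * Real.sqrt (Real.log n)) :=
    Real.one_le_exp (mul_nonneg hc.le (Real.sqrt_nonneg _))
  have hl0 : 0 ≤ Real.log n := Real.log_natCast_nonneg n
  have hfl : 1 ≤ Real.exp (c * Real.sqrt (Real.log n)) * (1 + Real.log n) := by nlinarith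
  have hfl' : ∀ a : ℝ, 0 ≤ a → a ≤ a * Real.exp (c * Real.sqrt (Real.log n)) * (1 + Real.log n) := by
    intro a ha
    rw [mul_assoc]
    nlinarith
  rcases lt_or_ge n n₂ with hn | hn
  · have h1 : Vb ρ β h n ⌊θ * n⌋₊ ≤ V := by
      rw [hV]
      exact Finset.single_le_sum (f := fun n : ℕ => Vb ρ β h n ⌊θ * n⌋₊)
        (fun n _ => hVb0 _ _) (Finset.mem_range.2 hn)
    have h2 : 0 ≤ C₁ ^ 2 + 80 * C₁ ^ 2 + 16 * C4 / κ' ^ 4 := by positivity
    exact h1.trans ((by linarith : V ≤ V + (C₁ ^ 2 + 80 * C₁ ^ 2 + 16 * C4 / κ' ^ 4)).trans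
      (hfl' _ (by positivity)))
  · have hn1 : 1 ≤ n := by omega
    have hnp : (0 : ℝ) < n := by exact_mod_cast hn1
    have hn₁ : n₁ ≤ n := by omega
    have hκn : 1 ≤ κ' ^ 2 * n := by
      have h1 : 1 / κ' ^ 2 ≤ n := by
        refine (Nat.le_ceil _).trans ?_
        have : ⌈1 / κ' ^ 2⌉₊ ≤ n := by omega
        exact_mod_cast this
      rw [div_le_iff₀ (by positivity)] at h1
      linarith
    obtain ⟨a, ha⟩ : ∃ a : ℕ, a = ⌊κ' ^ 2 * n⌋₊ := ⟨_, rfl⟩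
    have ha1 : 1 ≤ a := by
      rw [ha]
      exact Nat.le_floor (by simpa using hκn)
    have ha2 : (a : ℝ) ≤ κ' ^ 2 * n := by
      rw [ha]
      exact Nat.floor_le (by positivity)
    have ha3 : κ' ^ 2 * n < a + 1 := by
      rw [ha]
      exact Nat.lt_floor_add_one _
    obtain ⟨J, hJ⟩ : ∃ J : ℕ, J = Nat.log 2 a := ⟨_, rfl⟩
    have hJ1 : (2 : ℝ) ^ J ≤ κ' ^ 2 * n := by
      have h1 : 2 ^ J ≤ a := by
        rw [hJ]
        exact Nat.pow_log_le_self 2 (by omega)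
      have h2 : (2 : ℝ) ^ J ≤ a := by exact_mod_cast h1
      exact h2.trans ha2
    have hJ2 : κ' ^ 2 * n ≤ 2 ^ (J + 1) := by
      have h1 : a + 1 ≤ 2 ^ (J + 1) := by
        rw [hJ]
        exact Nat.lt_pow_succ_log_self (by norm_num) a
      have h2 : (a : ℝ) + 1 ≤ 2 ^ (J + 1) := by exact_mod_cast h1
      linarith
    have hC0 : (0 : ℝ) < C₁ := by linarith
    obtain ⟨hi, hb⟩ := hmom h n hn1
    have hb' : ∫ η, |X β h η n - A ρ β h n| ^ 4 ∂(law d ρ) ≤ C4 * (n : ℝ) ^ 2 := by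
      refine hb.trans (le_of_eq ?_)
      congr 1
      rw [show ((1 / 2 : ℝ) * ((4 : ℕ) : ℝ)) = ((2 : ℕ) : ℝ) by norm_num, Real.rpow_natCast]
    have h1 := one66 (ρ := ρ) hd hρ h hn1 hC0 ⌊θ * n⌋₊ (J + 1) hi hb'
    -- the layers
    have h2 : ∀ j ∈ Finset.range (J + 1), (4 : ℝ) ^ (j + 1) * C₁ ^ 2 *
        ((law d ρ).prod (law d ρ)).real
          {w | C₁ * 2 ^ j < |X β h w.1 n - X β h (spl (Pa d ⌊θ * n⌋₊) w.1 w.2) n|} ≤
        40 * C₁ ^ 2 * Real.exp (c * Real.sqrt (Real.log n)) := by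
      intro j hj
      have hj' : j ≤ J := by
        have := Finset.mem_range.1 hj
        omega
      have h3 : (1 : ℝ) ≤ 2 ^ j := one_le_pow₀ (by norm_num)
      have h4 : (2 : ℝ) ^ j ≤ κ' ^ 2 * n := (pow_le_pow_right₀ (by norm_num) hj').trans hJ1
      obtain ⟨R, hR⟩ : ∃ R : ℝ, R = Real.sqrt (2 ^ j) := ⟨_, rfl⟩
      have hR2 : R ^ 2 = 2 ^ j := by
        rw [hR]
        exact Real.sq_sqrt (by positivity)
      have hR0 : 0 ≤ R := by
        rw [hR]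
        exact Real.sqrt_nonneg _
      have hR1 : 1 ≤ R := by
        rw [hR]
        exact Real.one_le_sqrt.2 h3
      have hRk : R ≤ κ * Real.sqrt n := by
        have h5 : R ≤ κ' * Real.sqrt n := by
          refine abs_le_of_sq_le_sq' ?_ (by positivity) |>.2
          rw [hR2, mul_pow, Real.sq_sqrt hnp.le]
          exact h4
        exact h5.trans (mul_le_mul_of_nonneg_right hκk (Real.sqrt_nonneg _))
      have h6 := hRS n hn₁ R hR1 hRk
      unfold RS at h6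
      rw [hR2, show R ^ 4 = (4 : ℝ) ^ j by
        rw [show (4 : ℕ) = 2 * 2 from rfl, pow_mul, hR2, ← pow_mul, mul_comm j 2, pow_mul]
        norm_num] at h6
      have h7 : (0 : ℝ) < 4 ^ j := by positivity
      calc (4 : ℝ) ^ (j + 1) * C₁ ^ 2 * ((law d ρ).prod (law d ρ)).real
            {w | C₁ * 2 ^ j < |X β h w.1 n - X β h (spl (Pa d ⌊θ * n⌋₊) w.1 w.2) n|}
          ≤ (4 : ℝ) ^ (j + 1) * C₁ ^ 2 *
            (10 * (Real.exp (c * Real.sqrt (Real.log n)) / 4 ^ j)) :=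
            mul_le_mul_of_nonneg_left h6 (by positivity)
        _ = 40 * C₁ ^ 2 * Real.exp (c * Real.sqrt (Real.log n)) := by
            rw [pow_succ]
            field_simp
            ring
    have h3 := Finset.sum_le_sum h2
    rw [Finset.sum_const, Finset.card_range, nsmul_eq_mul] at h3
    -- the number of layers
    have hJl : ((J + 1 : ℕ) : ℝ) ≤ 2 * (1 + Real.log n) := by
      have h5 : (2 : ℝ) ^ J ≤ n := by
        refine hJ1.trans ?_
        have : κ' ^ 2 ≤ 1 := by nlinarith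
        nlinarith
      have h6 := Real.log_le_log (by positivity) h5
      rw [Real.log_pow] at h6
      have h7 : (J : ℝ) * (1 / 2) ≤ J * Real.log 2 :=
        mul_le_mul_of_nonneg_left hlog2 (Nat.cast_nonneg _)
      push_cast
      linarith
    have h4 : ((J + 1 : ℕ) : ℝ) * (40 * C₁ ^ 2 * Real.exp (c * Real.sqrt (Real.log n))) ≤
        80 * C₁ ^ 2 * Real.exp (c * Real.sqrt (Real.log n)) * (1 + Real.log n) := by
      have h5 : 0 ≤ 40 * C₁ ^ 2 * Real.exp (c * Real.sqrt (Real.log n)) := by positivity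
      have h6 := mul_le_mul_of_nonneg_right hJl h5
      linarith
    -- the tail
    have h5 : 16 * (C4 * (n : ℝ) ^ 2) / (C₁ * 2 ^ (J + 1)) ^ 2 ≤ 16 * C4 / κ' ^ 4 := by
      have h6 : κ' ^ 2 * n ≤ C₁ * 2 ^ (J + 1) := by
        have : (0 : ℝ) < 2 ^ (J + 1) := by positivity
        nlinarith
      have h7 : (κ' ^ 2 * n) ^ 2 ≤ (C₁ * 2 ^ (J + 1)) ^ 2 :=
        pow_le_pow_left₀ (by positivity) h6 2
      calc 16 * (C4 * (n : ℝ) ^ 2) / (C₁ * 2 ^ (J + 1)) ^ 2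
          ≤ 16 * (C4 * (n : ℝ) ^ 2) / (κ' ^ 2 * n) ^ 2 :=
            div_le_div_of_nonneg_left (by positivity) (by positivity) h7
        _ = 16 * C4 / κ' ^ 4 := by field_simp
    have h6 := hfl' (C₁ ^ 2) (by positivity)
    have h7 := hfl' (16 * C4 / κ' ^ 4) (by positivity)
    have h8 := hfl' V hV0
    have h9 : (V + (C₁ ^ 2 + 80 * C₁ ^ 2 + 16 * C4 / κ' ^ 4)) *
        Real.exp (c * Real.sqrt (Real.log n)) * (1 + Real.log n) =
        V * Real.exp (c * Real.sqrt (Real.log n)) * (1 + Real.log n) +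
        C₁ ^ 2 * Real.exp (c * Real.sqrt (Real.log n)) * (1 + Real.log n) +
        80 * C₁ ^ 2 * Real.exp (c * Real.sqrt (Real.log n)) * (1 + Real.log n) +
        16 * C4 / κ' ^ 4 * Real.exp (c * Real.sqrt (Real.log n)) * (1 + Real.log n) := by
      ring
    rw [h9]
    linarith

end Pool.Agent.W_7d29a1_SW
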