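import Pool.Agent.W_7d29a1_SW.DefsW
import Pool.Agent.W_7d29a1_SP.Luck93

/-!
Leaf A1 of THEOREM W (helper93): luck with the window as a hypothesis, every dimension.
-/

namespace Pool.Agent.W_7d29a1_SW

open MeasureTheory ProbabilityTheory Filter Topology Pool.Agent.W_MP_7d29a1_pr
  Pool.Agent.W_7d29a1_h46 Pool.Agent.W_7d29a1_h46u Pool.Agent.W_7d29a1_D2.B35
  Pool.Agent.W_7d29a1_Q29 Pool.Agent.W_7d29a1_R34 Pool.Agent.W_7d29a1_SP Pool.Agent.W_7d29a1_SD

/-- Leaf A1. -/
theorem luD93 {d : ℕ} {ρ : Measure ℝ} [IsProbabilityMeasure ρ] (hd : 0 < d) (hρ : EM ρ)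
    (β : ℝ) : LuD d ρ β := by
  classical
  intro g h n t R htn hR h1 hg hgap hF
  have hg0 : 0 < g := by linarith
  have h2 := L93.mass93 (ρ := ρ) (d := d) hd (β := β) (h := h) htn R (le_refl (R.card : ℝ))
    (T := Set.Ioi (A ρ β h (n - t) + g / 4)) measurableSet_Ioi
  have hset : {η : Env d | X β h η (n - t) ∈ Set.Ioi (A ρ β h (n - t) + g / 4)} =
      {η | A ρ β h (n - t) + g / 4 < X β h η (n - t)} := rfl
  rw [hset] at h2
  -- the integral of the pointwise inequality
  have hQi : ∀ y ∈ R, Integrable (fun η => Qt β h n t y η) (law d ρ) := fun y _ =>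
    Integrable.mono' (integrable_const (1 : ℝ)) (S98.measurable_Qt β h n t y).aestronglyMeasurable
      (Eventually.of_forall fun η => by
        rw [Real.norm_eq_abs]
        exact S98.Qt_abs hd β h htn y η)
  have hsumi : Integrable (fun η => ∑ y ∈ R, Qt β h n t y η) (law d ρ) :=
    integrable_finsetSum R hQi
  have h5 : ∫ η, (1 - ∑ y ∈ R, Qt β h n t y η) ∂(law d ρ) =
      1 - ∫ η, ∑ y ∈ R, Qt β h n t y η ∂(law d ρ) := by
    rw [integral_sub (integrable_const _) hsumi]
    simp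
  rw [h5] at h1
  have hi1 : Measurable ((Set.Ioi (A ρ β h (n - t) + g / 4)).indicator (1 : ℝ → ℝ)) :=
    measurable_one.indicator measurableSet_Ioi
  have hLi : Integrable (fun η => ∑ y ∈ R, Qt β h n t y η *
      (Set.Ioi (A ρ β h (n - t) + g / 4)).indicator 1 (X β h (sh t y η) (n - t)))
      (law d ρ) := by
    refine integrable_finsetSum R fun y _ => ?_
    refine Integrable.mono' (integrable_const (1 : ℝ))
      ((S98.measurable_Qt β h n t y).mul
        (hi1.comp ((measurable_X β h (n - t)).comp (measurable_sh t y)))).aestronglyMeasurable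
      (Eventually.of_forall fun η => ?_)
    have h0 : 0 ≤ (Set.Ioi (A ρ β h (n - t) + g / 4)).indicator (1 : ℝ → ℝ)
        (X β h (sh t y η) (n - t)) := Set.indicator_nonneg (fun _ _ => zero_le_one) _
    have h3 : (Set.Ioi (A ρ β h (n - t) + g / 4)).indicator (1 : ℝ → ℝ)
        (X β h (sh t y η) (n - t)) ≤ 1 :=
      Set.indicator_le_self' (fun _ _ => zero_le_one) _
    have h4 := S98.Qt_nonneg (d := d) hd β h n t y η
    rw [Real.norm_eq_abs, abs_of_nonneg (mul_nonneg h4 h0)]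
    exact mul_le_one₀ (S98.Qt_le_one hd β h htn y η) h0 h3
  have hA1 := (intX15 (ρ := ρ) (d := d) hd hρ β h n).abs.const_mul (2 / g)
  have hA2 := (intX15 (ρ := ρ) (d := d) hd hρ β h t).abs.const_mul (2 / g)
  have hA3 : Integrable (fun η : Env d => 2 / g * |X β h η n - A ρ β h n| +
      2 / g * |X β h η t - A ρ β h t|) (law d ρ) := hA1.add hA2
  have hA4 : Integrable (fun η : Env d => 1 / 20 + (2 / g * |X β h η n - A ρ β h n| +
      2 / g * |X β h η t - A ρ β h t|)) (law d ρ) := (integrable_const (1 / 20 : ℝ)).add hA3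
  have h6 := integral_mono hsumi (hLi.add hA4)
    (fun η => L93.point93 (ρ := ρ) hd β h htn hR hg hgap η)
  have h7 : ∫ η, (∑ y ∈ R, Qt β h n t y η *
      (Set.Ioi (A ρ β h (n - t) + g / 4)).indicator 1 (X β h (sh t y η) (n - t)) +
      (1 / 20 + (2 / g * |X β h η n - A ρ β h n| + 2 / g * |X β h η t - A ρ β h t|)))
      ∂(law d ρ) = ∫ η, ∑ y ∈ R, Qt β h n t y η *
      (Set.Ioi (A ρ β h (n - t) + g / 4)).indicator 1 (X β h (sh t y η) (n - t)) ∂(law d ρ) +
      (1 / 20 + (2 / g * Fn ρ β h n + 2 / g * Fn ρ β h t)) := by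
    rw [integral_add hLi hA4, integral_add (integrable_const _) hA3, integral_add hA1 hA2,
      integral_const_mul, integral_const_mul]
    simp [Fn]
  have h8 := h6.trans (le_of_eq h7)
  have h9 : 2 / g * Fn ρ β h n + 2 / g * Fn ρ β h t ≤ 1 / 16 := by
    rw [← mul_add, div_mul_eq_mul_div, div_le_iff₀ hg0]
    linarith
  obtain ⟨Y, hY⟩ : ∃ Y, Y = (law d ρ).real {η | A ρ β h (n - t) + g / 4 < X β h η (n - t)} *
      (R.card : ℝ) * St ρ β h n t := ⟨_, rfl⟩
  rw [← hY] at h2
  have h10 : 1 / 2 ≤ Real.sqrt Y := by linarith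
  have h11 : 1 / 4 ≤ Y := by
    have h12 : 0 < Y := by
      by_contra hcon
      rw [Real.sqrt_eq_zero_of_nonpos (not_lt.1 hcon)] at h10
      linarith
    have h13 := Real.sq_sqrt h12.le
    nlinarith
  rw [hY] at h11
  linarith

end Pool.Agent.W_7d29a1_SW
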