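import Pool.Agent.W_7d29a1_SW.DefsW

/-!
Theorem W, leaf B3: numbers (helper83).
-/

namespace Pool.Agent.W_7d29a1_SW

open Pool.Agent.W_7d29a1_SP

/-- Leaf B3. -/
theorem nuW83 : NuW := by
  intro C hC
  refine ⟨4 * C, by linarith, fun c Q R hc hc1 hQ hR => ?_⟩
  have hC0 : 0 < C := by linarith
  have hR0 : 0 < R := by linarith
  have hQ0 : 0 < Q := by linarith
  have hlR : 0 ≤ Real.log R := Real.log_nonneg hR
  have hlQ : 0 ≤ Real.log Q := Real.log_nonneg hQ
  have hlc : 0 ≤ Real.log (2 / c) := Real.log_nonneg (by rw [le_div_iff₀ hc]; linarith)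
  obtain ⟨K, hK⟩ : ∃ K, K = Real.log R + C * Real.log Q + C + 2 * C * Real.log (2 / c) :=
    ⟨_, rfl⟩
  have hK0 : 0 ≤ K := by rw [hK]; positivity
  obtain ⟨Q', hQ'⟩ : ∃ Q', Q' = 2 * Real.exp (2 * K + 8 * C + 8 * C ^ 2) := ⟨_, rfl⟩
  have hQ2 : 2 ≤ Q' := by
    rw [hQ']
    have := Real.one_le_exp (show 0 ≤ 2 * K + 8 * C + 8 * C ^ 2 by positivity)
    linarith
  refine ⟨Q', by linarith, fun n N e hn hN he hNe hb => ?_⟩
  have hn1 : (1 : ℝ) ≤ n := by exact_mod_cast hn
  have hN1 : (1 : ℝ) ≤ N := by exact_mod_cast hN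
  have hn0 : (0 : ℝ) < n := by linarith
  have hN0 : (0 : ℝ) < N := by linarith
  have hex : 1 ≤ Real.exp (4 * C * c * Real.sqrt (Real.log n)) :=
    Real.one_le_exp (by positivity)
  rcases le_or_gt e 1 with h1 | h1
  · have h2 := mul_le_mul hQ2 hex zero_le_one (by linarith)
    linarith
  have hy0 : 0 ≤ Real.log e := Real.log_nonneg h1.le
  have hl0 : 0 ≤ Real.log n := Real.log_nonneg hn1
  obtain ⟨y, hy⟩ : ∃ y, y = Real.log e := ⟨_, rfl⟩
  obtain ⟨l, hl⟩ : ∃ l, l = Real.sqrt (Real.log n) := ⟨_, rfl⟩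
  obtain ⟨s, hs⟩ : ∃ s, s = Real.sqrt (Real.log ((4 * N : ℕ) : ℝ)) := ⟨_, rfl⟩
  have h4N : ((4 * N : ℕ) : ℝ) = 4 * (N : ℝ) := by push_cast; ring
  have hlog4 : 0 ≤ Real.log ((4 * N : ℕ) : ℝ) := Real.log_natCast_nonneg _
  have hs0 : 0 ≤ s := by rw [hs]; exact Real.sqrt_nonneg _
  have hs2 : s ^ 2 = Real.log ((4 * N : ℕ) : ℝ) := by rw [hs]; exact Real.sq_sqrt hlog4
  have hl1 : 0 ≤ l := by rw [hl]; exact Real.sqrt_nonneg _
  have hl2 : l ^ 2 = Real.log n := by rw [hl]; exact Real.sq_sqrt hl0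
  rw [← hy] at hy0
  obtain ⟨z, hz⟩ : ∃ z, z = Real.sqrt (2 * y) := ⟨_, rfl⟩
  have hz0 : 0 ≤ z := by rw [hz]; exact Real.sqrt_nonneg _
  have hz2 : z ^ 2 = 2 * y := by rw [hz]; exact Real.sq_sqrt (by linarith)
  -- the logarithm of `4 N`
  have hlog : Real.log ((4 * N : ℕ) : ℝ) ≤ Real.log 16 + Real.log n + 2 * y := by
    have h2 : ((4 * N : ℕ) : ℝ) ≤ 16 * n * e ^ 2 := by
      rw [h4N]
      nlinarith
    have h3 := Real.log_le_log (by rw [h4N]; positivity) h2
    rw [Real.log_mul (by positivity) (by positivity), Real.log_mul (by norm_num) hn0.ne',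
      Real.log_pow] at h3
    rw [hy, h4N]
    rw [h4N] at h3
    push_cast at h3
    linarith
  have hl16 : Real.log 16 ≤ 4 := by
    have h2 : Real.log 16 = 4 * Real.log 2 := by
      rw [show (16 : ℝ) = 2 ^ 4 by norm_num, Real.log_pow]
      norm_num
    have := Real.log_two_lt_d9
    linarith
  have hsl : s ≤ 2 + l + z := by
    by_contra hcon
    push Not at hcon
    have h2 : (2 + l + z) ^ 2 < s ^ 2 := pow_lt_pow_left₀ hcon (by positivity) two_ne_zero
    have h3 : 4 + l ^ 2 + z ^ 2 ≤ (2 + l + z) ^ 2 := by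
      nlinarith [mul_nonneg hl1 hz0]
    linarith
  -- the logarithm of `1 + log N`
  have hlN0 : 0 ≤ Real.log N := Real.log_nonneg hN1
  have hlN : Real.log N ≤ s ^ 2 := by
    rw [hs2, h4N]
    exact Real.log_le_log hN0 (by linarith)
  have hll : Real.log (1 + Real.log N) ≤ c * (1 + s) + 2 * Real.log (2 / c) := by
    have h2 : Real.log (1 + Real.log N) ≤ Real.log ((1 + s) ^ 2) :=
      Real.log_le_log (by linarith) (by nlinarith)
    rw [Real.log_pow] at h2
    have h3 : Real.log (c / 2 * (1 + s)) ≤ c / 2 * (1 + s) - 1 :=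
      Real.log_le_sub_one_of_pos (by positivity)
    rw [Real.log_mul (by positivity) (by positivity)] at h3
    have h4 : Real.log (2 / c) = - Real.log (c / 2) := by
      rw [← Real.log_inv, inv_div]
    rw [h4]
    push_cast at h2
    linarith
  -- the bound
  have hk : Real.log (kap Q c (4 * N)) = Real.log Q + c * s := by
    unfold kap
    rw [Real.log_mul hQ0.ne' (Real.exp_pos _).ne', Real.log_exp, hs]
  have hk0 : 0 < kap Q c (4 * N) := by
    unfold kap
    positivity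
  have hb2 : y ≤ Real.log R + C * (Real.log Q + c * s) + C * Real.log (1 + Real.log N) := by
    have h2 := Real.log_le_log he hb
    have h3 : 0 < 1 + Real.log N := by linarith
    rw [Real.log_mul (by positivity) (by positivity), Real.log_mul (by positivity) (by positivity),
      Real.log_rpow hk0, Real.log_rpow h3, hk] at h2
    rw [hy]
    exact h2
  have hb3 : y ≤ K + 2 * C * c * s := by
    have h2 := mul_le_mul_of_nonneg_left hll hC0.le
    have h3 : C * c ≤ C := by nlinarith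
    rw [hK]
    nlinarith
  have hb4 : y ≤ K + 2 * C * c * (2 + l + z) := by
    refine hb3.trans ?_
    have : 0 ≤ 2 * C * c := by positivity
    have := mul_le_mul_of_nonneg_left hsl this
    linarith
  have hb5 : 2 * C * c * z ≤ y / 2 + 4 * C ^ 2 := by
    have h2 : 2 * C * c * z ≤ 2 * C * z := by
      have : 0 ≤ 2 * C * z := by positivity
      nlinarith
    have h3 : 0 ≤ (z / 2 - 2 * C) ^ 2 := sq_nonneg _
    nlinarith
  have hb6 : 2 * C * c * 2 ≤ 4 * C := by nlinarith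
  have hb7 : y ≤ (2 * K + 8 * C + 8 * C ^ 2) + 4 * C * c * l := by nlinarith
  have hb8 : e ≤ Real.exp (2 * K + 8 * C + 8 * C ^ 2) * Real.exp (4 * C * c * l) := by
    rw [← Real.exp_add, ← Real.exp_log he, ← hy]
    exact Real.exp_le_exp.2 hb7
  rw [hQ', ← hl]
  linarith

end Pool.Agent.W_7d29a1_SW
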