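import Pool.Agent.W_7d29a1_SW.DefsW
import Pool.Agent.W_7d29a1_SP.Step15
import Pool.Agent.W_7d29a1_Q29.Qf39

/-!
Leaf B4: the variance at a good point.
-/

set_option autoImplicit false

namespace Pool.Agent.W_7d29a1_SW.B78

open MeasureTheory ProbabilityTheory Filter Topology Pool.Agent.W_MP_7d29a1_pr
  Pool.Agent.W_7d29a1_h46 Pool.Agent.W_7d29a1_h46u Pool.Agent.W_7d29a1_D2.B35
  Pool.Agent.W_7d29a1_Q29 Pool.Agent.W_7d29a1_R34 Pool.Agent.W_7d29a1_SP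
  Pool.Agent.W_7d29a1_SD

lemma kap_mono78 {Q Q' c c' : ℝ} (hQ : 0 ≤ Q) (hQQ : Q ≤ Q') (hcc : c ≤ c') (t : ℕ) :
    kap Q c t ≤ kap Q' c' t := by
  unfold kap
  have h1 : Real.exp (c * Real.sqrt (Real.log t)) ≤ Real.exp (c' * Real.sqrt (Real.log t)) := by
    rw [Real.exp_le_exp]
    exact mul_le_mul_of_nonneg_right hcc (Real.sqrt_nonneg _)
  exact mul_le_mul hQQ h1 (Real.exp_pos _).le (hQ.trans hQQ)

lemma bal_mono78 {d : ℕ} (v : Vec d) (t : ℕ) {w w' : ℝ} (hw : w ≤ w') :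
    bal v t w ⊆ bal v t w' := by
  classical
  intro y hy
  unfold bal at hy ⊢
  rw [Finset.mem_filter] at hy ⊢
  exact ⟨hy.1, hy.2.trans hw⟩

lemma loc_mono78 {ρ : Measure ℝ} [IsProbabilityMeasure ρ] {d : ℕ} (β : ℝ) (h v : Vec d)
    {n t : ℕ} (ht : t ≤ n) {w w' : ℝ} (hw : w ≤ w') :
    ∫ η, (1 - ∑ y ∈ bal v t w', Qt β h n t y η) ∂(law d ρ) ≤
      ∫ η, (1 - ∑ y ∈ bal v t w, Qt β h n t y η) ∂(law d ρ) := by
  have i1 : ∀ y : Site d, Integrable (Qt β h n t y) (law d ρ) := fun y =>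
    (integrable_const (1 : ℝ)).mono' (measurable_Qt39 β h n t y).aestronglyMeasurable
      (Eventually.of_forall fun η => by
        rw [Real.norm_eq_abs, abs_of_nonneg (Qt_nonneg39 β h n t y η)]
        exact Qt_le_one39 β h ht y η)
  have i2 : ∀ R : Finset (Site d), Integrable (fun η => 1 - ∑ y ∈ R, Qt β h n t y η)
      (law d ρ) := fun R =>
    (integrable_const (1 : ℝ)).sub (integrable_finsetSum R fun y _ => i1 y)
  refine integral_mono (i2 _) (i2 _) fun η => ?_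
  have h1 := Finset.sum_le_sum_of_subset_of_nonneg (bal_mono78 v t hw)
    (f := fun y => Qt β h n t y η) fun y _ _ => Qt_nonneg39 β h n t y η
  show 1 - ∑ y ∈ bal v t w', Qt β h n t y η ≤ 1 - ∑ y ∈ bal v t w, Qt β h n t y η
  linarith

/-- A power of the logarithm is absorbed. -/
lemma num78 {c : ℝ} (hc : 0 < c) {y : ℝ} (hy : 0 ≤ y) :
    (1 + y ^ 2) ^ 2 ≤ 2 * (1 + 24 / c ^ 4) * Real.exp (c * y) := by
  have h0 : 0 ≤ c * y := by positivity
  have h1 : (c * y) ^ 4 / 24 ≤ Real.exp (c * y) := by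
    have := Real.pow_div_factorial_le_exp (c * y) h0 4
    have e : ((Nat.factorial 4 : ℕ) : ℝ) = 24 := by
      norm_num [Nat.factorial]
    rw [e] at this
    exact this
  have h2 : 1 ≤ Real.exp (c * y) := by
    rw [Real.one_le_exp_iff]
    exact h0
  have h3 : y ^ 4 ≤ 24 / c ^ 4 * Real.exp (c * y) := by
    have h4 : y ^ 4 = 24 / c ^ 4 * ((c * y) ^ 4 / 24) := by
      field_simp
    rw [h4]
    exact mul_le_mul_of_nonneg_left h1 (by positivity)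
  nlinarith [sq_nonneg (1 - y ^ 2)]

/-- The final numbers. -/
lemma fin78 {C₂ C₃ Q Q₁ c y s : ℝ} (hC₂ : 1 ≤ C₂) (hC₃ : 1 ≤ C₃) (hQ : 1 ≤ Q) (hQ₁ : 1 ≤ Q₁)
    (hc : 0 < c) (hc1 : c ≤ 1) (hy : 0 ≤ y) (hs0 : 0 ≤ s) (hs : s ≤ y + 1) :
    C₃ * (1 + y ^ 2) ^ 2 * (1 + Q * Real.exp (c * s) + (Q₁ * Real.exp (C₂ * c * s)) ^ 2) ≤
      C₃ * (2 * (1 + 24 / c ^ 4)) * (3 * (Q * Q₁ ^ 2)) * Real.exp (2 * C₂) *
        Real.exp ((2 * C₂ + 1) * c * y) := by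
  have hcs : 0 ≤ c * s := by positivity
  have h1 : (Q₁ * Real.exp (C₂ * c * s)) ^ 2 = Q₁ ^ 2 * Real.exp (2 * C₂ * (c * s)) := by
    rw [mul_pow, ← Real.exp_nat_mul]
    congr 2
    push_cast
    ring
  have h2 : Real.exp (c * s) ≤ Real.exp (2 * C₂ * (c * s)) := by
    rw [Real.exp_le_exp]
    nlinarith
  have h3 : 1 ≤ Real.exp (2 * C₂ * (c * s)) := by
    rw [Real.one_le_exp_iff]
    positivity
  have hE0 := Real.exp_pos (2 * C₂ * (c * s))
  have hQ₁2 : 1 ≤ Q₁ ^ 2 := one_le_pow₀ hQ₁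
  have hQQ : 1 ≤ Q * Q₁ ^ 2 := by nlinarith
  have h4 : 1 + Q * Real.exp (c * s) + (Q₁ * Real.exp (C₂ * c * s)) ^ 2 ≤
      3 * (Q * Q₁ ^ 2) * Real.exp (2 * C₂ * (c * s)) := by
    rw [h1]
    have k1 : 1 ≤ (Q * Q₁ ^ 2) * Real.exp (2 * C₂ * (c * s)) := by nlinarith
    have k2 : Q * Real.exp (c * s) ≤ (Q * Q₁ ^ 2) * Real.exp (2 * C₂ * (c * s)) :=
      mul_le_mul (by nlinarith) h2 (Real.exp_pos _).le (by linarith)
    have k3 : Q₁ ^ 2 * Real.exp (2 * C₂ * (c * s)) ≤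
        (Q * Q₁ ^ 2) * Real.exp (2 * C₂ * (c * s)) :=
      mul_le_mul_of_nonneg_right (by nlinarith) hE0.le
    linarith
  have h5 : Real.exp (2 * C₂ * (c * s)) ≤ Real.exp (2 * C₂) * Real.exp (2 * C₂ * c * y) := by
    rw [← Real.exp_add, Real.exp_le_exp]
    have k1 : c * s ≤ c * y + 1 := by nlinarith
    nlinarith
  have h6 := num78 hc hy
  have h7 : Real.exp ((2 * C₂ + 1) * c * y) = Real.exp (c * y) * Real.exp (2 * C₂ * c * y) := by
    rw [← Real.exp_add]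
    congr 1
    ring
  have h8 : 1 + Q * Real.exp (c * s) + (Q₁ * Real.exp (C₂ * c * s)) ^ 2 ≤
      3 * (Q * Q₁ ^ 2) * (Real.exp (2 * C₂) * Real.exp (2 * C₂ * c * y)) :=
    h4.trans (mul_le_mul_of_nonneg_left h5 (by positivity))
  have h9 : C₃ * (1 + y ^ 2) ^ 2 ≤ C₃ * (2 * (1 + 24 / c ^ 4) * Real.exp (c * y)) :=
    mul_le_mul_of_nonneg_left h6 (by linarith)
  have h10 := mul_le_mul h9 h8 (by positivity) (by positivity)
  refine h10.trans (le_of_eq ?_)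
  rw [h7]
  ring

lemma Va_zero78 {ρ : Measure ℝ} [IsProbabilityMeasure ρ] {d : ℕ} (β : ℝ) (h : Vec d) :
    Va ρ β h 0 = 0 := by
  unfold Va
  have h1 : ∀ η : Env d, X β h η 0 = 0 := by
    intro η
    unfold X
    rw [Z_zero, Real.log_one]
  simp [h1, A_zero15]

end Pool.Agent.W_7d29a1_SW.B78

namespace Pool.Agent.W_7d29a1_SW

open MeasureTheory ProbabilityTheory Filter Topology Pool.Agent.W_MP_7d29a1_pr
  Pool.Agent.W_7d29a1_h46 Pool.Agent.W_7d29a1_h46u Pool.Agent.W_7d29a1_D2.B35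
  Pool.Agent.W_7d29a1_Q29 Pool.Agent.W_7d29a1_R34 Pool.Agent.W_7d29a1_SP
  Pool.Agent.W_7d29a1_SD

/-- Leaf B4. -/
theorem pbP78 {ρ : Measure ℝ} [IsProbabilityMeasure ρ] {β : ℝ} (hB : BeB ρ β) (hN : NuW)
    (hV : VaW 2 ρ β) (hLoc : LocE 2 ρ β) : PbP ρ β := by
  intro g hg
  obtain ⟨c₀, hc₀, hLoc'⟩ := hLoc g hg
  obtain ⟨θ, hθdef⟩ : ∃ θ, θ = min (c₀ / 4) (1 / 4000) := ⟨_, rfl⟩
  have hθ : 0 < θ := by
    rw [hθdef]
    exact lt_min (by linarith) (by norm_num)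
  have hθ1 : θ ≤ c₀ / 4 := by
    rw [hθdef]
    exact min_le_left _ _
  have hθ2 : θ ≤ 1 / 4000 := by
    rw [hθdef]
    exact min_le_right _ _
  obtain ⟨C₁, hC₁, hB'⟩ := hB c₀ θ hc₀ hθ hθ1 hθ2
  obtain ⟨C₂, hC₂, hN'⟩ := hN C₁ hC₁
  obtain ⟨C₃, hC₃, hV'⟩ := hV c₀ hc₀
  refine ⟨θ, 2 * C₂ + 1, hθ, hθ2, by linarith, fun h v Q c R hQ hc hc1 hP => ?_⟩
  have hloc : Loc1 ρ β h c₀ := hLoc' h hP.gap
  have hR : 1 ≤ C₁ * (1 + |R|) := by
    have := abs_nonneg R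
    nlinarith
  obtain ⟨Q₁, hQ₁, hN''⟩ := hN' c Q (C₁ * (1 + |R|)) hc hc1 hQ hR
  -- the nonrandom fluctuation
  have hE : ∀ n k : ℕ, 1 ≤ n → k ≤ n →
      En ρ β h k ≤ Q₁ * Real.exp (C₂ * c * Real.sqrt (Real.log n)) := by
    intro n k hn hk
    by_cases h1 : 1 ≤ En ρ β h k
    · obtain ⟨N, e, hN1, he, h2, h3, h4⟩ := hB' h v g Q c R hloc hQ hc hP n k hk h1
      exact h2.trans (hN'' n N e hn hN1 he h3 h4)
    · rw [not_le] at h1
      have h2 : 1 ≤ Real.exp (C₂ * c * Real.sqrt (Real.log n)) := by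
        rw [Real.one_le_exp_iff]
        positivity
      nlinarith
  set Q' : ℝ := C₃ * (2 * (1 + 24 / c ^ 4)) * (3 * (Q * Q₁ ^ 2)) * Real.exp (2 * C₂) with hQ'
  have hQQ' : Q ≤ Q' := by
    have k1 : 1 ≤ Real.exp (2 * C₂) := by
      rw [Real.one_le_exp_iff]
      linarith
    have k2 : 1 ≤ C₃ * (2 * (1 + 24 / c ^ 4)) := by
      have : 0 ≤ 24 / c ^ 4 := by positivity
      nlinarith
    have k3 : Q ≤ 3 * (Q * Q₁ ^ 2) := by
      have : 1 ≤ Q₁ ^ 2 := one_le_pow₀ hQ₁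
      nlinarith
    have k4 : 1 * Q ≤ C₃ * (2 * (1 + 24 / c ^ 4)) * (3 * (Q * Q₁ ^ 2)) :=
      mul_le_mul k2 k3 (by linarith) (by linarith)
    have k5 : 1 * Q * 1 ≤ C₃ * (2 * (1 + 24 / c ^ 4)) * (3 * (Q * Q₁ ^ 2)) *
        Real.exp (2 * C₂) := mul_le_mul k4 k1 zero_le_one (by nlinarith)
    rw [hQ']
    linarith
  have hcc : c ≤ (2 * C₂ + 1) * c := by nlinarith
  refine ⟨Q', hQ.trans hQQ', hP.gap, fun n t ht => ?_, fun m => ?_, hP.rate⟩
  · refine (B78.loc_mono78 β h v ht ?_).trans (hP.loc n t ht)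
    exact mul_le_mul_of_nonneg_right (B78.kap_mono78 (by linarith) hQQ' hcc n)
      (Real.sqrt_nonneg _)
  · rcases Nat.eq_zero_or_pos m with hm | hm
    · rw [hm, B78.Va_zero78]
      unfold kap
      positivity
    · set s : ℝ := Real.sqrt (Real.log ((2 * m : ℕ) : ℝ)) with hs
      set y : ℝ := Real.sqrt (Real.log m) with hy
      have hm0 : (0 : ℝ) < m := by exact_mod_cast hm
      have hlm : 0 ≤ Real.log m := Real.log_natCast_nonneg m
      have hy2 : y ^ 2 = Real.log m := Real.sq_sqrt hlm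
      have hsy : s ≤ y + 1 := by
        rw [hs, Real.sqrt_le_left (by positivity)]
        push_cast
        rw [Real.log_mul (by norm_num) hm0.ne']
        have h1 : Real.log 2 ≤ 1 := by
          have := Real.log_two_lt_d9
          linarith
        have h2 : 0 ≤ y := Real.sqrt_nonneg _
        nlinarith
      have h1 := hV' h hloc θ hθ hθ1 m (kap Q c (2 * m))
        (Q₁ * Real.exp (C₂ * c * s)) hm (by unfold kap; positivity)
        (fun L hL => (hP.bulk L).trans (kap_mono15 hQ hc hL))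
        (fun i hi => by
          have := hE (2 * m) i (by omega) hi
          rw [hs]
          exact this)
      rw [← hy2] at h1
      refine h1.trans ?_
      have h2 := B78.fin78 (s := s) (y := y) hC₂ hC₃ hQ hQ₁ hc hc1 (Real.sqrt_nonneg _)
        (Real.sqrt_nonneg _) hsy
      unfold kap
      rw [← hs, ← hy, hQ']
      exact h2

end Pool.Agent.W_7d29a1_SW
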