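import Pool.Agent.W_7d29a1_SW.DefsW
import Pool.Agent.W_7d29a1_SD.Pair80

/-!
Leaf C2 of theorem W: the resampling bound at all levels.
-/

namespace Pool.Agent.W_7d29a1_SW

open MeasureTheory ProbabilityTheory Filter Topology Pool.Agent.W_MP_7d29a1_pr
  Pool.Agent.W_7d29a1_h46 Pool.Agent.W_7d29a1_h46u Pool.Agent.W_7d29a1_D2.B35
  Pool.Agent.W_7d29a1_Q29 Pool.Agent.W_7d29a1_R34 Pool.Agent.W_7d29a1_SP Pool.Agent.W_7d29a1_SD

variable {d : ℕ} {ρ : Measure ℝ} [IsProbabilityMeasure ρ] {β : ℝ}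

omit [IsProbabilityMeasure ρ] in
/-- The bound of the hypothesis in the units of `√n`. -/
lemma tbHW80 {h v : Vec d} {c : ℝ} {n₀ : ℕ} (H : HW ρ β h v c n₀) {n : ℕ} (hn : n₀ ≤ n)
    (hn1 : 1 ≤ n) {R : ℝ} (hR : 1 ≤ R) :
    Tb ρ β h v R n ≤ Real.exp (c * Real.sqrt (Real.log n)) / R ^ 4 := by
  have hn' : (0 : ℝ) < n := by exact_mod_cast hn1
  have hs : 0 < Real.sqrt n := Real.sqrt_pos.2 hn'
  have h1 := H n hn (R * Real.sqrt n) (by positivity)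
  have h2 : (R * Real.sqrt n) ^ 4 = R ^ 4 * (n : ℝ) ^ 2 := by
    have h3 : Real.sqrt n ^ 2 = n := Real.sq_sqrt hn'.le
    calc (R * Real.sqrt n) ^ 4 = R ^ 4 * (Real.sqrt n ^ 2) ^ 2 := by ring
      _ = _ := by rw [h3]
  rw [h2] at h1
  unfold Tb
  rw [le_div_iff₀ (by positivity)]
  have h4 : (0 : ℝ) < (n : ℝ) ^ 2 := by positivity
  have h5 : (n : ℝ) ^ 2 * ((∫ η, (1 - PolT β h η (tube d n v (R * Real.sqrt n))) ∂(law d ρ)) *
      R ^ 4) ≤ (n : ℝ) ^ 2 * Real.exp (c * Real.sqrt (Real.log n)) := by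
    calc (n : ℝ) ^ 2 * ((∫ η, (1 - PolT β h η (tube d n v (R * Real.sqrt n))) ∂(law d ρ)) *
        R ^ 4) = R ^ 4 * (n : ℝ) ^ 2 *
          ∫ η, (1 - PolT β h η (tube d n v (R * Real.sqrt n))) ∂(law d ρ) := by ring
      _ ≤ _ := h1
  exact le_of_mul_le_mul_left h5 h4

/-- Leaf C2. -/
theorem rsW80 (hd : 0 < d) : RsW d ρ β := by
  intro h v c θ C s₀ n₀ hθ hθ2 hC hs₀ H HP
  have hpair := Pair80.pairs80 (d := d) (ρ := ρ) hd β
  refine ⟨400 * C / θ ^ 2 + 40 * C / θ + 6, θ * s₀ / 20, max n₀ ⌈2 / θ⌉₊, ?_, by positivity, ?_⟩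
  · have : 0 ≤ 400 * C / θ ^ 2 + 40 * C / θ := by positivity
    linarith
  intro n hn R hR hRn
  have hn0 : n₀ ≤ n := (le_max_left _ _).trans hn
  have hn2 : 2 / θ ≤ n := Nat.ceil_le.1 ((le_max_right _ _).trans hn)
  have hθn : 2 ≤ θ * n := by
    rw [div_le_iff₀ hθ] at hn2
    linarith
  have hn' : (0 : ℝ) < n := lt_of_lt_of_le (by positivity) hn2
  have hn1 : 1 ≤ n := by exact_mod_cast hn'
  have hs : 0 < Real.sqrt n := Real.sqrt_pos.2 hn'
  have hss : Real.sqrt n * Real.sqrt n = n := Real.mul_self_sqrt hn'.le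
  have hR0 : 0 < R := by linarith
  set a : ℝ := 20 * R / θ with ha
  have ha0 : 0 < a := by positivity
  obtain ⟨v', h', q1, q2, q3, q4⟩ := HP (a / Real.sqrt n) (by positivity) (by
    rw [div_le_iff₀ hs, ha, div_le_iff₀ hθ]
    calc 20 * R ≤ 20 * (θ * s₀ / 20 * Real.sqrt n) := by linarith
      _ = s₀ * Real.sqrt n * θ := by ring)
  have hv : ‖v' - v‖ * Real.sqrt n ≤ a := by
    rwa [le_div_iff₀ hs] at q2
  have hh : ‖h' - h‖ * Real.sqrt n ≤ C * a := by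
    calc ‖h' - h‖ * Real.sqrt n ≤ (C * ‖v' - v‖) * Real.sqrt n :=
          mul_le_mul_of_nonneg_right q3 hs.le
      _ = C * (‖v' - v‖ * Real.sqrt n) := by ring
      _ ≤ C * a := mul_le_mul_of_nonneg_left hv hC.le
  have hfl : θ * n / 2 ≤ (⌊θ * (n : ℝ)⌋₊ : ℝ) := by
    have := Nat.lt_floor_add_one (θ * (n : ℝ))
    linarith
  have hp : 2 * R * Real.sqrt n < (⌊θ * (n : ℝ)⌋₊ : ℝ) * ‖v' - v‖ := by
    have h1 : a ≤ 2 * ‖v' - v‖ * Real.sqrt n := by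
      have : a / Real.sqrt n ≤ 2 * ‖v' - v‖ := by linarith
      rwa [div_le_iff₀ hs] at this
    have h2 : 20 * R ≤ θ * (2 * ‖v' - v‖ * Real.sqrt n) := by
      have h3 : a * θ = 20 * R := by
        rw [ha]
        field_simp
      nlinarith
    have h4 : 5 * R * Real.sqrt n ≤ θ * n / 2 * ‖v' - v‖ := by
      have h5 : 20 * R * Real.sqrt n ≤ θ * (2 * ‖v' - v‖ * Real.sqrt n) * Real.sqrt n :=
        mul_le_mul_of_nonneg_right h2 hs.le
      have h6 : θ * (2 * ‖v' - v‖ * Real.sqrt n) * Real.sqrt n =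
          4 * (θ * n / 2 * ‖v' - v‖) := by
        calc θ * (2 * ‖v' - v‖ * Real.sqrt n) * Real.sqrt n =
            2 * θ * ‖v' - v‖ * (Real.sqrt n * Real.sqrt n) := by ring
          _ = _ := by
            rw [hss]
            ring
      linarith
    have h7 : θ * n / 2 * ‖v' - v‖ ≤ (⌊θ * (n : ℝ)⌋₊ : ℝ) * ‖v' - v‖ :=
      mul_le_mul_of_nonneg_right hfl (norm_nonneg _)
    have h8 : 0 < R * Real.sqrt n := by positivity
    linarith
  have hT := tbHW80 H hn0 hn1 hR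
  have hT' := tbHW80 q4 hn0 hn1 hR
  have key := hpair h h' v v' n ⌊θ * (n : ℝ)⌋₊ R a (C * a)
    (Real.exp (c * Real.sqrt (Real.log n)) / R ^ 4) hR0.le ha0.le (by positivity) hv hh hp hT hT'
  unfold RS at key ⊢
  refine le_trans (measureReal_mono fun w hw => ?_) key
  have hw' : (400 * C / θ ^ 2 + 40 * C / θ + 6) * R ^ 2 <
      |X β h w.1 n - X β h (spl (Pa d ⌊θ * (n : ℝ)⌋₊) w.1 w.2) n| := hw
  refine lt_of_le_of_lt ?_ hw'
  have hR2 : 1 ≤ R ^ 2 := by nlinarith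
  have e1 : C * a * a = 400 * C / θ ^ 2 * R ^ 2 := by
    rw [ha]
    field_simp
    ring
  have e2 : 2 * (C * a) * R = 40 * C / θ * R ^ 2 := by
    rw [ha]
    field_simp
    ring
  rw [e1, e2]
  nlinarith

end Pool.Agent.W_7d29a1_SW
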