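import Pool.Agent.W_7d29a1_SW.DefsW
import Pool.Agent.W_7d29a1_SP.Rate74
import Pool.Agent.W_7d29a1_VT.Slab46

/-!
The rate of the nonrandom fluctuation at a tilt where the polymer stays in a tube.
-/

namespace Pool.Agent.W_7d29a1_SW

open MeasureTheory ProbabilityTheory Filter Topology Pool.Agent.W_MP_7d29a1_pr
  Pool.Agent.W_7d29a1_h46 Pool.Agent.W_7d29a1_h46u Pool.Agent.W_7d29a1_D2.B35
  Pool.Agent.W_7d29a1_Q29 Pool.Agent.W_7d29a1_R34 Pool.Agent.W_7d29a1_SP Pool.Agent.W_7d29a1_SD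
  Pool.Agent.W_7d29a1_V Pool.Agent.W_7d29a1_VT

namespace RtW74

variable {d : ℕ} {ρ : Measure ℝ} [IsProbabilityMeasure ρ]

/-- The rate from the tube property in probability. -/
lemma rate_tb (hd : 0 < d) (hρ : EM ρ) {β : ℝ} {h v : Vec d} (hT : TbP ρ β h v (9 / 10)) :
    ∃ C : ℝ, 0 ≤ C ∧ ∀ n : ℕ, n * lam ρ β h - A ρ β h n ≤ C * (n : ℝ) ^ (49 / 100 : ℝ) := by
  have hS := spaceV46 hd hρ β ‖h‖
  refine Rate74.all_of_ev ?_ (by norm_num) (gap74 hd hρ (by norm_num)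
    (medT hd hρ hS (by norm_num) (by norm_num) hT) (addT36 hd hρ hS (by norm_num) (by norm_num) hT)
    (varAll10 hd hρ β h v (by norm_num) (by norm_num) hT) (by norm_num) (by norm_num))
  simp [Rate74.A_zero74]

/-- `exp (c √(log n)) ≤ n` for all large `n`. -/
lemma exp_le (c : ℝ) : ∀ᶠ n : ℕ in atTop, Real.exp (c * Real.sqrt (Real.log n)) ≤ n := by
  have h1 : Tendsto (fun n : ℕ => Real.sqrt (Real.log n)) atTop atTop :=
    (Real.tendsto_sqrt_atTop.comp Real.tendsto_log_atTop).comp tendsto_natCast_atTop_atTop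
  filter_upwards [h1.eventually_ge_atTop |c|, eventually_ge_atTop 1] with n hn hn1
  have hn0 : (0 : ℝ) < n := by exact_mod_cast hn1
  have hl : 0 ≤ Real.log n := Real.log_nonneg (by exact_mod_cast hn1)
  have h2 : c * Real.sqrt (Real.log n) ≤ Real.log n := by
    have h3 : c * Real.sqrt (Real.log n) ≤ Real.sqrt (Real.log n) * Real.sqrt (Real.log n) :=
      mul_le_mul_of_nonneg_right ((le_abs_self c).trans hn) (Real.sqrt_nonneg _)
    rwa [Real.mul_self_sqrt hl] at h3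
  calc Real.exp (c * Real.sqrt (Real.log n)) ≤ Real.exp (Real.log n) := Real.exp_le_exp.2 h2
    _ = n := Real.exp_log hn0

/-- The tube property from the hypothesis `HW`. -/
lemma tbP_of_HW {β : ℝ} {h v : Vec d} {c : ℝ} {n₀ : ℕ} (H : HW ρ β h v c n₀) :
    TbP ρ β h v (9 / 10) := by
  intro δ hδ
  have ht : Tendsto (fun n : ℕ => (n : ℝ) ^ (-(3 / 5 : ℝ))) atTop (𝓝 0) :=
    (tendsto_rpow_neg_atTop (by norm_num)).comp tendsto_natCast_atTop_atTop
  have hev := ((exp_le c).and (ht.eventually (gt_mem_nhds (show (0 : ℝ) < δ / 2 by linarith)))).and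
    ((eventually_ge_atTop n₀).and (eventually_ge_atTop 1))
  obtain ⟨N, hN⟩ := eventually_atTop.1 hev
  refine ⟨N, fun n hn => ?_⟩
  obtain ⟨⟨h1, h2⟩, h3, h4⟩ := hN n hn
  have hn0 : (0 : ℝ) < n := by exact_mod_cast h4
  obtain ⟨r, hr⟩ : ∃ r : ℝ, r = (n : ℝ) ^ (9 / 10 : ℝ) := ⟨_, rfl⟩
  have hr0 : 0 < r := by
    rw [hr]
    exact Real.rpow_pos_of_pos hn0 _
  obtain ⟨I, hI⟩ : ∃ I : ℝ, I = ∫ η, (1 - PolT β h η (tube d n v r)) ∂(law d ρ) := ⟨_, rfl⟩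
  have e1 := H n h3 r hr0
  rw [← hI] at e1
  have e2 : r ^ 4 * I ≤ (n : ℝ) ^ 2 * n :=
    e1.trans (mul_le_mul_of_nonneg_left h1 (by positivity))
  have e3 : r ^ 4 = (n : ℝ) ^ 2 * n * (n : ℝ) ^ (3 / 5 : ℝ) := by
    rw [hr, ← Real.rpow_natCast, ← Real.rpow_mul hn0.le]
    have e4 : (n : ℝ) ^ 2 * n = (n : ℝ) ^ (3 : ℝ) := by
      rw [show (3 : ℝ) = ((3 : ℕ) : ℝ) by norm_num, Real.rpow_natCast]
      ring
    rw [e4, ← Real.rpow_add hn0]
    norm_num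
  have e5 : I ≤ (n : ℝ) ^ (-(3 / 5 : ℝ)) := by
    have e6 : (0 : ℝ) < (n : ℝ) ^ 2 * n := by positivity
    have e7 : (n : ℝ) ^ (3 / 5 : ℝ) * I ≤ 1 := by
      rw [e3, mul_assoc] at e2
      have e8 : (n : ℝ) ^ 2 * n * ((n : ℝ) ^ (3 / 5 : ℝ) * I) ≤ (n : ℝ) ^ 2 * n * 1 := by
        rw [mul_one]
        exact e2
      exact le_of_mul_le_mul_left e8 e6
    have e9 : 0 < (n : ℝ) ^ (3 / 5 : ℝ) := Real.rpow_pos_of_pos hn0 _
    rw [Real.rpow_neg hn0.le, ← one_div, le_div_iff₀ e9]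
    linarith
  have hint : Integrable (fun η : Env d => 1 - PolT β h η (tube d n v r)) (law d ρ) :=
    Slab46.int_PolT β h _
  have hnn : ∀ η : Env d, 0 ≤ 1 - PolT β h η (tube d n v r) := fun η => by
    have := PolT_le_one β h η (tube d n v r)
    linarith
  have hmk := mul_meas_ge_le_integral_of_nonneg (μ := law d ρ)
    (f := fun η : Env d => 1 - PolT β h η (tube d n v r))
    (Filter.Eventually.of_forall hnn) hint (1 / 2)
  have hsub : (law d ρ).real {η | PolT β h η (tube d n v ((n : ℝ) ^ (9 / 10 : ℝ))) < 1 / 2} ≤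
      (law d ρ).real {η | 1 / 2 ≤ 1 - PolT β h η (tube d n v r)} := by
    refine measureReal_mono fun η hη => ?_
    have hη' : PolT β h η (tube d n v ((n : ℝ) ^ (9 / 10 : ℝ))) < 1 / 2 := hη
    rw [← hr] at hη'
    show 1 / 2 ≤ 1 - PolT β h η (tube d n v r)
    linarith
  rw [← hI] at hmk
  linarith

end RtW74

open RtW74 in
/-- **LEAF C4.** The rate. -/
theorem rtW74 {d : ℕ} {ρ : Measure ℝ} [IsProbabilityMeasure ρ] (hd : 0 < d) (hρ : EM ρ)
    (β : ℝ) : RtW d ρ β := by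
  intro h v c n₀ H
  obtain ⟨C, -, hC⟩ := rate_tb hd hρ (tbP_of_HW H)
  exact ⟨C, hC⟩

end Pool.Agent.W_7d29a1_SW
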