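import Pool.Agent.W_7d29a1_SW.DefsW
import Pool.Agent.W_7d29a1_SD.SubG20

/-!
Theorem W, leaf C1: the velocity is a slope of the free energy.
-/

namespace Pool.Agent.W_7d29a1_SW

open MeasureTheory ProbabilityTheory Filter Topology Pool.Agent.W_MP_7d29a1_pr
  Pool.Agent.W_7d29a1_h46 Pool.Agent.W_7d29a1_h46u Pool.Agent.W_7d29a1_SD

variable {d : ℕ} {ρ : Measure ℝ} [IsProbabilityMeasure ρ] {β : ℝ}

/-- `exp (c √(log n)) / n` tends to zero. -/
theorem lim20 (c : ℝ) : Tendsto (fun n : ℕ => Real.exp (c * Real.sqrt (Real.log n)) / (n : ℝ))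
    atTop (𝓝 0) := by
  have h1 : Tendsto (fun n : ℕ => Real.sqrt (Real.log n)) atTop atTop :=
    Real.tendsto_sqrt_atTop.comp (Real.tendsto_log_atTop.comp tendsto_natCast_atTop_atTop)
  have h2 : Tendsto (fun x : ℝ => x * (x - c)) atTop atTop :=
    tendsto_id.atTop_mul_atTop₀ (tendsto_atTop_add_const_right _ (-c) tendsto_id)
  have h3 : Tendsto (fun n : ℕ => Real.exp (-(Real.sqrt (Real.log n) *
      (Real.sqrt (Real.log n) - c)))) atTop (𝓝 0) :=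
    Real.tendsto_exp_neg_atTop_nhds_zero.comp (h2.comp h1)
  refine h3.congr' ((eventually_ge_atTop 1).mono fun n hn => ?_)
  have hn' : (0 : ℝ) < n := by exact_mod_cast hn
  have hl : 0 ≤ Real.log n := Real.log_nonneg (by exact_mod_cast hn)
  have h4 : Real.exp (Real.log n) = n := Real.exp_log hn'
  have h5 := Real.mul_self_sqrt hl
  show Real.exp (-(Real.sqrt (Real.log n) * (Real.sqrt (Real.log n) - c))) =
    Real.exp (c * Real.sqrt (Real.log n)) / (n : ℝ)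
  rw [eq_div_iff hn'.ne', ← h4, ← Real.exp_add]
  congr 1
  rw [Real.log_exp]
  nlinarith

/-- Leaf C1. -/
theorem slW20 (hd : 0 < d) (hρ : EM ρ) : SlW d ρ β := by
  intro h v c n₀ hW k
  have hr : Tendsto (fun n : ℕ => ((n : ℝ) ^ (3 / 4 : ℝ)) / (n : ℝ)) atTop (𝓝 0) := by
    have t1 : Tendsto (fun n : ℕ => ((n : ℝ) ^ (-(1 / 4) : ℝ))) atTop (𝓝 0) :=
      (tendsto_rpow_neg_atTop (by norm_num : (0 : ℝ) < 1 / 4)).comp tendsto_natCast_atTop_atTop
    refine t1.congr' ((eventually_ge_atTop 1).mono fun n hn => ?_)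
    have hn' : (0 : ℝ) < n := by exact_mod_cast hn
    show (n : ℝ) ^ (-(1 / 4) : ℝ) = (n : ℝ) ^ (3 / 4 : ℝ) / (n : ℝ)
    rw [← Real.rpow_sub_one hn'.ne']
    norm_num
  refine coreG20 hd hρ h v k (by norm_num : (0 : ℝ) < 1 / 2) (by norm_num : (0 : ℝ) < 1 / 2)
    (fun n : ℕ => (n : ℝ) ^ (3 / 4 : ℝ)) hr ?_
  have h1 : ∀ᶠ n : ℕ in atTop, Real.exp (c * Real.sqrt (Real.log n)) / (n : ℝ) < 1 / 4 :=
    (lim20 c).eventually (gt_mem_nhds (by norm_num))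
  filter_upwards [h1, eventually_ge_atTop n₀, eventually_ge_atTop 1] with n hn1 hn2 hn3
  have hn' : (0 : ℝ) < n := by exact_mod_cast hn3
  have h2 := hW n hn2 ((n : ℝ) ^ (3 / 4 : ℝ)) (Real.rpow_pos_of_pos hn' _)
  have h3 := goodG20 (ρ := ρ) (β := β) h v n ((n : ℝ) ^ (3 / 4 : ℝ))
  have h4 : ((n : ℝ) ^ (3 / 4 : ℝ)) ^ 4 = (n : ℝ) ^ 2 * n := by
    rw [← Real.rpow_natCast, ← Real.rpow_mul hn'.le]
    norm_num
    rw [← pow_succ]
  rw [h4, mul_assoc] at h2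
  have h5 := le_of_mul_le_mul_left h2 (by positivity)
  rw [div_lt_iff₀ hn'] at hn1
  have h6 : (n : ℝ) * ∫ η, (1 - PolT β h η (tube d n v ((n : ℝ) ^ (3 / 4 : ℝ)))) ∂(law d ρ) <
      n * (1 / 4) := lt_of_le_of_lt h5 (by linarith)
  have h7 := lt_of_mul_lt_mul_left h6 hn'.le
  linarith

end Pool.Agent.W_7d29a1_SW
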