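import Pool.Agent.W_7d29a1_SW.DefsW
import Pool.Agent.W_7d29a1_AM.StepX15

/-!
Theorem W for every law: doubling of the fluctuation at a good point, and there is no good point
(helper83, after helper15 and helper73).
-/

namespace Pool.Agent.W_7d29a1_SW

open MeasureTheory ProbabilityTheory Filter Topology Pool.Agent.W_MP_7d29a1_pr
  Pool.Agent.W_7d29a1_h46 Pool.Agent.W_7d29a1_h46u Pool.Agent.W_7d29a1_D2.B35
  Pool.Agent.W_7d29a1_Q29 Pool.Agent.W_7d29a1_R34 Pool.Agent.W_7d29a1_SP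
  Pool.Agent.W_7d29a1_AM

/-- `StepG` with the amplification of every law. -/
def StepGU (ρ : Measure ℝ) (β : ℝ) : Prop := ∀ g : ℝ, 0 < g → ∃ Ca Cb : ℝ, 1 ≤ Ca ∧ 1 ≤ Cb ∧
  ∀ (h v : Vec 2) (Q c R : ℝ), 1 ≤ Q → 0 < c → c ≤ 1 → Pw ρ β h v g Q c R →
    ∃ Cs : ℝ, ∀ (n k : ℕ) (Ψ : ℝ), 1 ≤ n → k ≤ n → Cs * (1 + Real.sqrt (Real.log n)) ≤ Ψ →
      (En ρ β h k = Ψ ∨ Fn ρ β h k = Ψ) → ∃ (T j : ℕ), n ≤ T ∧ j ≤ T ∧
        (2 * Ψ ≤ En ρ β h j ∨ 2 * Ψ ≤ Fn ρ β h j) ∧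
        ∀ Φ : ℝ, (∀ i : ℕ, i ≤ T → En ρ β h i ≤ Φ ∧ Fn ρ β h i ≤ Φ) →
          (T : ℝ) ≤ Ca * n * (kap Q c (128 * T) * Φ) ^ Cb

variable {ρ : Measure ℝ} [IsProbabilityMeasure ρ]

theorem stepGU83 (hρ : EM ρ) {β : ℝ} (hS : SeqP) (hG : GrowU 2 ρ β) (hL : LkG ρ β)
    (hLoc : LocE 2 ρ β) : StepGU ρ β := by
  intro g hg
  obtain ⟨c₀, hc₀, hLoc'⟩ := hLoc g hg
  obtain ⟨c₂, hc₂, hc₂1, hL'⟩ := hL
  obtain ⟨C, hC, hG'⟩ := hG c₀ (10 ^ 5) hc₀ (by norm_num)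
  have hC0 : 0 < C := by linarith
  refine ⟨CaX C c₂, 3 * C, ?_, by linarith, fun h v Q c R hQ hc hc1 hP => ?_⟩
  · unfold CaX
    have h1 : 0 ≤ C * 130 * (8 : ℝ) ^ C := by positivity
    have h2 : 0 ≤ C * 64 * (2 / c₂) ^ C := by positivity
    linarith
  obtain ⟨Cs, hCs⟩ := stepX15 hρ hS hC hc₂ hc₂1
    (fun m T s₀ s₁ q Φ => hG' h (hLoc' h hP.gap) m T s₀ s₁ q Φ) le_rfl
    (fun N L e S => hL' h v g Q c R hQ hc hc1 hP N L e S) hQ hc hc1 hP.var hP.rate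
  refine ⟨max Cs (10 ^ 6 * C), fun n k Ψ hn hk hΨ hEF => ?_⟩
  have hs := Real.sqrt_nonneg (Real.log (n : ℝ))
  have hm0 : 0 ≤ max Cs (10 ^ 6 * C) := le_trans (by positivity) (le_max_right _ _)
  refine hCs n k Ψ hn hk ?_ ?_ hEF
  · refine (le_max_left _ (10 ^ 6 * C)).trans (le_trans ?_ hΨ)
    exact le_mul_of_one_le_right hm0 (by linarith)
  · refine le_trans ?_ hΨ
    exact mul_le_mul (le_max_right _ _) (by linarith) hs hm0

/-- The fluctuation grows faster than the square root of the logarithm. -/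
lemma unbGU83 (hρ : EM ρ) {β : ℝ} (hGap : GapQ 2 ρ β) {h v : Vec 2} {g Q c R : ℝ} (hg : 0 < g)
    (hQ : 1 ≤ Q) (hc : 0 < c) (hc1 : c ≤ 1) (hP : Pw ρ β h v g Q c R) (B : ℝ) :
    ∃ n₀ : ℕ, ∀ n : ℕ, n₀ ≤ n → ∀ Φ : ℝ, (∀ i : ℕ, i ≤ n → En ρ β h i ≤ Φ) →
      B * (1 + Real.sqrt (Real.log n)) ≤ Φ := by
  obtain ⟨a, C, ha, hC, hgap⟩ := hGap g hg
  obtain ⟨k, hk⟩ : ∃ k, k = a + 2 * |B| := ⟨_, rfl⟩
  obtain ⟨c', hc'⟩ : ∃ c', c' = a * (1 + Real.log Q) + C + 4 * |B| := ⟨_, rfl⟩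
  obtain ⟨l₀, hl₀⟩ : ∃ l₀, l₀ = (k ^ 2 / (2 * a) + c') * 2 / a := ⟨_, rfl⟩
  have hlQ : 0 ≤ Real.log Q := Real.log_nonneg hQ
  have hl : Tendsto (fun n : ℕ => Real.log n) atTop atTop :=
    Real.tendsto_log_atTop.comp tendsto_natCast_atTop_atTop
  obtain ⟨n₀, hn₀⟩ := eventually_atTop.1 ((hl.eventually_ge_atTop (l₀ + 1)).and
    (eventually_ge_atTop 2))
  refine ⟨n₀, fun N hN Φ hΦ => ?_⟩
  obtain ⟨hN1, hN2⟩ := hn₀ N hN
  obtain ⟨n, hnd⟩ : ∃ n, n = N / 2 := ⟨_, rfl⟩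
  have hn1 : 1 ≤ n := by omega
  have h2n : 2 * n ≤ N := by omega
  have hN4 : N ≤ 4 * n := by omega
  have hK1 : 1 ≤ kap Q c (2 * n) := one_le_kap15 hQ hc _
  have hV : Va ρ β h (2 * n) ≤ kap Q c (2 * n) := hP.var _
  have h1 := hgap h hP.gap n hn1 (kap Q c (2 * n)) (by linarith) hV
  have hn0 : (0 : ℝ) < n := by exact_mod_cast hn1
  have h2 : 0 < ((Finset.range n).filter fun t => a * Real.log (n / kap Q c (2 * n)) ≤
      C + (A ρ β h (2 * n) - A ρ β h t - A ρ β h (2 * n - t))).card := by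
    have : 0 < a * n := by positivity
    have h3 := this.trans_le h1
    exact_mod_cast h3
  obtain ⟨t, ht⟩ := Finset.card_pos.1 h2
  obtain ⟨ht1, ht2⟩ := Finset.mem_filter.1 ht
  rw [Finset.mem_range] at ht1
  have h3 : A ρ β h (2 * n) - A ρ β h t - A ρ β h (2 * n - t) =
      En ρ β h t + En ρ β h (2 * n - t) - En ρ β h (2 * n) := by
    unfold En
    rw [Nat.cast_sub (by omega)]
    ring
  have h4 := En_nonneg15 (ρ := ρ) (d := 2) (by norm_num) hρ β h (2 * n)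
  have h5 := hΦ t (by omega)
  have h6 := hΦ (2 * n - t) (by omega)
  have h7 : Real.log (n / kap Q c (2 * n)) =
      Real.log n - Real.log Q - c * Real.sqrt (Real.log ((2 * n : ℕ) : ℝ)) := by
    rw [Real.log_div hn0.ne' (by linarith)]
    unfold kap
    rw [Real.log_mul (by linarith) (Real.exp_pos _).ne', Real.log_exp]
    ring
  have h8 : Real.log ((2 * n : ℕ) : ℝ) = Real.log 2 + Real.log n := by
    push_cast
    rw [Real.log_mul (by norm_num) hn0.ne']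
  have hlog2 : Real.log 2 ≤ 1 := by linarith [Real.log_two_lt_d9]
  have hlog20 : 0 ≤ Real.log 2 := Real.log_nonneg (by norm_num)
  obtain ⟨l, hl'⟩ : ∃ l, l = Real.log ((2 * n : ℕ) : ℝ) := ⟨_, rfl⟩
  have hl0 : 0 ≤ l := by
    rw [hl']
    exact Real.log_natCast_nonneg _
  rw [← hl'] at h7 h8
  have hNl : Real.log N ≤ l + 1 := by
    have e1 : (N : ℝ) ≤ 4 * n := by exact_mod_cast hN4
    have e0 : (0 : ℝ) < N := by exact_mod_cast (by omega : 0 < N)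
    have e2 := Real.log_le_log e0 e1
    have e3 : Real.log (4 * (n : ℝ)) = 2 * Real.log 2 + Real.log n := by
      rw [Real.log_mul (by norm_num) hn0.ne', show (4 : ℝ) = 2 ^ 2 by norm_num, Real.log_pow]
      norm_num
    rw [e3] at e2
    linarith
  have hll : l₀ ≤ l := by linarith
  obtain ⟨s, hs⟩ : ∃ s, s = Real.sqrt l := ⟨_, rfl⟩
  have hs0 : 0 ≤ s := by rw [hs]; exact Real.sqrt_nonneg _
  have hs2 : s ^ 2 = l := by rw [hs]; exact Real.sq_sqrt hl0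
  rw [← hs] at h7
  have h9 : Real.sqrt (Real.log N) ≤ 1 + s := by
    rw [Real.sqrt_le_left (by positivity)]
    nlinarith
  have h10 : c * s ≤ s := mul_le_of_le_one_left hs0 hc1
  have h11 : k * s ≤ a * l / 2 + k ^ 2 / (2 * a) := by
    have e1 : 0 ≤ (a * s - k) ^ 2 / (2 * a) := by positivity
    have e2 : (a * s - k) ^ 2 / (2 * a) = a * s ^ 2 / 2 - k * s + k ^ 2 / (2 * a) := by
      field_simp
      ring
    rw [e2, hs2] at e1
    linarith
  have h12 : k ^ 2 / (2 * a) + c' ≤ a * l / 2 := by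
    rw [hl₀, div_le_iff₀ ha] at hll
    linarith
  have h13 : a * Real.log (n / kap Q c (2 * n)) ≤ C + 2 * Φ := by linarith
  rw [h7] at h13
  have h14 : a * (l - 1 - Real.log Q - s) ≤
      a * (Real.log n - Real.log Q - c * s) := mul_le_mul_of_nonneg_left (by linarith) ha.le
  have h15 : B * (1 + Real.sqrt (Real.log N)) ≤ |B| * (2 + s) := by
    calc B * (1 + Real.sqrt (Real.log N)) ≤ |B| * (1 + Real.sqrt (Real.log N)) :=
          mul_le_mul_of_nonneg_right (le_abs_self B) (by positivity)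
      _ ≤ |B| * (2 + s) := mul_le_mul_of_nonneg_left (by linarith) (abs_nonneg B)
  have h16 : a * l ≥ k * s + c' := by linarith
  rw [hk, hc'] at h16
  nlinarith

/-- There is no good point, every law. -/
theorem pointGU83 (hρ : EM ρ) {β : ℝ} (hStep : StepGU ρ β) (hBeta : BetaG ρ β) (hIter : IterP)
    (hGap : GapQ 2 ρ β) : PointG ρ β := by
  intro g hg
  obtain ⟨Ca, Cb, hCa, hCb, hst⟩ := hStep g hg
  obtain ⟨c, hc, hc1, hit⟩ := hIter Ca Cb hCa hCb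
  refine ⟨c, hc, hc1, fun h v Q R hQ hP => ?_⟩
  obtain ⟨Cs, hCs⟩ := hst h v Q c R hQ hc hc1 hP
  obtain ⟨n₁, hn₁⟩ := hBeta h v g Q c R hQ hc hc1 hP
  choose j hj hmax using exmax15 ρ β h
  obtain ⟨f, hf⟩ : ∃ f : ℕ → ℝ, f = fun n => max (En ρ β h (j n)) (Fn ρ β h (j n)) := ⟨_, rfl⟩
  have hfE : ∀ n i : ℕ, i ≤ n → En ρ β h i ≤ f n := fun n i hi => by
    rw [hf]
    exact (hmax n i hi).1
  have hfF : ∀ n i : ℕ, i ≤ n → Fn ρ β h i ≤ f n := fun n i hi => by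
    rw [hf]
    exact (hmax n i hi).2
  obtain ⟨n₂, hn₂⟩ := unbGU83 hρ hGap hg hQ hc hc1 hP (max Cs 1)
  have hl : Tendsto (fun n : ℕ => Real.sqrt (Real.log n)) atTop atTop :=
    Real.tendsto_sqrt_atTop.comp (Real.tendsto_log_atTop.comp tendsto_natCast_atTop_atTop)
  obtain ⟨n₃, hn₃⟩ := eventually_atTop.1 (hl.eventually_ge_atTop (Real.log Q / (9 * c)))
  have hw : ∀ n : ℕ, max Cs 1 * 1 ≤ max Cs 1 * (1 + Real.sqrt (Real.log n)) := fun n =>
    mul_le_mul_of_nonneg_left (by linarith [Real.sqrt_nonneg (Real.log (n : ℝ))])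
      (zero_le_one.trans (le_max_right _ _))
  refine hit Q f (max (max n₁ n₂) (max n₃ 1)) hQ (fun n hn => ?_) (fun n hn => ?_)
    (fun n hn => ?_)
  · have := hn₂ n (by omega) (f n) (hfE n)
    have h1 := hw n
    have h2 := le_max_right Cs 1
    linarith
  · rw [hf]
    refine max_le (hn₁ n (j n) (by omega) (hj n)) ?_
    have h1 := Fn_sq15 (ρ := ρ) (d := 2) (by norm_num) hρ β h (j n)
    have h2 : Va ρ β h (j n) ≤ kap Q c n := (hP.var _).trans (kap_mono15 hQ hc (hj n))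
    have h3 := hn₃ n (by omega)
    have h4 : kap Q c n ≤ Real.exp (5 * c * Real.sqrt (Real.log n)) ^ 2 := by
      unfold kap
      have h5 : Q = Real.exp (Real.log Q) := (Real.exp_log (by linarith)).symm
      rw [← Real.exp_nat_mul, h5, ← Real.exp_add, Real.exp_le_exp]
      rw [div_le_iff₀ (by positivity)] at h3
      push_cast
      nlinarith
    exact (pow_le_pow_iff_left₀ (Fn_nonneg15 β h _) (Real.exp_pos _).le two_ne_zero).1
      ((h1.trans h2).trans h4)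
  · have h0 := hn₂ n (by omega) (f n) (hfE n)
    have h00 : Cs * (1 + Real.sqrt (Real.log n)) ≤ f n := by
      refine le_trans (mul_le_mul_of_nonneg_right (le_max_left _ _) ?_) h0
      positivity
    obtain ⟨T, i, hT, hi, h1, h2⟩ := hCs n (j n) (f n) (by omega) (hj n) h00 (by
        rw [hf]
        rcases max_choice (En ρ β h (j n)) (Fn ρ β h (j n)) with h3 | h3
        · exact Or.inl h3.symm
        · exact Or.inr h3.symm)
    refine ⟨T, hT, ?_, ?_⟩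
    · rcases h1 with h1 | h1
      · exact h1.trans (hfE T i hi)
      · exact h1.trans (hfF T i hi)
    · have h3 := h2 (f T) fun i hi => ⟨hfE T i hi, hfF T i hi⟩
      have h4 : kap Q c (128 * T) = Q * Real.exp (c * Real.sqrt (Real.log (128 * T))) := by
        unfold kap
        push_cast
        rfl
      rwa [h4] at h3



end Pool.Agent.W_7d29a1_SW
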