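import Pool.Agent.W_7d29a1_SW.WZeroF98
import Pool.Agent.W_7d29a1_PL.TrPL52

/-!
Theorem W0 in the letters of the problem.
-/

namespace Pool.Agent.W_7d29a1_SW

open MeasureTheory ProbabilityTheory Filter Topology Pool.Agent.W_MP_7d29a1_pr
  Pool.Agent.W_7d29a1_h46 Pool.Agent.W_7d29a1_h46u Pool.Agent.W_7d29a1_D2.B35
  Pool.Agent.W_7d29a1_Q29 Pool.Agent.W_7d29a1_R34 Pool.Agent.W_7d29a1_SP Pool.Agent.W_7d29a1_SD
  Pool.Agent.W_7d29a1_PL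

/-- **Theorem W0** in the letters of the problem: in two transversal dimensions, at every tilt and
around every direction. -/
theorem clauseW098 {Ω : Type*} [MeasurableSpace Ω] {μ : Measure Ω} [IsProbabilityMeasure μ] {d : ℕ}
    {ρ : Measure ℝ} [IsProbabilityMeasure ρ] {ω : ℕ × Site d → Ω → ℝ} {β : ℝ}
    (hω : IID μ ρ ω) (hρ : EM ρ) (hnc : ∀ c : ℝ, ρ {c} ≠ 1) (hβ : 0 < β) (hd : d = 2)
    (h : Vec d) : ∃ c : ℝ, 0 < c ∧ ∀ v : Vec d, ∃ ε : ℝ, 0 < ε ∧ ∃ᶠ n : ℕ in atTop,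
      Real.exp (c * Real.sqrt (Real.log n)) ≤ Var[Lit29.X ω β h n; μ] ∨
        ε ≤ Lit29.EP μ ω β h
          (tube d n v (Real.sqrt n * Real.exp (c * Real.sqrt (Real.log n))))ᶜ := by
  subst hd
  obtain ⟨c, hc, H⟩ := mainW098 hρ hnc hβ h (W_7d29a1_L2.vsd2 hρ hnc hβ h)
  refine ⟨c, hc, fun v => ?_⟩
  obtain ⟨ε, hε, H1⟩ := H v
  refine ⟨ε, hε, H1.mono fun n hn => ?_⟩
  rw [lvar52 two_pos hω hρ, ltub52 two_pos hω]
  exact hn

end Pool.Agent.W_7d29a1_SW
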