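import Pool.Agent.W_7d29a1_SW.DefsW

/-!
The variance from the bulk variance: the upper tail from the counting at the same scale, the lower
side from its square mean.
-/

namespace Pool.Agent.W_7d29a1_SW

open MeasureTheory ProbabilityTheory Filter Topology Pool.Agent.W_MP_7d29a1_pr
  Pool.Agent.W_7d29a1_h46 Pool.Agent.W_7d29a1_h46u Pool.Agent.W_7d29a1_D2.B35
  Pool.Agent.W_7d29a1_Q29 Pool.Agent.W_7d29a1_R34 Pool.Agent.W_7d29a1_SP Pool.Agent.W_7d29a1_SD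

namespace VaW74

/-- The pointwise dyadic bound. -/
lemma pt_bound {x0 m y : ℝ} (hx0 : 1 ≤ x0) (hm : 0 < m) (J : ℕ) (hJ : m ≤ 2 ^ J) :
    (max 0 y) ^ 2 ≤ x0 ^ 2 + ∑ j ∈ Finset.range J,
      (if 2 ^ j * x0 ≤ y then 4 ^ (j + 1) * x0 ^ 2 else 0) + |y| ^ 4 / m ^ 2 := by
  have hsum : ∀ j ∈ Finset.range J,
      (0 : ℝ) ≤ (if 2 ^ j * x0 ≤ y then 4 ^ (j + 1) * x0 ^ 2 else 0) := by
    intro j _
    split_ifs
    · positivity
    · exact le_rfl
  have hS := Finset.sum_nonneg hsum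
  have h4 : 0 ≤ |y| ^ 4 / m ^ 2 := by positivity
  rcases lt_or_ge y x0 with h1 | h1
  · have h2 : max 0 y ≤ x0 := max_le (by linarith) h1.le
    have h3 : (max 0 y) ^ 2 ≤ x0 ^ 2 := pow_le_pow_left₀ (le_max_left _ _) h2 2
    linarith
  · have hy0 : 0 < y := by linarith
    rw [max_eq_right hy0.le]
    rcases lt_or_ge y (2 ^ J * x0) with h2 | h2
    · have hex : ∃ k : ℕ, y < 2 ^ k * x0 := ⟨J, h2⟩
      classical
      obtain ⟨k, hk⟩ : ∃ k : ℕ, k = Nat.find hex := ⟨_, rfl⟩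
      have hk1 : y < 2 ^ k * x0 := by
        rw [hk]
        exact Nat.find_spec hex
      have hk2 : k ≤ J := by
        rw [hk]
        exact Nat.find_min' hex h2
      have hk3 : k ≠ 0 := by
        intro h0
        rw [h0, pow_zero, one_mul] at hk1
        linarith
      obtain ⟨j, rfl⟩ : ∃ j, k = j + 1 := ⟨k - 1, by omega⟩
      have hj : 2 ^ j * x0 ≤ y := by
        by_contra hcon
        have h3 : Nat.find hex ≤ j := Nat.find_min' hex (not_le.1 hcon)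
        omega
      have h5 : y ^ 2 ≤ 4 ^ (j + 1) * x0 ^ 2 := by
        have h6 : y ^ 2 ≤ (2 ^ (j + 1) * x0) ^ 2 := pow_le_pow_left₀ hy0.le hk1.le 2
        have h7 : ((2 : ℝ) ^ (j + 1) * x0) ^ 2 = 4 ^ (j + 1) * x0 ^ 2 := by
          rw [mul_pow, ← pow_mul, mul_comm (j + 1) 2, pow_mul]
          norm_num
        rwa [h7] at h6
      have h8 := Finset.single_le_sum hsum (Finset.mem_range.2 (show j < J by omega))
      rw [if_pos hj] at h8
      have h9 : 0 ≤ x0 ^ 2 := by positivity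
      linarith
    · have h3 : m ≤ y := by
        have h5 : (2 : ℝ) ^ J ≤ 2 ^ J * x0 := le_mul_of_one_le_right (by positivity) hx0
        linarith
      have h5 : y ^ 2 ≤ |y| ^ 4 / m ^ 2 := by
        rw [le_div_iff₀ (by positivity), abs_of_pos hy0]
        have h6 : m ^ 2 ≤ y ^ 2 := pow_le_pow_left₀ hm.le h3 2
        calc y ^ 2 * m ^ 2 ≤ y ^ 2 * y ^ 2 := mul_le_mul_of_nonneg_left h6 (by positivity)
          _ = y ^ 4 := by ring
      have h9 : 0 ≤ x0 ^ 2 := by positivity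
      linarith

/-- The second moment from the tails and the fourth moment. -/
lemma tail2 {Ω : Type*} [MeasurableSpace Ω] {μ : Measure Ω} [IsProbabilityMeasure μ] {f : Ω → ℝ}
    (hf : Measurable f) (h4 : Integrable (fun ω => |f ω| ^ 4) μ) {x0 D M4 m : ℝ} (hx0 : 1 ≤ x0)
    (H : ∀ x : ℝ, x0 ≤ x → μ.real {ω | x ≤ f ω} ≤ D / x ^ 2) (J : ℕ) (hm : 0 < m)
    (hJ : m ≤ 2 ^ J) (hM : ∫ ω, |f ω| ^ 4 ∂μ ≤ M4 * m ^ 2) :
    ∫ ω, (max 0 (f ω)) ^ 2 ∂μ ≤ x0 ^ 2 + 4 * D * J + M4 := by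
  have hms : ∀ j : ℕ, MeasurableSet {ω | 2 ^ j * x0 ≤ f ω} := fun j =>
    measurableSet_le measurable_const hf
  have hterm : ∀ j : ℕ, (fun ω => if 2 ^ j * x0 ≤ f ω then 4 ^ (j + 1) * x0 ^ 2 else 0) =
      Set.indicator {ω | 2 ^ j * x0 ≤ f ω} (fun _ => 4 ^ (j + 1) * x0 ^ 2) := by
    intro j
    ext ω
    rw [Set.indicator_apply]
    rfl
  have hint : ∀ j ∈ Finset.range J,
      Integrable (fun ω => if 2 ^ j * x0 ≤ f ω then 4 ^ (j + 1) * x0 ^ 2 else (0 : ℝ)) μ := by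
    intro j _
    rw [hterm j]
    exact (integrable_const _).indicator (hms j)
  have hI : Integrable (fun ω => x0 ^ 2 + ∑ j ∈ Finset.range J,
      (if 2 ^ j * x0 ≤ f ω then 4 ^ (j + 1) * x0 ^ 2 else 0) + |f ω| ^ 4 / m ^ 2) μ :=
    ((integrable_const _).add (integrable_finsetSum _ hint)).add (h4.div_const _)
  have h1 := integral_mono_of_nonneg (μ := μ) (Filter.Eventually.of_forall fun ω =>
    sq_nonneg (max 0 (f ω))) hI (Filter.Eventually.of_forall fun ω => pt_bound hx0 hm J hJ)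
  refine h1.trans ?_
  have e1 : ∫ ω, (x0 ^ 2 + ∑ j ∈ Finset.range J,
      (if 2 ^ j * x0 ≤ f ω then 4 ^ (j + 1) * x0 ^ 2 else 0) + |f ω| ^ 4 / m ^ 2) ∂μ =
      x0 ^ 2 + ∑ j ∈ Finset.range J, μ.real {ω | 2 ^ j * x0 ≤ f ω} * (4 ^ (j + 1) * x0 ^ 2) +
        (∫ ω, |f ω| ^ 4 ∂μ) / m ^ 2 := by
    have i1 : Integrable (fun _ : Ω => x0 ^ 2) μ := integrable_const _
    have i2 : Integrable (fun ω => ∑ j ∈ Finset.range J,
        (if 2 ^ j * x0 ≤ f ω then 4 ^ (j + 1) * x0 ^ 2 else (0 : ℝ))) μ :=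
      integrable_finsetSum _ hint
    have i12 : Integrable (fun ω => x0 ^ 2 + ∑ j ∈ Finset.range J,
        (if 2 ^ j * x0 ≤ f ω then 4 ^ (j + 1) * x0 ^ 2 else (0 : ℝ))) μ := i1.add i2
    have i3 : Integrable (fun ω => |f ω| ^ 4 / m ^ 2) μ := h4.div_const _
    rw [integral_add i12 i3, integral_add i1 i2, integral_const,
      integral_finsetSum _ hint, integral_div]
    congr 1
    congr 1
    · simp
    · refine Finset.sum_congr rfl fun j _ => ?_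
      rw [hterm j, integral_indicator_const _ (hms j), smul_eq_mul]
  rw [e1]
  have e2 : ∑ j ∈ Finset.range J, μ.real {ω | 2 ^ j * x0 ≤ f ω} * (4 ^ (j + 1) * x0 ^ 2) ≤
      ∑ _j ∈ Finset.range J, 4 * D := by
    refine Finset.sum_le_sum fun j _ => ?_
    have h2 : x0 ≤ 2 ^ j * x0 := le_mul_of_one_le_left (by linarith) (one_le_pow₀ (by norm_num))
    have h3 := H (2 ^ j * x0) h2
    have h4' : (0 : ℝ) < 4 ^ (j + 1) * x0 ^ 2 := by positivity
    have h5 := mul_le_mul_of_nonneg_right h3 h4'.le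
    refine h5.trans (le_of_eq ?_)
    have h6 : ((2 : ℝ) ^ j * x0) ^ 2 = 4 ^ j * x0 ^ 2 := by
      rw [mul_pow, ← pow_mul, mul_comm j 2, pow_mul]
      norm_num
    have h9 : (4 : ℝ) ^ (j + 1) = 4 ^ j * 4 := pow_succ _ _
    rw [h6, h9]
    have h7 : (4 : ℝ) ^ j ≠ 0 := by positivity
    have h8 : x0 ≠ 0 := by positivity
    field_simp
  rw [Finset.sum_const, Finset.card_range, nsmul_eq_mul] at e2
  have e3 : (∫ ω, |f ω| ^ 4 ∂μ) / m ^ 2 ≤ M4 := by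
    rw [div_le_iff₀ (by positivity)]
    exact hM
  linarith

/-- The number of dyadic scales. -/
lemma scales {m : ℕ} (hm : 1 ≤ m) : ∃ J : ℕ, (m : ℝ) ≤ 2 ^ J ∧ (J : ℝ) ≤ 2 * (1 + Real.log m) := by
  have hm1 : (1 : ℝ) ≤ m := by exact_mod_cast hm
  have hm0 : (0 : ℝ) < m := by linarith
  have hl : 0 ≤ Real.log m := Real.log_nonneg hm1
  have h2 : 0 < Real.log 2 := Real.log_pos one_lt_two
  have h3 : (0.6931471803 : ℝ) < Real.log 2 := Real.log_two_gt_d9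
  refine ⟨⌈Real.log m / Real.log 2⌉₊, ?_, ?_⟩
  · have h4 := Nat.le_ceil (Real.log m / Real.log 2)
    rw [div_le_iff₀ h2] at h4
    rw [← Real.log_le_log_iff hm0 (by positivity), Real.log_pow]
    exact h4
  · have h4 := (Nat.ceil_lt_add_one (show 0 ≤ Real.log m / Real.log 2 by positivity)).le
    have h5 : Real.log m / Real.log 2 ≤ 2 * Real.log m := by
      rw [div_le_iff₀ h2]
      nlinarith
    linarith

/-- The numbers at the end. -/
lemma fin_num {ℓ K Φ C₁ C₄ J : ℝ} (hℓ1 : 1 ≤ ℓ) (hK : 0 ≤ K) (hC₁ : 1 ≤ C₁)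
    (hC₄ : 0 ≤ C₄) (hJ2 : J ≤ 2 * ℓ) :
    (4 * ℓ * (Real.sqrt K + Φ)) ^ 2 + ((2 * C₁ * (Φ + 1)) ^ 2 + 4 * (4 * C₁ ^ 2 * K) * J + C₄) ≤
      (32 + 40 * C₁ ^ 2 + C₄) * ℓ ^ 2 * (1 + K + Φ ^ 2) := by
  have hsK : Real.sqrt K ^ 2 = K := Real.sq_sqrt hK
  have f1 : (4 * ℓ * (Real.sqrt K + Φ)) ^ 2 ≤ 32 * ℓ ^ 2 * (K + Φ ^ 2) := by
    have h1 : (Real.sqrt K + Φ) ^ 2 ≤ 2 * (K + Φ ^ 2) := by
      nlinarith [sq_nonneg (Real.sqrt K - Φ)]
    have h2 : (4 * ℓ * (Real.sqrt K + Φ)) ^ 2 = 16 * ℓ ^ 2 * (Real.sqrt K + Φ) ^ 2 := by ring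
    rw [h2]
    have h3 : 0 ≤ 16 * ℓ ^ 2 := by positivity
    have h4 := mul_le_mul_of_nonneg_left h1 h3
    linarith
  have f2 : (2 * C₁ * (Φ + 1)) ^ 2 ≤ 8 * C₁ ^ 2 * (1 + Φ ^ 2) := by
    have h1 : (Φ + 1) ^ 2 ≤ 2 * (1 + Φ ^ 2) := by nlinarith [sq_nonneg (Φ - 1)]
    have h2 : (2 * C₁ * (Φ + 1)) ^ 2 = 4 * C₁ ^ 2 * (Φ + 1) ^ 2 := by ring
    rw [h2]
    have h4 := mul_le_mul_of_nonneg_left h1 (show 0 ≤ 4 * C₁ ^ 2 by positivity)
    linarith
  have f3 : 4 * (4 * C₁ ^ 2 * K) * J ≤ 32 * C₁ ^ 2 * K * ℓ := by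
    have h1 : 0 ≤ 16 * C₁ ^ 2 * K := by positivity
    have h4 := mul_le_mul_of_nonneg_left hJ2 h1
    linarith
  have hℓ2 : 1 ≤ ℓ ^ 2 := one_le_pow₀ hℓ1
  have hℓ3 : ℓ ≤ ℓ ^ 2 := by nlinarith
  have hW : 0 ≤ 1 + K + Φ ^ 2 := by positivity
  have g1 : 32 * ℓ ^ 2 * (K + Φ ^ 2) ≤ 32 * (ℓ ^ 2 * (1 + K + Φ ^ 2)) := by nlinarith
  have g2 : 8 * C₁ ^ 2 * (1 + Φ ^ 2) ≤ 8 * C₁ ^ 2 * (ℓ ^ 2 * (1 + K + Φ ^ 2)) := by
    refine mul_le_mul_of_nonneg_left ?_ (by positivity)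
    have h1 : 1 + K + Φ ^ 2 ≤ ℓ ^ 2 * (1 + K + Φ ^ 2) := le_mul_of_one_le_left hW hℓ2
    linarith
  have g3 : 32 * C₁ ^ 2 * K * ℓ ≤ 32 * C₁ ^ 2 * (ℓ ^ 2 * (1 + K + Φ ^ 2)) := by
    have h1 : K * ℓ ≤ ℓ ^ 2 * (1 + K + Φ ^ 2) := by
      calc K * ℓ ≤ (1 + K + Φ ^ 2) * ℓ ^ 2 :=
            mul_le_mul (by nlinarith) hℓ3 (by linarith) hW
        _ = _ := by ring
    have h2 := mul_le_mul_of_nonneg_left h1 (show 0 ≤ 32 * C₁ ^ 2 by positivity)
    linarith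
  have g4 : C₄ ≤ C₄ * (ℓ ^ 2 * (1 + K + Φ ^ 2)) := by
    refine le_mul_of_one_le_right hC₄ ?_
    have h1 : 1 ≤ 1 + K + Φ ^ 2 := by nlinarith [sq_nonneg Φ]
    exact one_le_mul_of_one_le_of_one_le hℓ2 h1
  have hfin : (32 + 40 * C₁ ^ 2 + C₄) * ℓ ^ 2 * (1 + K + Φ ^ 2) =
      32 * (ℓ ^ 2 * (1 + K + Φ ^ 2)) + 8 * C₁ ^ 2 * (ℓ ^ 2 * (1 + K + Φ ^ 2)) +
        32 * C₁ ^ 2 * (ℓ ^ 2 * (1 + K + Φ ^ 2)) + C₄ * (ℓ ^ 2 * (1 + K + Φ ^ 2)) := by ring
  rw [hfin]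
  linarith

end VaW74

open VaW74 in
/-- **LEAF A6.** The variance from the bulk variance. -/
theorem vaW74 {d : ℕ} {ρ : Measure ℝ} [IsProbabilityMeasure ρ] {β : ℝ} (hd : 0 < d) (hρ : EM ρ)
    (hS : SaW d ρ β) (hN : NgW d ρ β) : VaW d ρ β := by
  intro c₀ hc₀
  obtain ⟨C₁, hC₁, H₁⟩ := hS c₀ hc₀
  obtain ⟨C₄, hC₄, H₄⟩ := momU (d := d) hd hρ β 4
  refine ⟨32 + 40 * C₁ ^ 2 + C₄, by nlinarith, fun h hL θ hθ hθc m K Φ hm hK hV hE => ?_⟩
  -- the parameter `c₀` is at most `1`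
  have hc1 : c₀ ≤ 1 := by
    have h1 := hL 1
    have h2 : (((Finset.range 1).filter fun t => c₀ ≤ (law d ρ).real
        {η | ∃ y ∈ boxF d t, c₀ * Z β h η t ≤ PP β h η t y}).card : ℝ) ≤ 1 := by
      have h3 := Finset.card_filter_le (Finset.range 1) fun t => c₀ ≤ (law d ρ).real
        {η | ∃ y ∈ boxF d t, c₀ * Z β h η t ≤ PP β h η t y}
      rw [Finset.card_range] at h3
      exact_mod_cast h3
    have h4 := h1.trans h2
    simpa using h4
  have hθ2 : θ ≤ 1 / 2 := by linarith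
  have hm1 : (1 : ℝ) ≤ m := by exact_mod_cast hm
  have hm0 : (0 : ℝ) < m := by linarith
  have hl : 0 ≤ Real.log m := Real.log_nonneg hm1
  have hΦ : 0 ≤ Φ := by
    have h1 := hE 0 (Nat.zero_le _)
    have h2 : En ρ β h 0 = 0 := by
      have h3 : ∀ η : Env d, X β h η 0 = 0 := by
        intro η
        rw [X, Z_zero, Real.log_one]
      have h4 : A ρ β h 0 = 0 := by
        unfold A
        simp only [h3]
        exact integral_zero _ _
      unfold En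
      rw [h4]
      simp
    linarith
  obtain ⟨hint, hmom⟩ := H₄ h m hm
  have hmX : Measurable fun η : Env d => X β h η m - A ρ β h m := (measurable_X β h m).sub_const _
  -- the lower side
  have hlow := hN θ hθ hθ2 h m K Φ hm hK (fun L hL' => hV L (by omega)) fun i hi => hE i (by omega)
  -- the upper side
  obtain ⟨J, hJ1, hJ2⟩ := scales hm
  have hup : ∫ η, (max 0 (X β h η m - A ρ β h m)) ^ 2 ∂(law d ρ) ≤
      (2 * C₁ * (Φ + 1)) ^ 2 + 4 * (4 * C₁ ^ 2 * K) * J + C₄ := by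
    refine tail2 hmX hint (m := (m : ℝ)) ?_ (fun x hx => ?_) J hm0 hJ1 ?_
    · nlinarith
    · obtain ⟨q, hq⟩ : ∃ q : ℝ, q = (law d ρ).real {η | x ≤ X β h η m - A ρ β h m} := ⟨_, rfl⟩
      rw [← hq]
      have hx0 : 0 < x := by nlinarith
      rcases (show 0 ≤ q by rw [hq]; exact measureReal_nonneg).eq_or_lt with h0 | h0
      · rw [← h0]
        positivity
      · have e1 : {η : Env d | x ≤ X β h η m - A ρ β h m} =
            {η : Env d | A ρ β h m + x ≤ X β h η m} := by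
          ext η
          simp only [Set.mem_ofPred_eq]
          constructor
          · intro h1
            linarith
          · intro h1
            linarith
        have h1 := H₁ h hL θ hθ hθc m x q K Φ hm h0 hK hV hE (by rw [hq, e1])
        have h2 : x ≤ 2 * C₁ * Real.sqrt (K / q) := by nlinarith
        have h3 : x ^ 2 ≤ (2 * C₁ * Real.sqrt (K / q)) ^ 2 := pow_le_pow_left₀ hx0.le h2 2
        rw [mul_pow, Real.sq_sqrt (by positivity)] at h3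
        rw [le_div_iff₀ (by positivity)]
        have h4 : q * x ^ 2 ≤ q * ((2 * C₁) ^ 2 * (K / q)) := mul_le_mul_of_nonneg_left h3 h0.le
        have h5 : q * ((2 * C₁) ^ 2 * (K / q)) = 4 * C₁ ^ 2 * K := by
          field_simp
          ring
        linarith
    · refine hmom.trans (le_of_eq ?_)
      have e1 : ((1 / 2 : ℝ) * ((4 : ℕ) : ℝ)) = ((2 : ℕ) : ℝ) := by norm_num
      rw [e1, Real.rpow_natCast]
  -- the sum
  have hmax : ∀ y : ℝ, y ^ 2 = (max 0 (-y)) ^ 2 + (max 0 y) ^ 2 := by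
    intro y
    rcases le_total 0 y with h1 | h1
    · rw [max_eq_left (by linarith : -y ≤ 0), max_eq_right h1]
      ring
    · rw [max_eq_right (by linarith : 0 ≤ -y), max_eq_left h1]
      ring
  have hi2 : Integrable (fun η : Env d => (X β h η m - A ρ β h m) ^ 2) (law d ρ) := by
    obtain ⟨_, _, H2⟩ := momU (d := d) hd hρ β 2
    refine (H2 h m hm).1.congr (Filter.Eventually.of_forall fun η => ?_)
    simp only [sq_abs]
  have hi3 : ∀ g : Env d → ℝ, Measurable g →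
      (∀ η, g η ^ 2 ≤ (X β h η m - A ρ β h m) ^ 2) → Integrable (fun η => g η ^ 2) (law d ρ) := by
    intro g hg hle
    refine hi2.mono' (hg.pow_const 2).aestronglyMeasurable (Filter.Eventually.of_forall fun η => ?_)
    rw [Real.norm_eq_abs, abs_of_nonneg (sq_nonneg _)]
    exact hle η
  have hia : Integrable (fun η : Env d => (max 0 (A ρ β h m - X β h η m)) ^ 2) (law d ρ) := by
    refine hi3 (fun η => max 0 (A ρ β h m - X β h η m))
      (measurable_const.max ((measurable_const).sub (measurable_X β h m))) fun η => ?_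
    have h1 := hmax (X β h η m - A ρ β h m)
    rw [neg_sub] at h1
    have h2 := sq_nonneg (max 0 (X β h η m - A ρ β h m))
    linarith
  have hib : Integrable (fun η : Env d => (max 0 (X β h η m - A ρ β h m)) ^ 2) (law d ρ) := by
    refine hi3 (fun η => max 0 (X β h η m - A ρ β h m)) (measurable_const.max hmX) fun η => ?_
    have h1 := hmax (X β h η m - A ρ β h m)
    have h2 := sq_nonneg (max 0 (-(X β h η m - A ρ β h m)))
    linarith
  have hVa : Va ρ β h m = ∫ η, (max 0 (A ρ β h m - X β h η m)) ^ 2 ∂(law d ρ) +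
      ∫ η, (max 0 (X β h η m - A ρ β h m)) ^ 2 ∂(law d ρ) := by
    unfold Va
    rw [← integral_add hia hib]
    refine integral_congr_ae (Filter.Eventually.of_forall fun η => ?_)
    have h1 := hmax (X β h η m - A ρ β h m)
    rw [neg_sub] at h1
    exact h1
  rw [hVa]
  obtain ⟨ℓ, hℓ⟩ : ∃ ℓ : ℝ, ℓ = 1 + Real.log m := ⟨_, rfl⟩
  rw [← hℓ] at hlow hJ2 ⊢
  have hℓ1 : 1 ≤ ℓ := by linarith
  exact (add_le_add hlow hup).trans (fin_num hℓ1 hK hC₁ hC₄ hJ2)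

end Pool.Agent.W_7d29a1_SW
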