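import Pool.Agent.W_7d29a1_SW.DefsW
import Pool.Agent.W_7d29a1_Q29.Npb39
import Pool.Agent.W_7d29a1_Q29.Poly85

/-!
Theorem W: the bulk variance (helper83). Pythagoras, monotonicity, two copies, Newman-Piza.
-/

namespace Pool.Agent.W_7d29a1_SW

open MeasureTheory ProbabilityTheory Filter Topology Pool.Agent.W_MP_7d29a1_pr
  Pool.Agent.W_7d29a1_h46 Pool.Agent.W_7d29a1_h46u Pool.Agent.W_7d29a1_D2.B35
  Pool.Agent.W_7d29a1_Q29 Pool.Agent.W_7d29a1_R34 Pool.Agent.W_7d29a1_SP Pool.Agent.W_7d29a1_SD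

lemma int3_83 {Ω : Type*} [MeasurableSpace Ω] {μ : Measure Ω} {a b c : Ω → ℝ}
    (ha : Integrable a μ) (hb : Integrable b μ) (hc : Integrable c μ) :
    ∫ x, (a x + (b x + c x)) ∂μ = ∫ x, a x ∂μ + (∫ x, b x ∂μ + ∫ x, c x ∂μ) := by
  have h1 : ∫ x, (a x + (b x + c x)) ∂μ = ∫ x, a x ∂μ + ∫ x, (b x + c x) ∂μ :=
    integral_add ha (hb.add hc)
  rw [h1, integral_add hb hc]

variable {d : ℕ} {ρ : Measure ℝ} [IsProbabilityMeasure ρ]

/-- The conditional mean of a square integrable function is square integrable. -/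
lemma memLp_cE83 (S : Set (ℕ × Site d)) {F : Env d → ℝ} (hm : Measurable F)
    (hF : Integrable (fun η => F η ^ 2) (law d ρ)) : MemLp (cE ρ S F) 2 (law d ρ) := by
  have h0 : Integrable (fun w : Env d × Env d => F (spl S w.1 w.2) ^ 2)
      ((law d ρ).prod (law d ρ)) :=
    (mp_spl (ρ := ρ) S).integrable_comp_of_integrable (g := fun η => F η ^ 2) hF
  rw [memLp_two_iff_integrable_sq (measurable_cE hm S).aestronglyMeasurable]
  have h1 : Integrable (fun η => ∫ ξ, F (spl S η ξ) ^ 2 ∂(law d ρ)) (law d ρ) :=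
    h0.integral_prod_left
  refine h1.mono' ((measurable_cE hm S).pow_const 2).aestronglyMeasurable ?_
  filter_upwards [h0.prod_right_ae] with η hη
  rw [Real.norm_eq_abs, abs_of_nonneg (sq_nonneg _)]
  have h2 : MemLp (fun ξ => F (spl S η ξ)) 2 (law d ρ) := by
    have hm' : Measurable fun ξ => F (spl S η ξ) := hm.comp (measurable_spl_right S η)
    rw [memLp_two_iff_integrable_sq hm'.aestronglyMeasurable]
    exact hη
  have h3 : Integrable (fun ξ => F (spl S η ξ)) (law d ρ) := h2.integrable one_le_two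
  have h4 : 0 ≤ ∫ ξ, (F (spl S η ξ) - cE ρ S F η) ^ 2 ∂(law d ρ) :=
    integral_nonneg fun _ => sq_nonneg _
  have h5 : ∀ ξ, (F (spl S η ξ) - cE ρ S F η) ^ 2 =
      F (spl S η ξ) ^ 2 + (-(2 * cE ρ S F η) * F (spl S η ξ) + cE ρ S F η ^ 2) := fun ξ => by ring
  simp only [h5] at h4
  rw [int3_83 hη (h3.const_mul _) (integrable_const _), integral_const_mul] at h4
  simp only [integral_const, probReal_univ, one_smul] at h4
  have h6 : ∫ ξ, F (spl S η ξ) ∂(law d ρ) = cE ρ S F η := rfl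
  rw [h6] at h4
  show cE ρ S F η ^ 2 ≤ ∫ ξ, F (spl S η ξ) ^ 2 ∂(law d ρ)
  nlinarith

/-- Pythagoras. -/
lemma pyth83 (S : Set (ℕ × Site d)) {F H : Env d → ℝ} (hm : Measurable F)
    (hF : Integrable (fun η => F η ^ 2) (law d ρ)) (hH : DependsOn H S)
    (hHm : Measurable H) (hH2 : Integrable (fun η => H η ^ 2) (law d ρ)) :
    ∫ η, (F η - H η) ^ 2 ∂(law d ρ) =
      ∫ η, (F η - cE ρ S F η) ^ 2 ∂(law d ρ) + ∫ η, (cE ρ S F η - H η) ^ 2 ∂(law d ρ) := by
  have hFL : MemLp F 2 (law d ρ) := by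
    rwa [memLp_two_iff_integrable_sq hm.aestronglyMeasurable]
  have hHL : MemLp H 2 (law d ρ) := by
    rwa [memLp_two_iff_integrable_sq hHm.aestronglyMeasurable]
  have hCL := memLp_cE83 S hm hF
  have hK : DependsOn (fun η => cE ρ S F η - H η) S := by
    intro x y hxy
    show cE ρ S F x - H x = cE ρ S F y - H y
    rw [cE_dep S F hxy, hH hxy]
  have hKL : MemLp (fun η => cE ρ S F η - H η) 2 (law d ρ) := hCL.sub hHL
  have hDL : MemLp (fun η => F η - cE ρ S F η) 2 (law d ρ) := hFL.sub hCL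
  have h1 : ∫ η, F η * (cE ρ S F η - H η) ∂(law d ρ) =
      ∫ η, cE ρ S F η * (cE ρ S F η - H η) ∂(law d ρ) :=
    int_mul_cE S (hFL.integrable_mul hKL) hK
  have h2 : ∫ η, (F η - cE ρ S F η) * (cE ρ S F η - H η) ∂(law d ρ) = 0 := by
    have e : ∀ η, (F η - cE ρ S F η) * (cE ρ S F η - H η) =
        F η * (cE ρ S F η - H η) - cE ρ S F η * (cE ρ S F η - H η) := fun η => by ring
    simp only [e]
    have j1 : Integrable (fun η => F η * (cE ρ S F η - H η)) (law d ρ) := hFL.integrable_mul hKL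
    have j2 : Integrable (fun η => cE ρ S F η * (cE ρ S F η - H η)) (law d ρ) :=
      hCL.integrable_mul hKL
    rw [integral_sub j1 j2, h1, sub_self]
  have e : ∀ η, (F η - H η) ^ 2 = (F η - cE ρ S F η) ^ 2 +
      (2 * ((F η - cE ρ S F η) * (cE ρ S F η - H η)) + (cE ρ S F η - H η) ^ 2) := fun η => by ring
  simp only [e]
  have i1 : Integrable (fun η => (F η - cE ρ S F η) ^ 2) (law d ρ) := hDL.integrable_sq
  have i2 : Integrable (fun η => 2 * ((F η - cE ρ S F η) * (cE ρ S F η - H η))) (law d ρ) :=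
    (hDL.integrable_mul hKL).const_mul 2
  have i3 : Integrable (fun η => (cE ρ S F η - H η) ^ 2) (law d ρ) := hKL.integrable_sq
  rw [int3_83 i1 i2 i3, integral_const_mul, h2]
  ring

/-- The free energy minus its conditional mean is square integrable. -/
lemma sub_cE_sq83 (hd : 0 < d) (hρ : EM ρ) (β : ℝ) (h : Vec d) (n p : ℕ) :
    MemLp (fun η => X β h η n - cE ρ (Pa d p) (fun ζ => X β h ζ n) η) 2 (law d ρ) := by
  have hX := integrable_X_sq39 (ρ := ρ) hd hρ β h n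
  have hFL : MemLp (fun η => X β h η n) 2 (law d ρ) := by
    rwa [memLp_two_iff_integrable_sq (measurable_X β h n).aestronglyMeasurable]
  exact hFL.sub (memLp_cE83 (Pa d p) (measurable_X β h n) hX)

lemma Vb_nonneg83 (β : ℝ) (h : Vec d) (n p : ℕ) : 0 ≤ Vb ρ β h n p :=
  integral_nonneg fun _ => sq_nonneg _

/-- Leaf A2. -/
theorem vbV83 (hd : 0 < d) (hρ : EM ρ) (β : ℝ) : VbV d ρ β := by
  intro h n p
  refine ⟨Vb_nonneg83 β h n p, ?_⟩
  have hX := integrable_X_sq39 (ρ := ρ) hd hρ β h n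
  have h1 := pyth83 (ρ := ρ) (Pa d p) (F := fun η => X β h η n) (H := fun _ => A ρ β h n)
    (measurable_X β h n) hX (fun _ _ _ => rfl) measurable_const (integrable_const _)
  have h2 : 0 ≤ ∫ η, (cE ρ (Pa d p) (fun η => X β h η n) η - A ρ β h n) ^ 2 ∂(law d ρ) :=
    integral_nonneg fun _ => sq_nonneg _
  unfold Va Vb
  linarith

/-- The bulk variance decreases. -/
lemma Vb_anti83 (hd : 0 < d) (hρ : EM ρ) (β : ℝ) (h : Vec d) (n : ℕ) {p q : ℕ} (hpq : p ≤ q) :
    Vb ρ β h n q ≤ Vb ρ β h n p := by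
  have hX := integrable_X_sq39 (ρ := ρ) hd hρ β h n
  have hm := measurable_X (d := d) β h n
  have hCL := memLp_cE83 (ρ := ρ) (Pa d p) hm hX
  have hsub : Pa d p ⊆ Pa d q := fun x hx => le_trans (show x.1 ≤ p from hx) hpq
  have h1 := pyth83 (ρ := ρ) (Pa d q) (F := fun η => X β h η n)
    (H := cE ρ (Pa d p) fun η => X β h η n) hm hX
    ((cE_dep (ρ := ρ) (Pa d p) _).mono hsub) (measurable_cE hm _) hCL.integrable_sq
  have h2 : 0 ≤ ∫ η, (cE ρ (Pa d q) (fun η => X β h η n) η -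
      cE ρ (Pa d p) (fun η => X β h η n) η) ^ 2 ∂(law d ρ) :=
    integral_nonneg fun _ => sq_nonneg _
  unfold Vb
  linarith

/-- Two copies with the same rows `≤ p`. -/
lemma two83 (hd : 0 < d) (hρ : EM ρ) (β : ℝ) (h : Vec d) (n p : ℕ) :
    ∫ w, (X β h w.1 n - X β h (spl (Pa d p) w.1 w.2) n) ^ 2 ∂((law d ρ).prod (law d ρ)) =
      2 * Vb ρ β h n p := by
  have hX := integrable_X_sq39 (ρ := ρ) hd hρ β h n
  have hm := measurable_X (d := d) β h n
  have hFL : MemLp (fun η : Env d => X β h η n) 2 (law d ρ) := by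
    rwa [memLp_two_iff_integrable_sq hm.aestronglyMeasurable]
  have hCL := memLp_cE83 (ρ := ρ) (Pa d p) hm hX
  have m1 : MemLp (fun w : Env d × Env d => X β h w.1 n) 2 ((law d ρ).prod (law d ρ)) :=
    hFL.comp_measurePreserving measurePreserving_fst
  have m2 : MemLp (fun w : Env d × Env d => X β h (spl (Pa d p) w.1 w.2) n) 2
      ((law d ρ).prod (law d ρ)) := hFL.comp_measurePreserving (mp_spl (ρ := ρ) (Pa d p))
  have i12 : Integrable (fun w : Env d × Env d => X β h w.1 n *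
      X β h (spl (Pa d p) w.1 w.2) n) ((law d ρ).prod (law d ρ)) := m1.integrable_mul m2
  have e1 : ∫ w : Env d × Env d, X β h w.1 n ^ 2 ∂((law d ρ).prod (law d ρ)) =
      ∫ η, X β h η n ^ 2 ∂(law d ρ) :=
    LawU_integral (F := fun η : Env d => X β h η n ^ 2) (measurePreserving_fst)
      hX.aestronglyMeasurable
  have e2 : ∫ w : Env d × Env d, X β h (spl (Pa d p) w.1 w.2) n ^ 2
      ∂((law d ρ).prod (law d ρ)) = ∫ η, X β h η n ^ 2 ∂(law d ρ) :=
    LawU_integral (F := fun η : Env d => X β h η n ^ 2) (mp_spl (ρ := ρ) (Pa d p))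
      hX.aestronglyMeasurable
  have e3 : ∫ w : Env d × Env d, X β h w.1 n * X β h (spl (Pa d p) w.1 w.2) n
      ∂((law d ρ).prod (law d ρ)) =
      ∫ η, X β h η n * cE ρ (Pa d p) (fun ζ => X β h ζ n) η ∂(law d ρ) := by
    rw [integral_prod _ i12]
    refine integral_congr_ae (Eventually.of_forall fun η => ?_)
    show ∫ ξ, X β h η n * X β h (spl (Pa d p) η ξ) n ∂(law d ρ) = _
    rw [integral_const_mul]
    rfl
  have e4 : ∫ η, X β h η n * cE ρ (Pa d p) (fun ζ => X β h ζ n) η ∂(law d ρ) =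
      ∫ η, cE ρ (Pa d p) (fun ζ => X β h ζ n) η * cE ρ (Pa d p) (fun ζ => X β h ζ n) η
        ∂(law d ρ) :=
    int_mul_cE (Pa d p) (F := fun η => X β h η n) (hFL.integrable_mul hCL) (cE_dep _ _)
  have e5 : ∀ w : Env d × Env d, (X β h w.1 n - X β h (spl (Pa d p) w.1 w.2) n) ^ 2 =
      X β h w.1 n ^ 2 + (X β h (spl (Pa d p) w.1 w.2) n ^ 2 +
        (-2) * (X β h w.1 n * X β h (spl (Pa d p) w.1 w.2) n)) := fun w => by ring
  simp only [e5]
  rw [int3_83 m1.integrable_sq m2.integrable_sq (i12.const_mul (-2)), integral_const_mul, e1,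
    e2, e3]
  have e6 : ∀ η : Env d, (X β h η n - cE ρ (Pa d p) (fun ζ => X β h ζ n) η) ^ 2 =
      X β h η n ^ 2 + (cE ρ (Pa d p) (fun ζ => X β h ζ n) η *
        cE ρ (Pa d p) (fun ζ => X β h ζ n) η +
        (-2) * (X β h η n * cE ρ (Pa d p) (fun ζ => X β h ζ n) η)) := fun η => by ring
  have j1 : Integrable (fun η => cE ρ (Pa d p) (fun ζ => X β h ζ n) η *
      cE ρ (Pa d p) (fun ζ => X β h ζ n) η) (law d ρ) := hCL.integrable_mul hCL
  have j2 : Integrable (fun η => (-2) * (X β h η n * cE ρ (Pa d p) (fun ζ => X β h ζ n) η))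
      (law d ρ) := (hFL.integrable_mul hCL).const_mul (-2)
  unfold Vb
  simp only [e6]
  rw [int3_83 hX j1 j2, integral_const_mul, ← e4]
  ring

/-- The first moment of the deviation from the conditional mean. -/
lemma abs_sub_cE83 (hd : 0 < d) (hρ : EM ρ) (β : ℝ) (h : Vec d) (n p : ℕ) :
    ∫ η, |X β h η n - cE ρ (Pa d p) (fun ζ => X β h ζ n) η| ∂(law d ρ) ≤
      Real.sqrt (Vb ρ β h n p) := by
  have h2 := sub_cE_sq83 (ρ := ρ) hd hρ β h n p
  have h1 : Integrable (fun η => |X β h η n - cE ρ (Pa d p) (fun ζ => X β h ζ n) η|)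
      (law d ρ) := (h2.integrable one_le_two).abs
  obtain ⟨I, hI⟩ : ∃ I, I = ∫ η, |X β h η n - cE ρ (Pa d p) (fun ζ => X β h ζ n) η|
      ∂(law d ρ) := ⟨_, rfl⟩
  rw [← hI]
  refine Real.le_sqrt_of_sq_le ?_
  have h3 : 0 ≤ ∫ η, (|X β h η n - cE ρ (Pa d p) (fun ζ => X β h ζ n) η| - I) ^ 2
      ∂(law d ρ) := integral_nonneg fun _ => sq_nonneg _
  have e : ∀ η : Env d, (|X β h η n - cE ρ (Pa d p) (fun ζ => X β h ζ n) η| - I) ^ 2 =
      (X β h η n - cE ρ (Pa d p) (fun ζ => X β h ζ n) η) ^ 2 +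
      (-(2 * I) * |X β h η n - cE ρ (Pa d p) (fun ζ => X β h ζ n) η| + I ^ 2) := by
    intro η
    rw [← sq_abs (X β h η n - cE ρ (Pa d p) (fun ζ => X β h ζ n) η)]
    ring
  simp only [e] at h3
  rw [int3_83 h2.integrable_sq (h1.const_mul _) (integrable_const _), integral_const_mul,
    ← hI] at h3
  simp only [integral_const, probReal_univ, one_smul] at h3
  unfold Vb
  nlinarith

/-- Leaf A3: Newman-Piza with the bulk variance. -/
theorem npW83 (hd : 0 < d) (hρ : EM ρ) (hnc : ∀ c : ℝ, ρ {c} ≠ 1) {β : ℝ} (hβ : 0 < β) :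
    NpW d ρ β := by
  classical
  obtain ⟨c, hc, hsite⟩ := site39 (d := d) hd hρ hnc hβ
  set V : ℝ := ∫ t, (t - ∫ s, s ∂ρ) ^ 2 ∂ρ with hV
  have hV0 : 0 ≤ V := integral_nonneg fun _ => sq_nonneg _
  refine ⟨V / c ^ 2, by positivity, fun h L p => ?_⟩
  have hm := measurable_X (d := d) β h L
  obtain ⟨H, hH⟩ : ∃ H, H = cE ρ (Pa d p) (fun ζ : Env d => X β h ζ L) := ⟨_, rfl⟩
  have hHm : Measurable H := by
    rw [hH]
    exact measurable_cE hm _
  have hHd : DependsOn H (Pa d p) := by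
    rw [hH]
    exact cE_dep _ _
  obtain ⟨I, hI⟩ : ∃ I, I = Finset.Icc (p + 1) L ×ˢ boxF d L := ⟨_, rfl⟩
  have hI1 : ∀ z ∈ I, p + 1 ≤ z.1 ∧ z.1 ≤ L := by
    intro z hz
    rw [hI] at hz
    exact Finset.mem_Icc.1 (Finset.mem_product.1 hz).1
  have hdep : ∀ (z q : ℕ × Site d), z ∉ (Pa d q.1)ᶜ →
      DependsOn (cE ρ (Pa d q.1)ᶜ (Qt β h L q.1 q.2)) {z}ᶜ := by
    intro z q hpq η η' hηη
    refine cE_dep _ _ fun r hr => hηη r ?_
    intro h1
    rw [Set.mem_singleton_iff] at h1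
    exact hpq (h1 ▸ hr)
  have hb : ∀ q ∈ I, ∀ η, |Qt β h L q.1 q.2 η| ≤ 1 := by
    intro q hq η
    rw [abs_of_nonneg (Qt_nonneg39 _ _ _ _ _ _)]
    exact Qt_le_one39 β h (hI1 q hq).2 _ _
  have hmain := dual85 hρ I (fun η => X β h η L - H η) (hm.sub hHm)
    (by
      have := (sub_cE_sq83 (ρ := ρ) hd hρ β h L p).integrable_sq
      rw [hH]
      exact this)
    (fun q => cE ρ (Pa d q.1)ᶜ (Qt β h L q.1 q.2)) (fun q => Qt β h L q.1 q.2)
    (fun q _ => measurable_cE (measurable_Qt39 β h L q.1 q.2) _)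
    (fun q _ => measurable_Qt39 β h L q.1 q.2)
    (fun q hq η => ⟨cE_nonneg (fun _ => Qt_nonneg39 _ _ _ _ _ _) _ _,
      cE_le (measurable_Qt39 β h L q.1 q.2) (fun _ => Qt_nonneg39 _ _ _ _ _ _)
        (fun _ => Qt_le_one39 β h (hI1 q hq).2 _ _) _ _⟩)
    (fun q hq η => ⟨Qt_nonneg39 _ _ _ _ _ _, Qt_le_one39 β h (hI1 q hq).2 _ _⟩)
    (fun q _ => hdep q q fun h1 => h1 (show q.1 ≤ q.1 from le_rfl))
    (fun z _ q _ _ => by
      rcases le_total z.1 q.1 with h2 | h2
      · exact Or.inl (hdep z q fun h3 => h3 (show z.1 ≤ q.1 from h2))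
      · exact Or.inr (hdep q z fun h3 => h3 (show q.1 ≤ z.1 from h2)))
    (fun q hq => by
      rw [int_cE_sq _ (measurable_Qt39 β h L q.1 q.2) (hb q hq)]
      refine integral_congr_ae (Eventually.of_forall fun η => ?_)
      show cE ρ _ (Qt β h L q.1 q.2) η * Qt β h L q.1 q.2 η = _
      ring)
    hc.le (fun q hq η => by
      refine (hsite h L q.1 q.2 η (by have := (hI1 q hq).1; omega) (hI1 q hq).2).trans
        (le_of_eq ?_)
      have h1 : ∀ r : ℝ, H (Function.update η (q.1, q.2) r) = H η := by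
        intro r
        refine hHd fun z hz => ?_
        have hz' : z.1 ≤ p := hz
        have : z ≠ (q.1, q.2) := by
          rintro rfl
          have := (hI1 q hq).1
          simp only at hz'
          omega
        rw [Function.update_of_ne this]
      show _ = ∫ r, (r - ∫ s, s ∂ρ) * (X β h (Function.update η (q.1, q.2) r) L -
        H (Function.update η (q.1, q.2) r)) ∂ρ
      simp only [h1, mul_sub]
      have i2 : Integrable (fun r : ℝ => (r - ∫ s, s ∂ρ) * H η) ρ :=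
        ((D85.em_id hρ).sub (integrable_const _)).mul_const _
      have z2 : ∫ r, (r - ∫ s, s ∂ρ) * H η ∂ρ = 0 := by
        rw [integral_mul_const, D85.cen_zero hρ, zero_mul]
      by_cases i1 : Integrable (fun r : ℝ => (r - ∫ s, s ∂ρ) *
          X β h (Function.update η (q.1, q.2) r) L) ρ
      · rw [integral_sub i1 i2, z2, sub_zero]
      · rw [integral_undef i1, integral_undef]
        intro i3
        refine i1 ((i3.add i2).congr (Eventually.of_forall fun r => ?_))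
        simp only [Pi.add_apply]
        ring) 0
  have hc2 : 0 < c ^ 2 := by positivity
  have e1 : ∫ η, (X β h η L - H η - 0) ^ 2 ∂(law d ρ) = Vb ρ β h L p := by
    rw [hH]
    simp only [sub_zero]
    rfl
  rw [e1] at hmain
  have e2 : ∑ t ∈ Finset.Icc (p + 1) L, St ρ β h L t =
      ∑ q ∈ I, ∫ η, cE ρ (Pa d q.1)ᶜ (Qt β h L q.1 q.2) η ^ 2 ∂(law d ρ) := by
    rw [hI, Finset.sum_product]
    refine Finset.sum_congr rfl fun t ht => ?_
    unfold St
    rw [integral_finsetSum]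
    intro y _
    exact integrable_cE_sq39 _ β h (Finset.mem_Icc.1 ht).2 y
  rw [e2, div_mul_eq_mul_div, le_div_iff₀ hc2, mul_comm]
  exact hmain

end Pool.Agent.W_7d29a1_SW
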