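import Pool.Agent.W_7d29a1_SW.WZero98
import Pool.Agent.W_7d29a1_SW.StepU83
import Pool.Agent.W_7d29a1_SW.LkB96
import Pool.Agent.W_7d29a1_SW.LuD93
import Pool.Agent.W_7d29a1_SW.Vb83
import Pool.Agent.W_7d29a1_SW.BetaG48
import Pool.Agent.W_7d29a1_AM.FinU73

/-!
Theorem W0 for every law.
-/

namespace Pool.Agent.W_7d29a1_SW

open MeasureTheory ProbabilityTheory Filter Topology Pool.Agent.W_MP_7d29a1_pr
  Pool.Agent.W_7d29a1_h46 Pool.Agent.W_7d29a1_h46u Pool.Agent.W_7d29a1_D2.B35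
  Pool.Agent.W_7d29a1_Q29 Pool.Agent.W_7d29a1_R34 Pool.Agent.W_7d29a1_SP Pool.Agent.W_7d29a1_SD
  Pool.Agent.W_7d29a1_AM

variable {ρ : Measure ℝ} [IsProbabilityMeasure ρ]

/-- There is no good point, for every law. -/
theorem pointGF98 (hρ : EM ρ) (hnc : ∀ c : ℝ, ρ {c} ≠ 1) {β : ℝ} (hβ : 0 < β) : PointG ρ β := by
  have hLoc : LocE 2 ρ β := Csy42.loc42 (by norm_num) hρ β
  have hLkG : LkG ρ β := lkG96
    (lkB96 (luD93 (by norm_num) hρ β) (npW83 (by norm_num) hρ hnc hβ)) (vbV83 (by norm_num) hρ β)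
  have hGrow : GrowU 2 ρ β :=
    growU78 (cnt79 (by norm_num) hρ β) (ampU73 (by norm_num) hρ hnc hβ)
  exact pointGU83 hρ (stepGU83 hρ seqP69 hGrow hLkG hLoc) (betaG48 hρ β seqP69 hLkG) iter83
    (gapQ72 (npf98 (by norm_num) hρ hnc hβ) hLoc (lowP85 (by norm_num) hρ β))

/-- **THEOREM W0 for every law.** -/
theorem mainW098 (hρ : EM ρ) (hnc : ∀ c : ℝ, ρ {c} ≠ 1) {β : ℝ} (hβ : 0 < β) : MainW0 ρ β :=
  wZero98 hρ (pointGF98 hρ hnc hβ)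

end Pool.Agent.W_7d29a1_SW
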